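import Pool.Agent.U463.RB.NMain

/-!
# Sign patterns of families near random functions
-/

set_option autoImplicit false

namespace Pool.Agent.U463.RB

open Finset Filter MeasureTheory ProbabilityTheory
open Pool.Agent.W257.FS
open Pool.Agent.W136.RF (cm cm_mul cm_abs WW WW_abs)
open Pool.Agent.TH573.JF

/-- the indicator of a sign pattern -/
theorem pat_expand {α : Type*} (Z : Finset α) (u t : α → ℂ) (hu : ∀ z ∈ Z, u z = 1 ∨ u z = -1)
    (ht : ∀ z ∈ Z, t z = 1 ∨ t z = -1) :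
    open Classical in (if ∀ z ∈ Z, u z = t z then (1 : ℂ) else 0) =
      (1 / 2) ^ Z.card * ∑ S ∈ Z.powerset, (∏ z ∈ S, t z) * ∏ z ∈ S, u z := by
  classical
  have h1 : (if ∀ z ∈ Z, u z = t z then (1 : ℂ) else 0) =
      ∏ z ∈ Z, (if u z = t z then (1 : ℂ) else 0) := by
    rw [prod_ite_zero]
    simp
  have h2 : ∏ z ∈ Z, (if u z = t z then (1 : ℂ) else 0) = ∏ z ∈ Z, (1 / 2 * (1 + t z * u z)) := by
    refine prod_congr rfl fun z hz => ?_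
    rcases hu z hz with h3 | h3 <;> rcases ht z hz with h4 | h4 <;> rw [h3, h4] <;> norm_num
  rw [h1, h2, prod_mul_distrib, prod_const]
  congr 1
  rw [prod_one_add]
  refine sum_congr rfl fun S _ => ?_
  rw [prod_mul_distrib]

open Classical in
/-- sign patterns from correlations -/
theorem pats {α : Type*} (u : α → ℕ → ℝ) (hu : ∀ z n, 1 ≤ n → u z n = 1 ∨ u z n = -1) (v : ℕ → ℂ)
    (h : ∀ Z : Finset α, Z.Nonempty → Tendsto (fun x : ℕ =>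
      (∑ n ∈ Icc 1 x, v n * (∏ z ∈ Z, (u z n : ℂ))) / (x : ℂ)) atTop (nhds 0))
    (Z : Finset α) (t : α → ℝ) (ht : ∀ z ∈ Z, t z = 1 ∨ t z = -1) :
    Tendsto (fun x : ℕ => (∑ n ∈ (Icc 1 x).filter (fun n => ∀ z ∈ Z, u z n = t z), v n -
      (1 / 2) ^ Z.card * ∑ n ∈ Icc 1 x, v n) / (x : ℂ)) atTop (nhds 0) := by
  have h1 : Tendsto (fun x : ℕ => ∑ S ∈ Z.powerset.filter (fun S => S.Nonempty),
      ((1 / 2 : ℂ) ^ Z.card * ∏ z ∈ S, (t z : ℂ)) *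
        ((∑ n ∈ Icc 1 x, v n * (∏ z ∈ S, (u z n : ℂ))) / (x : ℂ)))
        atTop (nhds 0) := by
    have h2 : Tendsto (fun x : ℕ => ∑ S ∈ Z.powerset.filter (fun S => S.Nonempty),
      ((1 / 2 : ℂ) ^ Z.card * ∏ z ∈ S, (t z : ℂ)) *
        ((∑ n ∈ Icc 1 x, v n * (∏ z ∈ S, (u z n : ℂ))) / (x : ℂ)))
        atTop (nhds (∑ S ∈ Z.powerset.filter (fun S => S.Nonempty),
      ((1 / 2 : ℂ) ^ Z.card * ∏ z ∈ S, (t z : ℂ)) * 0)) := by
      refine tendsto_finsetSum _ fun S hS => ?_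
      rw [mem_filter] at hS
      exact (h S hS.2).const_mul _
    simpa using h2
  refine h1.congr fun x => ?_
  have h3 : ∀ n ∈ Icc 1 x, (if ∀ z ∈ Z, u z n = t z then v n else 0) =
      ∑ S ∈ Z.powerset, ((1 / 2 : ℂ) ^ Z.card * ∏ z ∈ S, (t z : ℂ)) *
        (v n * (∏ z ∈ S, (u z n : ℂ))) := by
    intro n hn
    rw [mem_Icc] at hn
    have h4 := pat_expand Z (fun z => (u z n : ℂ)) (fun z => (t z : ℂ))
      (fun z _ => by
        rcases hu z n hn.1 with h5 | h5 <;> rw [h5] <;> simp)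
      (fun z hz => by rcases ht z hz with h5 | h5 <;> rw [h5] <;> simp)
    have h5 : (if ∀ z ∈ Z, u z n = t z then v n else 0) =
        (if ∀ z ∈ Z, (u z n : ℂ) = (t z : ℂ) then (1 : ℂ) else 0) * v n := by
      by_cases c : ∀ z ∈ Z, u z n = t z
      · rw [if_pos c, if_pos (fun z hz => by rw [c z hz]), one_mul]
      · rw [if_neg c, if_neg (fun hh => c fun z hz => by exact_mod_cast hh z hz), zero_mul]
    rw [h5]
    refine (congrArg (fun z => z * v n) h4).trans ?_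
    rw [mul_sum, sum_mul]
    refine sum_congr rfl fun S _ => ?_
    ring
  have h6 : ∀ S ∈ Z.powerset, ∑ n ∈ Icc 1 x, ((1 / 2 : ℂ) ^ Z.card * ∏ z ∈ S, (t z : ℂ)) *
        (v n * (∏ z ∈ S, (u z n : ℂ))) = ((1 / 2 : ℂ) ^ Z.card * ∏ z ∈ S, (t z : ℂ)) *
        ∑ n ∈ Icc 1 x, v n * (∏ z ∈ S, (u z n : ℂ)) := fun S _ => (mul_sum _ _ _).symm
  have h8 : ∑ n ∈ (Icc 1 x).filter (fun n => ∀ z ∈ Z, u z n = t z), v n =
      ∑ S ∈ Z.powerset, ((1 / 2 : ℂ) ^ Z.card * ∏ z ∈ S, (t z : ℂ)) *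
        ∑ n ∈ Icc 1 x, v n * (∏ z ∈ S, (u z n : ℂ)) := by
    rw [sum_filter, sum_congr rfl h3, sum_comm, sum_congr rfl h6]
  have h7 : Z.powerset.filter (fun S => ¬ S.Nonempty) = {∅} := by
    ext S
    rw [mem_filter, mem_powerset, mem_singleton, not_nonempty_iff_eq_empty]
    constructor
    · exact fun hh => hh.2
    · rintro rfl
      exact ⟨empty_subset _, rfl⟩
  have h9 := sum_filter_add_sum_filter_not Z.powerset (fun S => S.Nonempty)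
    (fun S => ((1 / 2 : ℂ) ^ Z.card * ∏ z ∈ S, (t z : ℂ)) *
        ∑ n ∈ Icc 1 x, v n * (∏ z ∈ S, (u z n : ℂ)))
  rw [h7, sum_singleton] at h9
  simp only [prod_empty, mul_one] at h9
  rw [h8, ← h9, add_sub_cancel_right, sum_div]
  refine sum_congr rfl fun S _ => ?_
  rw [mul_div_assoc]

/-- products over the columns -/
theorem prod_cols {ℓ : ℕ} (Z : Finset (Fin ℓ × ℕ)) (φ : Fin ℓ × ℕ → ℝ) :
    open Classical in ∏ t : Fin (Z.sup Prod.snd + 1),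
      ∏ k ∈ univ.filter (fun k : Fin ℓ => (k, (t : ℕ)) ∈ Z), φ (k, (t : ℕ)) = ∏ z ∈ Z, φ z := by
  classical
  have h1 := Finset.prod_range (n := Z.sup Prod.snd + 1)
    (fun t => ∏ k ∈ univ.filter (fun k : Fin ℓ => (k, t) ∈ Z), φ (k, t))
  rw [← h1]
  have h2 : ∀ t ∈ range (Z.sup Prod.snd + 1),
      ∏ k ∈ univ.filter (fun k : Fin ℓ => (k, t) ∈ Z), φ (k, t) =
      ∏ k : Fin ℓ, if (k, t) ∈ Z then φ (k, t) else 1 := fun t _ => prod_filter _ _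
  rw [prod_congr rfl h2]
  have h3 := Finset.prod_product_right (univ : Finset (Fin ℓ)) (range (Z.sup Prod.snd + 1))
    (fun z => if z ∈ Z then φ z else 1)
  rw [← h3, ← prod_filter]
  refine prod_congr ?_ fun _ _ => rfl
  ext z
  rw [mem_filter, mem_product, mem_range]
  refine ⟨fun h => h.2, fun h => ⟨⟨mem_univ _, ?_⟩, h⟩⟩
  have := le_sup (f := Prod.snd) h
  omega

/-- a class of sequences in the unit disc with small entropy -/
def Thin (V : Set (ℕ → ℂ)) : Prop :=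
  (∀ v ∈ V, ∀ n, ‖v n‖ ≤ 1) ∧ ∀ δ : ℝ, 0 < δ → ∀ D : ℕ, ∀ᶠ x : ℕ in atTop,
    ∃ C : Finset (ℕ → ℂ), Real.log C.card ^ D ≤ x ∧ (∀ w ∈ C, ∀ n, ‖w n‖ ≤ 1) ∧
      ∀ v ∈ V, ∃ w ∈ C, ∑ n ∈ Icc 1 x, ‖v n - w n‖ ≤ δ * x

theorem Thin.part {V : Set (ℕ → ℂ)} (hV : Thin V) (r : ℂ → ℝ)
    (hr : ∀ z, |r z| ≤ ‖z‖) (hs : ∀ z w, r z - r w = r (z - w)) :
    RThin ((fun (v : ℕ → ℂ) n => r (v n)) '' V) := by
  classical
  refine ⟨?_, fun δ hδ D => ?_⟩
  · rintro _ ⟨v, hv, rfl⟩ n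
    exact (hr _).trans (hV.1 v hv n)
  · filter_upwards [hV.2 δ hδ D] with x hx
    obtain ⟨C, h1, h2, h3⟩ := hx
    refine ⟨C.image (fun (v : ℕ → ℂ) n => r (v n)), ?_, ?_, ?_⟩
    · refine le_trans (pow_le_pow_left₀ (Real.log_natCast_nonneg _) ?_ D) h1
      rcases Nat.eq_zero_or_pos (C.image (fun (v : ℕ → ℂ) n => r (v n))).card with h0 | h0
      · rw [h0, Nat.cast_zero, Real.log_zero]
        exact Real.log_natCast_nonneg _
      · refine Real.log_le_log (by exact_mod_cast h0) ?_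
        exact_mod_cast card_image_le
    · intro w hw n
      rw [mem_image] at hw
      obtain ⟨w', hw', rfl⟩ := hw
      exact (hr _).trans (h2 w' hw' n)
    · rintro _ ⟨v, hv, rfl⟩
      obtain ⟨w, hw, hvw⟩ := h3 v hv
      refine ⟨_, mem_image_of_mem _ hw, le_trans (sum_le_sum fun n _ => ?_) hvw⟩
      beta_reduce
      rw [hs]
      exact hr _

/-- **the correlations**, complex weights -/
theorem cnear {ι Ω : Type} [MeasurableSpace Ω] {P : Measure Ω} [IsProbabilityMeasure P]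
    [Countable ι] {e : ι → ℕ → Ω → ℝ}
    (hm : ∀ j p, Measurable (e j p)) (he : ∀ j p ω, e j p ω = 1 ∨ e j p ω = -1)
    (hind : iIndepFun (fun (p : ℕ) (ω : Ω) (i : ι) => e i p ω) P) (hW : Win P e)
    {g : ι → ℕ → ℝ} (hg : ∀ i, SignMul (g i)) {V : ℕ → Set (ℕ → ℂ)} (hV : ∀ s, Thin (V s)) :
    ∀ᵐ ω ∂P, ∀ (ℓ : ℕ) (A : Fin ℓ → Finset ι),
      (∀ S : Finset (Fin ℓ), S.Nonempty → (BB A S).Nonempty) → ∀ H : Fin ℓ → ℕ → ℝ,
      (∀ k, SignMul (H k)) → (∀ k, Near (H k)) → ∀ s, ∀ v ∈ V s, ∀ Z : Finset (Fin ℓ × ℕ),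
      Z.Nonempty → Tendsto (fun x : ℕ => (∑ n ∈ Icc 1 x, v n * (∏ z ∈ Z,
        (fam (fun i => rf (g i) (fun p => e i p ω)) A H z.1 (n + z.2) : ℂ))) / (x : ℂ))
          atTop (nhds 0) := by
  classical
  have h1 := nnear (P := P) hm he hind hW hg
    (V := fun s => (fun (v : ℕ → ℂ) n => Complex.re (v n)) '' V s)
    (fun s => (hV s).part Complex.re Complex.abs_re_le_norm (fun z w => (Complex.sub_re z w).symm))
  have h2 := nnear (P := P) hm he hind hW hg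
    (V := fun s => (fun (v : ℕ → ℂ) n => Complex.im (v n)) '' V s)
    (fun s => (hV s).part Complex.im Complex.abs_im_le_norm (fun z w => (Complex.sub_im z w).symm))
  filter_upwards [h1, h2] with ω hω1 hω2 ℓ A hA H hH hHN s v hv Z hZ
  obtain ⟨z0, hz0⟩ := hZ
  obtain ⟨L, hL⟩ : ∃ L, L = Z.sup Prod.snd + 1 := ⟨_, rfl⟩
  obtain ⟨E, hE⟩ : ∃ E : Fin (Z.sup Prod.snd + 1) → Finset (Fin ℓ),
      E = fun t : Fin (Z.sup Prod.snd + 1) =>
        univ.filter (fun k : Fin ℓ => (k, (t : ℕ)) ∈ Z) := ⟨_, rfl⟩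
  have hz1 : z0.2 < Z.sup Prod.snd + 1 := by
    have := le_sup (f := Prod.snd) hz0
    omega
  have hne : ∃ t, (BB A (E t)).Nonempty := by
    refine ⟨⟨z0.2, hz1⟩, hA _ ⟨z0.1, ?_⟩⟩
    rw [hE]
    exact mem_filter.2 ⟨mem_univ _, hz0⟩
  obtain ⟨Φ, hΦ⟩ : ∃ Φ : Fin ℓ → ℕ → ℝ, Φ = fam (fun i => rf (g i) (fun p => e i p ω)) A H :=
    ⟨_, rfl⟩
  have a1 := hω1 s _ (Set.mem_image_of_mem _ hv) ℓ A _ E hne H hH hHN
  have a2 := hω2 s _ (Set.mem_image_of_mem _ hv) ℓ A _ E hne H hH hHN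
  rw [← hΦ] at a1 a2 ⊢
  have hcol : ∀ n : ℕ, ∏ t : Fin (Z.sup Prod.snd + 1), ∏ k ∈ E t, Φ k (n + (t : ℕ)) =
      ∏ z ∈ Z, Φ z.1 (n + z.2) := by
    intro n
    rw [hE]
    exact prod_cols Z (fun z => Φ z.1 (n + z.2))
  have hshift : ∀ (r : ℂ → ℝ) (x : ℕ), ∑ m ∈ range x, r (v (m + 1)) *
      (∏ t : Fin (Z.sup Prod.snd + 1), ∏ k ∈ E t, Φ k (m + 1 + (t : ℕ))) =
      ∑ n ∈ Icc 1 x, r (v n) * ∏ z ∈ Z, Φ z.1 (n + z.2) := by
    intro r x
    have h3 := Finset.sum_Ico_add' (fun n : ℕ => r (v n) * ∏ z ∈ Z, Φ z.1 (n + z.2)) 0 x 1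
    rw [← Finset.range_eq_Ico] at h3
    have h4 : Ico (0 + 1) (x + 1) = Icc 1 x := by
      ext n
      simp only [mem_Ico, mem_Icc]
      omega
    rw [h4] at h3
    rw [← h3]
    refine sum_congr rfl fun m _ => ?_
    rw [hcol]
  have b1 := (Complex.continuous_ofReal.tendsto 0).comp (a1.congr fun x => by
    rw [hshift Complex.re x])
  have b2 := ((Complex.continuous_ofReal.tendsto 0).comp (a2.congr fun x => by
    rw [hshift Complex.im x])).mul_const Complex.I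
  have b3 := b1.add b2
  rw [Complex.ofReal_zero, zero_mul, zero_add] at b3
  refine b3.congr fun x => ?_
  simp only [Function.comp_apply]
  push_cast
  rw [div_mul_eq_mul_div, ← add_div, sum_mul, ← sum_add_distrib]
  congr 1
  refine sum_congr rfl fun n _ => ?_
  conv_rhs => rw [← Complex.re_add_im (v n)]
  ring

open Classical in
/-- **fair coins** -/
theorem fair {ι Ω : Type} [MeasurableSpace Ω] {P : Measure Ω} [IsProbabilityMeasure P]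
    [Countable ι] {e : ι → ℕ → Ω → ℝ}
    (hm : ∀ j p, Measurable (e j p)) (he : ∀ j p ω, e j p ω = 1 ∨ e j p ω = -1)
    (hind : iIndepFun (fun (p : ℕ) (ω : Ω) (i : ι) => e i p ω) P) (hW : Win P e)
    {g : ι → ℕ → ℝ} (hg : ∀ i, SignMul (g i)) {V : ℕ → Set (ℕ → ℂ)} (hV : ∀ s, Thin (V s)) :
    ∀ᵐ ω ∂P, ∀ (ℓ : ℕ) (A : Fin ℓ → Finset ι),
      (∀ S : Finset (Fin ℓ), S.Nonempty → (BB A S).Nonempty) → ∀ H : Fin ℓ → ℕ → ℝ,
      (∀ k, SignMul (H k)) → (∀ k, Near (H k)) → ∀ G : Fin ℓ → ℕ → ℝ,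
      (∀ j n, 1 ≤ n → G j n = (∏ i ∈ A j, rf (g i) (fun p => e i p ω) n) * H j n) →
      ∀ s, ∀ v ∈ V s, ∀ (Z : Finset (Fin ℓ × ℕ)) (t : Fin ℓ × ℕ → ℝ),
      (∀ z ∈ Z, t z = 1 ∨ t z = -1) → Tendsto (fun x : ℕ =>
        (∑ n ∈ (Icc 1 x).filter (fun n => ∀ z ∈ Z, G z.1 (n + z.2) = t z), v n -
        (1 / 2) ^ Z.card * ∑ n ∈ Icc 1 x, v n) / (x : ℂ)) atTop (nhds 0) := by
  filter_upwards [cnear hm he hind hW hg hV] with ω hω ℓ A hA H hH hHN G hG s v hv Z t ht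
  have hS : ∀ j, SignMul (fam (fun i => rf (g i) (fun p => e i p ω)) A H j) := fun j =>
    fam_signMul (fun i => rf_signMul (hg i) (fun p => he i p ω)) A hH j
  have hGe : ∀ j n, 1 ≤ n → G j n = fam (fun i => rf (g i) (fun p => e i p ω)) A H j n := hG
  have p1 : ∀ (z : Fin ℓ × ℕ) (n : ℕ), 1 ≤ n → (fun z n => G z.1 (n + z.2) : Fin ℓ × ℕ → ℕ → ℝ) z n = 1 ∨
      (fun z n => G z.1 (n + z.2) : Fin ℓ × ℕ → ℕ → ℝ) z n = -1 := by
    intro z n hn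
    beta_reduce
    rw [hGe _ _ (by omega)]
    exact (hS z.1).val _ (by omega)
  have p2 : ∀ Z' : Finset (Fin ℓ × ℕ), Z'.Nonempty → Tendsto (fun x : ℕ =>
      (∑ n ∈ Icc 1 x, v n * (∏ z ∈ Z', ((fun z n => G z.1 (n + z.2) : Fin ℓ × ℕ → ℕ → ℝ) z n : ℂ))) /
        (x : ℂ)) atTop (nhds 0) := by
    intro Z' hZ'
    refine (hω ℓ A hA H hH hHN s v hv Z' hZ').congr fun x => ?_
    congr 1
    refine sum_congr rfl fun n hn => ?_
    rw [mem_Icc] at hn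
    congr 1
    refine prod_congr rfl fun z _ => ?_
    beta_reduce
    rw [hGe _ _ (by omega)]
  have key := pats (fun (z : Fin ℓ × ℕ) n => G z.1 (n + z.2)) p1 v p2 Z t ht
  refine key.congr fun x => ?_
  congr 2

end Pool.Agent.U463.RB
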