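import Pool.Agent.U463.RS.Bad
import Pool.Agent.TH573.JF.Fam

/-!
# Approximation of near characters by few functions
-/

set_option autoImplicit false

namespace Pool.Agent.U463.RB

open Finset Filter
open Pool.Agent.W257.FS
open Pool.Agent.U463.RS (sum_inv_sq)

/-- the product of the primes beyond `Y` which divide `n` -/
def rg (Y n : ℕ) : ℕ := ∏ p ∈ n.primeFactors.filter (fun p => Y < p), p

open Classical in
/-- the approximation: free signs at the powers of the primes up to `Y` -/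
noncomputable def app (Y : ℕ) (S : Finset (ℕ × ℕ)) (ψ : ℕ → ℝ) (n : ℕ) : ℝ :=
  (∏ p ∈ n.primeFactors.filter (fun p => p ≤ Y),
    (if (p, n.factorization p) ∈ S then (-1 : ℝ) else 1)) * ψ (rg Y n)

/-- periodic functions with values `0`, `1`, `-1` -/
noncomputable def per (q : ℕ) (U V : Finset ℕ) (n : ℕ) : ℝ :=
  (if n % q ∈ U then 1 else 0) - (if n % q ∈ V then 1 else 0)

theorem per_abs (q : ℕ) (U V : Finset ℕ) (n : ℕ) : |per q U V n| ≤ 1 := by
  unfold per
  split_ifs <;> norm_num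

theorem app_abs (Y : ℕ) (S : Finset (ℕ × ℕ)) (ψ : ℕ → ℝ) (hψ : ∀ n, |ψ n| ≤ 1) (n : ℕ) :
    |app Y S ψ n| ≤ 1 := by
  classical
  unfold app
  rw [abs_mul, Finset.abs_prod]
  refine mul_le_one₀ (prod_le_one (fun _ _ => abs_nonneg _) fun p _ => ?_) (abs_nonneg _) (hψ _)
  split_ifs <;> norm_num

theorem sm_prod {H : ℕ → ℝ} (hH : SignMul H) (k : ℕ → ℕ) (s : Finset ℕ) :
    (∀ p ∈ s, p.Prime) → H (∏ p ∈ s, p ^ k p) = ∏ p ∈ s, H (p ^ k p) := by
  classical
  induction s using Finset.induction_on with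
  | empty =>
    intro _
    simp [hH.one]
  | insert q s hq ih =>
    intro hs
    have hqp := hs q (mem_insert_self _ _)
    have hsp : ∀ p ∈ s, p.Prime := fun p hp => hs p (mem_insert_of_mem hp)
    rw [prod_insert hq, prod_insert hq, hH.mul _ _ ?_, ih hsp]
    refine Nat.Coprime.prod_right fun p hp => Nat.Coprime.pow _ _ ?_
    exact (Nat.coprime_primes hqp (hsp p hp)).2 (fun h => hq (h ▸ hp))

theorem sm_fact {H : ℕ → ℝ} (hH : SignMul H) {n : ℕ} (hn : n ≠ 0) :
    H n = ∏ p ∈ n.primeFactors, H (p ^ n.factorization p) := by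
  have h1 := sm_prod hH n.factorization n.primeFactors
    (fun p hp => Nat.prime_of_mem_primeFactors hp)
  have h2 : ∏ p ∈ n.primeFactors, p ^ n.factorization p = n := by
    have := Nat.prod_factorization_pow_eq_self hn
    unfold Finsupp.prod at this
    rwa [Nat.support_factorization] at this
  rw [h2] at h1
  exact h1

open Classical in
/-- the prime powers where `H` is negative -/
noncomputable def SP (H : ℕ → ℝ) (Y K : ℕ) : Finset (ℕ × ℕ) :=
  (range (Y + 1) ×ˢ range K).filter (fun z => H (z.1 ^ z.2) = -1)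

open Classical in
theorem per_char {q : ℕ} (hq : 1 ≤ q) (χ : DirichletCharacter ℂ q) (n : ℕ) (x : ℝ)
    (hx : x = 1 ∨ x = -1) (h : χ (n : ZMod q) = (x : ℂ)) :
    per q ((range q).filter (fun a => χ (a : ZMod q) = 1))
      ((range q).filter (fun a => χ (a : ZMod q) = -1)) n = x := by
  have hmod : ((n % q : ℕ) : ZMod q) = (n : ZMod q) := ZMod.natCast_mod n q
  have hlt : n % q < q := Nat.mod_lt _ hq
  unfold per
  simp only [mem_filter, mem_range, hmod, hlt, true_and, h]
  rcases hx with rfl | rfl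
  · have h2 : ¬ (((1:ℝ) : ℂ) = -1) := by norm_num
    rw [if_pos (by norm_num), if_neg h2]
    norm_num
  · have h2 : ¬ (((-1:ℝ) : ℂ) = 1) := by norm_num
    rw [if_neg h2, if_pos (by norm_num)]
    norm_num

open Classical in
/-- the approximation is exact unless a large prime is exceptional or divides twice -/
theorem app_eq {H : ℕ → ℝ} (hH : SignMul H) {q : ℕ} (hq : 1 ≤ q) (χ : DirichletCharacter ℂ q)
    (Y K n : ℕ) (hn : n ≠ 0) (hK : ∀ p, n.factorization p < K)
    (hgood : ∀ p : ℕ, p.Prime → Y < p → p ∣ n → (H p : ℂ) = χ (p : ZMod q) ∧ ¬ p ^ 2 ∣ n) :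
    H n = app Y (SP H Y K) (per q ((range q).filter (fun a => χ (a : ZMod q) = 1))
      ((range q).filter (fun a => χ (a : ZMod q) = -1))) n := by
  unfold app
  rw [sm_fact hH hn, ← prod_filter_mul_prod_filter_not n.primeFactors (fun p => p ≤ Y)]
  congr 1
  · refine prod_congr rfl fun p hp => ?_
    rw [mem_filter] at hp
    have hpp := Nat.prime_of_mem_primeFactors hp.1
    have hmem : (p, n.factorization p) ∈ SP H Y K ↔ H (p ^ n.factorization p) = -1 := by
      unfold SP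
      rw [mem_filter, mem_product, mem_range, mem_range]
      exact ⟨fun h => h.2, fun h => ⟨⟨Nat.lt_succ_of_le hp.2, hK p⟩, h⟩⟩
    split_ifs with h
    · exact hmem.1 h
    · exact (hH.val _ (Nat.one_le_iff_ne_zero.2 (pow_ne_zero _ hpp.ne_zero))).resolve_right
        (fun h' => h (hmem.2 h'))
  · have e1 : ∀ p ∈ n.primeFactors.filter (fun p => ¬ p ≤ Y), H (p ^ n.factorization p) = H p := by
      intro p hp
      rw [mem_filter] at hp
      have hpp := Nat.prime_of_mem_primeFactors hp.1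
      have hpd := Nat.dvd_of_mem_primeFactors hp.1
      have h2 := (hgood p hpp (not_le.1 hp.2) hpd).2
      have h3 : n.factorization p = 1 := by
        have a1 : 1 ≤ n.factorization p := (hpp.dvd_iff_one_le_factorization hn).1 hpd
        have a2 : ¬ 2 ≤ n.factorization p := fun h => h2 ((hpp.pow_dvd_iff_le_factorization hn).2 h)
        omega
      rw [h3, pow_one]
    rw [prod_congr rfl e1]
    symm
    have hfil : n.primeFactors.filter (fun p => ¬ p ≤ Y) =
        n.primeFactors.filter (fun p => Y < p) := by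
      refine filter_congr fun p _ => not_le
    rw [hfil]
    refine per_char hq χ (rg Y n) _ ?_ ?_
    · have : ∀ s : Finset ℕ, (∀ p ∈ s, H p = 1 ∨ H p = -1) →
          ∏ p ∈ s, H p = 1 ∨ ∏ p ∈ s, H p = -1 := by
        intro s
        induction s using Finset.induction_on with
        | empty => intro _; exact Or.inl prod_empty
        | insert i s hi ih =>
          intro h
          rw [prod_insert hi]
          rcases h i (mem_insert_self _ _) with h1 | h1 <;>
            rcases ih (fun p hp => h p (mem_insert_of_mem hp)) with h' | h' <;>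
            rw [h1, h'] <;> norm_num
      refine this _ fun p hp => ?_
      rw [mem_filter] at hp
      exact hH.val p (Nat.prime_of_mem_primeFactors hp.1).one_lt.le
    · unfold rg
      push_cast
      rw [map_prod]
      refine prod_congr rfl fun p hp => ?_
      rw [mem_filter] at hp
      exact ((hgood p (Nat.prime_of_mem_primeFactors hp.1) hp.2
        (Nat.dvd_of_mem_primeFactors hp.1)).1).symm

theorem mult_count (a N s d : ℕ) (hd : 1 ≤ d) :
    ((Ico a (a + N)).filter (fun m => d ∣ m + s)).card ≤ N / d + 2 := by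
  classical
  have hinj : Set.InjOn (fun m => (m + s) / d)
      ((Ico a (a + N)).filter (fun m => d ∣ m + s) : Finset ℕ) := by
    intro m hm m' hm' h
    rw [mem_coe, mem_filter] at hm hm'
    simp only at h
    have h1 := Nat.div_mul_cancel hm.2
    have h2 := Nat.div_mul_cancel hm'.2
    rw [h, h2] at h1
    omega
  rw [← card_image_of_injOn hinj]
  have hsub : ((Ico a (a + N)).filter (fun m => d ∣ m + s)).image (fun m => (m + s) / d) ⊆
      Icc ((a + s) / d) ((a + s) / d + N / d + 1) := by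
    intro x hx
    rw [mem_image] at hx
    obtain ⟨m, hm, rfl⟩ := hx
    rw [mem_filter, mem_Ico] at hm
    rw [mem_Icc]
    refine ⟨Nat.div_le_div_right (by omega), ?_⟩
    refine (Nat.div_le_div_right (c := d) (show m + s ≤ (a + s) + N by omega)).trans ?_
    rw [Nat.add_div hd]
    split_ifs <;> omega
  refine (card_le_card hsub).trans ?_
  rw [Nat.card_Icc]
  generalize (a + s) / d = A
  generalize N / d = B
  omega

/-- multiples in a dyadic block -/
theorem cnt (j s d : ℕ) (hd : 1 ≤ d) (hs : s ≤ 2 ^ j) :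
    ((((Ico (2 ^ j - 1) (2 ^ (j + 1) - 1)).filter (fun m => d ∣ m + 1 + s)).card : ℕ) : ℝ) ≤
      9 * 2 ^ j * (1 / d) := by
  have hp : 1 ≤ 2 ^ j := Nat.one_le_two_pow
  have hd0 : (0:ℝ) < d := by exact_mod_cast hd
  rcases Nat.lt_or_ge (2 ^ (j + 2)) d with h | h
  · have he : (Ico (2 ^ j - 1) (2 ^ (j + 1) - 1)).filter (fun m => d ∣ m + 1 + s) = ∅ := by
      refine filter_eq_empty_iff.2 fun m hm hdm => ?_
      rw [mem_Ico] at hm
      have h1 := Nat.le_of_dvd (by omega) hdm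
      rw [pow_succ, pow_succ] at h
      rw [pow_succ] at hm
      omega
    rw [he, card_empty]
    push_cast
    positivity
  · have h1 := mult_count (2 ^ j - 1) (2 ^ j) (1 + s) d hd
    have e : 2 ^ j - 1 + 2 ^ j = 2 ^ (j + 1) - 1 := by rw [pow_succ]; omega
    rw [e] at h1
    have e2 : (Ico (2 ^ j - 1) (2 ^ (j + 1) - 1)).filter (fun m => d ∣ m + 1 + s) =
        (Ico (2 ^ j - 1) (2 ^ (j + 1) - 1)).filter (fun m => d ∣ m + (1 + s)) :=
      filter_congr fun m _ => by rw [add_assoc]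
    rw [e2]
    have h2 : ((((Ico (2 ^ j - 1) (2 ^ (j + 1) - 1)).filter
        (fun m => d ∣ m + (1 + s))).card : ℕ) : ℝ) ≤ ((2 ^ j / d + 2 : ℕ) : ℝ) := by
      exact_mod_cast h1
    refine h2.trans ?_
    have h3 : ((2 ^ j / d : ℕ) : ℝ) ≤ 2 ^ j / d := by
      have := Nat.cast_div_le (α := ℝ) (m := 2 ^ j) (n := d)
      push_cast at this
      exact this
    have h4 : (d:ℝ) ≤ 2 ^ j * 4 := by
      have : d ≤ 2 ^ j * 4 := by rw [pow_succ, pow_succ] at h; omega
      exact_mod_cast this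
    have h5 : (2:ℝ) ≤ 8 * 2 ^ j * (1 / d) := by
      rw [mul_one_div, le_div_iff₀ hd0]
      linarith
    push_cast
    have h6 : (2:ℝ) ^ j / d = 2 ^ j * (1 / d) := by ring
    rw [h6] at h3
    linarith

open Classical in
/-- the error of the approximation -/
noncomputable def err (H : ℕ → ℝ) {q : ℕ} (χ : DirichletCharacter ℂ q) (Y j : ℕ) : ℝ :=
  ∑ p ∈ (Icc 1 (2 ^ (j + 2))).filter (fun p => (p.Prime ∧ (H p : ℂ) ≠ χ (p : ZMod q)) ∧ Y < p),
    (1 : ℝ) / p + 1 / Y

theorem err_nonneg (H : ℕ → ℝ) {q : ℕ} (χ : DirichletCharacter ℂ q) (Y j : ℕ) :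
    0 ≤ err H χ Y j := by
  unfold err
  have : 0 ≤ ∑ p ∈ (Icc 1 (2 ^ (j + 2))).filter
      (fun p => (p.Prime ∧ (H p : ℂ) ≠ χ (p : ZMod q)) ∧ Y < p), (1 : ℝ) / p :=
    sum_nonneg fun _ _ => by positivity
  positivity

open Classical in
/-- the number of the integers of a block where the approximation fails -/
theorem mis_card {H : ℕ → ℝ} (hH : SignMul H) {q : ℕ} (hq : 1 ≤ q) (χ : DirichletCharacter ℂ q)
    (Y j s : ℕ) (hY : 1 ≤ Y) (hs : s ≤ 2 ^ j) :
    ((((Ico (2 ^ j - 1) (2 ^ (j + 1) - 1)).filter (fun m => H (m + 1 + s) ≠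
      app Y (SP H Y (j + 3)) (per q ((range q).filter (fun a => χ (a : ZMod q) = 1))
      ((range q).filter (fun a => χ (a : ZMod q) = -1))) (m + 1 + s))).card : ℕ) : ℝ) ≤
      9 * 2 ^ j * err H χ Y j := by
  obtain ⟨I, hI⟩ : ∃ I, I = Ico (2 ^ j - 1) (2 ^ (j + 1) - 1) := ⟨_, rfl⟩
  rw [← hI]
  obtain ⟨X1, hX1⟩ : ∃ X1, X1 = (Icc 1 (2 ^ (j + 2))).filter
    (fun p : ℕ => (p.Prime ∧ (H p : ℂ) ≠ χ (p : ZMod q)) ∧ Y < p) := ⟨_, rfl⟩
  obtain ⟨X2, hX2⟩ : ∃ X2, X2 = (Icc 1 (2 ^ (j + 2))).filter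
    (fun p : ℕ => p.Prime ∧ Y < p) := ⟨_, rfl⟩
  have hp1 : 1 ≤ 2 ^ j := Nat.one_le_two_pow
  have hsub : I.filter (fun m => H (m + 1 + s) ≠
      app Y (SP H Y (j + 3)) (per q ((range q).filter (fun a => χ (a : ZMod q) = 1))
      ((range q).filter (fun a => χ (a : ZMod q) = -1))) (m + 1 + s)) ⊆
      (X1.biUnion fun p => I.filter (fun m => p ∣ m + 1 + s)) ∪
      (X2.biUnion fun p => I.filter (fun m => p ^ 2 ∣ m + 1 + s)) := by
    intro m hm
    rw [mem_filter] at hm
    obtain ⟨hmI, hne⟩ := hm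
    have hmI' := hmI
    rw [hI, mem_Ico] at hmI'
    have hnlt : m + 1 + s < 2 ^ (j + 2) := by
      rw [pow_succ, pow_succ]
      rw [pow_succ] at hmI'
      omega
    have hn0 : m + 1 + s ≠ 0 := by omega
    by_contra hcon
    rw [mem_union, mem_biUnion, mem_biUnion] at hcon
    push Not at hcon
    apply hne
    refine app_eq hH hq χ Y (j + 3) (m + 1 + s) hn0 ?_ ?_
    · intro p
      by_cases hpp : p.Prime
      · have h1 : 2 ^ (m + 1 + s).factorization p ≤ m + 1 + s := by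
          refine (Nat.pow_le_pow_left hpp.two_le _).trans ?_
          exact Nat.le_of_dvd (Nat.pos_of_ne_zero hn0) (Nat.ordProj_dvd _ _)
        have h2 : 2 ^ (m + 1 + s).factorization p < 2 ^ (j + 2) := lt_of_le_of_lt h1 hnlt
        have h3 := (Nat.pow_lt_pow_iff_right (by norm_num : 1 < 2)).1 h2
        omega
      · rw [Nat.factorization_eq_zero_of_not_prime _ hpp]
        omega
    · intro p hpp hYp hpn
      have hple : p ≤ 2 ^ (j + 2) := (Nat.le_of_dvd (Nat.pos_of_ne_zero hn0) hpn).trans hnlt.le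
      constructor
      · by_contra hχ
        have h1 := hcon.1 p (by
          rw [hX1, mem_filter, mem_Icc]
          exact ⟨⟨hpp.pos, hple⟩, ⟨hpp, hχ⟩, hYp⟩)
        exact h1 (mem_filter.2 ⟨hmI, hpn⟩)
      · intro h2
        have h1 := hcon.2 p (by
          rw [hX2, mem_filter, mem_Icc]
          exact ⟨⟨hpp.pos, hple⟩, hpp, hYp⟩)
        exact h1 (mem_filter.2 ⟨hmI, h2⟩)
  have hc1 : (((X1.biUnion fun p => I.filter (fun m => p ∣ m + 1 + s)).card : ℕ) : ℝ) ≤
      ∑ p ∈ X1, 9 * 2 ^ j * (1 / (p : ℝ)) := by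
    have h1 : (((X1.biUnion fun p => I.filter (fun m => p ∣ m + 1 + s)).card : ℕ) : ℝ) ≤
        ∑ p ∈ X1, (((I.filter (fun m => p ∣ m + 1 + s)).card : ℕ) : ℝ) := by
      exact_mod_cast card_biUnion_le
    refine h1.trans (sum_le_sum fun p hp => ?_)
    rw [hX1, mem_filter] at hp
    rw [hI]
    exact cnt j s p hp.2.1.1.pos hs
  have hc2 : (((X2.biUnion fun p => I.filter (fun m => p ^ 2 ∣ m + 1 + s)).card : ℕ) : ℝ) ≤
      ∑ p ∈ X2, 9 * 2 ^ j * (1 / (p : ℝ) ^ 2) := by
    have h1 : (((X2.biUnion fun p => I.filter (fun m => p ^ 2 ∣ m + 1 + s)).card : ℕ) : ℝ) ≤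
        ∑ p ∈ X2, (((I.filter (fun m => p ^ 2 ∣ m + 1 + s)).card : ℕ) : ℝ) := by
      exact_mod_cast card_biUnion_le
    refine h1.trans (sum_le_sum fun p hp => ?_)
    rw [hX2, mem_filter] at hp
    rw [hI]
    have h2 := cnt j s (p ^ 2) (Nat.pos_of_ne_zero (pow_ne_zero _ hp.2.1.ne_zero)) hs
    push_cast at h2
    exact h2
  have hc3 : ∑ p ∈ X2, (1:ℝ) / (p : ℝ) ^ 2 ≤ 1 / Y := sum_inv_sq X2 Y hY (fun p hp => by
    rw [hX2, mem_filter] at hp
    exact hp.2.2)
  have hc0 := (card_le_card hsub).trans (card_union_le _ _)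
  have hc0' : ((I.filter (fun m => H (m + 1 + s) ≠
      app Y (SP H Y (j + 3)) (per q ((range q).filter (fun a => χ (a : ZMod q) = 1))
      ((range q).filter (fun a => χ (a : ZMod q) = -1))) (m + 1 + s))).card : ℝ) ≤
      (((X1.biUnion fun p => I.filter (fun m => p ∣ m + 1 + s)).card : ℕ) : ℝ) +
      (((X2.biUnion fun p => I.filter (fun m => p ^ 2 ∣ m + 1 + s)).card : ℕ) : ℝ) := by
    exact_mod_cast hc0
  rw [← mul_sum] at hc1 hc2
  have hc4 := mul_le_mul_of_nonneg_left hc3 (by positivity : (0:ℝ) ≤ 9 * 2 ^ j)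
  unfold err
  rw [mul_add, ← hX1]
  linarith

open Classical in
/-- the errors are small on average -/
theorem err_avg {H : ℕ → ℝ} {q : ℕ} (χ : DirichletCharacter ℂ q) (F : ℕ) (hF : 1 ≤ F)
    (hlim : Tendsto (fun X : ℕ => (∑ p ∈ (Icc 1 X).filter (fun p => p.Prime ∧
      (H p : ℂ) ≠ χ (p : ZMod q)), Real.log p / p) / Real.log X) atTop (nhds 0)) :
    Tendsto (fun J : ℕ => (∑ j ∈ range J, err H χ (2 ^ (j / F)) j) / (J : ℝ)) atTop (nhds 0) := by
  obtain ⟨X, hX⟩ : ∃ X : ℕ → ℝ, X = fun x => ∑ p ∈ (Icc 1 x).filter (fun p => p.Prime ∧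
      (H p : ℂ) ≠ χ (p : ZMod q)), Real.log p / p := ⟨_, rfl⟩
  have hlim' : Tendsto (fun x : ℕ => X x / Real.log x) atTop (nhds 0) := by
    rw [hX]; exact hlim
  have hX0 : ∀ x, 0 ≤ X x := by
    intro x
    rw [hX]
    exact sum_nonneg fun p _ => div_nonneg (Real.log_natCast_nonneg p) (Nat.cast_nonneg _)
  have hlog2 : 0 < Real.log 2 := Real.log_pos (by norm_num)
  -- the first part
  have h1 : ∀ J : ℕ, ∑ j ∈ range J, ∑ p ∈ (Icc 1 (2 ^ (j + 2))).filter
      (fun p => (p.Prime ∧ (H p : ℂ) ≠ χ (p : ZMod q)) ∧ 2 ^ (j / F) < p), (1 : ℝ) / p ≤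
      2 * F / Real.log 2 * X (2 ^ (J + 1)) := by
    intro J
    have h2 : ∀ j ∈ range J, ∑ p ∈ (Icc 1 (2 ^ (j + 2))).filter
        (fun p => (p.Prime ∧ (H p : ℂ) ≠ χ (p : ZMod q)) ∧ 2 ^ (j / F) < p), (1 : ℝ) / p ≤
        ∑ p ∈ (Icc 1 (2 ^ (J + 1))).filter (fun p => p.Prime ∧ (H p : ℂ) ≠ χ (p : ZMod q)),
          if 2 ^ (j / F) < p then (1 : ℝ) / p else 0 := by
      intro j hj
      rw [mem_range] at hj
      rw [← sum_filter, filter_filter]
      refine sum_le_sum_of_subset_of_nonneg (fun p hp => ?_) fun _ _ _ => by positivity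
      rw [mem_filter, mem_Icc] at hp ⊢
      refine ⟨⟨hp.1.1, hp.1.2.trans (Nat.pow_le_pow_right (by norm_num) (by omega))⟩, hp.2⟩
    refine (sum_le_sum h2).trans ?_
    rw [sum_comm, hX]
    simp only
    rw [mul_sum]
    refine sum_le_sum fun p hp => ?_
    rw [mem_filter, mem_Icc] at hp
    have hp2 := hp.2.1.two_le
    have hp0 : (0:ℝ) < p := by exact_mod_cast hp.2.1.pos
    rw [← sum_filter, sum_const, nsmul_eq_mul]
    have h3 : (((range J).filter (fun j => 2 ^ (j / F) < p)).card : ℝ) ≤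
        F * (Nat.log 2 p + 1) := by
      have h4 : (range J).filter (fun j => 2 ^ (j / F) < p) ⊆ range (F * (Nat.log 2 p + 1)) := by
        intro j hj
        rw [mem_filter] at hj
        rw [mem_range]
        have h5 : j / F < Nat.log 2 p + 1 := by
          have h6 : p < 2 ^ (Nat.log 2 p + 1) := Nat.lt_pow_succ_log_self (by norm_num) p
          exact (Nat.pow_lt_pow_iff_right (by norm_num : 1 < 2)).1 (hj.2.trans h6)
        rw [Nat.div_lt_iff_lt_mul hF] at h5
        rw [mul_comm]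
        exact h5
      have h7 := card_le_card h4
      rw [card_range] at h7
      exact_mod_cast h7
    have h8 : ((Nat.log 2 p : ℕ) : ℝ) * Real.log 2 ≤ Real.log p := by
      have h9 : 2 ^ Nat.log 2 p ≤ p := Nat.pow_log_le_self 2 (by omega)
      have h10 : Real.log ((2:ℝ) ^ Nat.log 2 p) ≤ Real.log p :=
        Real.log_le_log (by positivity) (by exact_mod_cast h9)
      rwa [Real.log_pow] at h10
    have h11 : Real.log 2 ≤ Real.log p :=
      Real.log_le_log (by norm_num) (by exact_mod_cast hp2)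
    have h12 : ((Nat.log 2 p : ℕ) : ℝ) + 1 ≤ 2 / Real.log 2 * Real.log p := by
      rw [div_mul_eq_mul_div, le_div_iff₀ hlog2]
      linarith
    have h13 : (F:ℝ) * (Nat.log 2 p + 1) ≤ F * (2 / Real.log 2 * Real.log p) :=
      mul_le_mul_of_nonneg_left h12 (Nat.cast_nonneg _)
    have h14 := mul_le_mul_of_nonneg_right (h3.trans h13) (by positivity : (0:ℝ) ≤ 1 / p)
    refine h14.trans (le_of_eq ?_)
    ring
  -- limits
  have l1 : Tendsto (fun J : ℕ => 2 * F / Real.log 2 * (X (2 ^ (J + 1)) /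
      Real.log ((2 ^ (J + 1) : ℕ) : ℝ)) * (2 * Real.log 2)) atTop
      (nhds (2 * F / Real.log 2 * 0 * (2 * Real.log 2))) := by
    refine Tendsto.mul_const _ (Tendsto.const_mul _ ?_)
    exact hlim'.comp ((tendsto_pow_atTop_atTop_of_one_lt (by norm_num : (1:ℕ) < 2)).comp
      (tendsto_add_atTop_nat 1))
  have l2 : Tendsto (fun J : ℕ => (∑ j ∈ range J, (1:ℝ) / ((2 ^ (j / F) : ℕ) : ℝ)) / (J : ℝ))
      atTop (nhds 0) := by
    have c1 : Tendsto (fun j : ℕ => (1:ℝ) / ((2 ^ (j / F) : ℕ) : ℝ)) atTop (nhds 0) := by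
      have t0 : Tendsto (fun j : ℕ => 2 ^ (j / F)) atTop atTop :=
        (tendsto_pow_atTop_atTop_of_one_lt (by norm_num : (1:ℕ) < 2)).comp
          (Nat.tendsto_div_const_atTop (by omega))
      exact tendsto_one_div_atTop_nhds_zero_nat.comp t0
    have c2 := c1.cesaro
    refine c2.congr fun J => ?_
    rw [div_eq_inv_mul]
  rw [mul_zero, zero_mul] at l1
  have l3 := l1.add l2
  rw [add_zero] at l3
  refine squeeze_zero' (Eventually.of_forall fun J => div_nonneg
    (sum_nonneg fun j _ => err_nonneg H χ _ j) (Nat.cast_nonneg _)) ?_ l3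
  filter_upwards [eventually_ge_atTop 1] with J hJ
  have hJ0 : (0:ℝ) < J := by exact_mod_cast hJ
  have hJ1 : (1:ℝ) ≤ J := by exact_mod_cast hJ
  unfold err
  rw [sum_add_distrib, add_div]
  have h20 : (∑ j ∈ range J, ∑ p ∈ (Icc 1 (2 ^ (j + 2))).filter
      (fun p => (p.Prime ∧ (H p : ℂ) ≠ χ (p : ZMod q)) ∧ 2 ^ (j / F) < p), (1 : ℝ) / p) / J ≤
      2 * F / Real.log 2 * (X (2 ^ (J + 1)) / Real.log ((2 ^ (J + 1) : ℕ) : ℝ)) *
        (2 * Real.log 2) := by
    rw [div_le_iff₀ hJ0]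
    refine (h1 J).trans ?_
    have hlogJ : Real.log ((2 ^ (J + 1) : ℕ) : ℝ) = (J + 1) * Real.log 2 := by
      push_cast
      rw [Real.log_pow]
      push_cast
      ring
    rw [hlogJ]
    have h21 : X (2 ^ (J + 1)) ≤ X (2 ^ (J + 1)) / ((J + 1) * Real.log 2) *
        (2 * Real.log 2) * J := by
      rw [div_mul_eq_mul_div, div_mul_eq_mul_div, le_div_iff₀ (by positivity)]
      have h22 : ((J:ℝ) + 1) * Real.log 2 ≤ (2 * Real.log 2) * J := by
        nlinarith
      have h23 := mul_le_mul_of_nonneg_left h22 (hX0 (2 ^ (J + 1)))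
      linarith
    have h24 : (0:ℝ) ≤ 2 * F / Real.log 2 := by positivity
    have h25 := mul_le_mul_of_nonneg_left h21 h24
    refine h25.trans (le_of_eq ?_)
    ring
  push_cast at h20 ⊢
  linarith

end Pool.Agent.U463.RB
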