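import Mathlib

/-!
# The bounded difference inequality for products of two-point distributions
-/

set_option autoImplicit false

namespace Pool.Agent.U463.RB

open Finset

theorem two_pt (lam a u v c : ℝ) (ha0 : 0 ≤ a) (ha1 : a ≤ 1) (h : |v - u| ≤ c) :
    (1 - a) * Real.exp (lam * u) + a * Real.exp (lam * v) ≤
      Real.exp (lam * ((1 - a) * u + a * v)) * Real.exp (lam ^ 2 * c ^ 2 / 2) := by
  have hc0 : 0 ≤ c := (abs_nonneg _).trans h
  rcases hc0.eq_or_lt with hc | hc
  · have h1 : v = u := by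
      rw [← hc] at h
      have := abs_nonpos_iff.1 h
      linarith
    rw [h1, ← hc]
    have e : (1 - a) * u + a * u = u := by ring
    rw [e]
    simp only [ne_eq, OfNat.ofNat_ne_zero, not_false_eq_true, zero_pow, mul_zero, zero_div,
      Real.exp_zero, mul_one]
    linarith [show (1 - a) * Real.exp (lam * u) + a * Real.exp (lam * u) = Real.exp (lam * u) by ring]
  obtain ⟨μ, hμ⟩ : ∃ μ, μ = (1 - a) * u + a * v := ⟨_, rfl⟩
  -- convexity
  have hcv : ∀ x : ℝ, |x| ≤ c → Real.exp (lam * x) ≤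
      Real.cosh (lam * c) + x / c * Real.sinh (lam * c) := by
    intro x hx
    have hx' := abs_le.1 hx
    have h1 := convexOn_exp.2 (Set.mem_univ (lam * c)) (Set.mem_univ (-(lam * c)))
      (show 0 ≤ (c + x) / (2 * c) by apply div_nonneg <;> linarith)
      (show 0 ≤ (c - x) / (2 * c) by apply div_nonneg <;> linarith)
      (by field_simp; ring)
    simp only [smul_eq_mul] at h1
    have e1 : (c + x) / (2 * c) * (lam * c) + (c - x) / (2 * c) * -(lam * c) = lam * x := by
      field_simp; ring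
    rw [e1] at h1
    refine h1.trans (le_of_eq ?_)
    rw [Real.cosh_eq, Real.sinh_eq]
    field_simp
    ring
  have hu : |u - μ| ≤ c := by
    have e : u - μ = a * (u - v) := by rw [hμ]; ring
    rw [e, abs_mul, abs_of_nonneg ha0, abs_sub_comm]
    nlinarith [abs_nonneg (v - u)]
  have hv : |v - μ| ≤ c := by
    have e : v - μ = (1 - a) * (v - u) := by rw [hμ]; ring
    rw [e, abs_mul, abs_of_nonneg (by linarith : 0 ≤ 1 - a)]
    nlinarith [abs_nonneg (v - u)]
  have h1 := mul_le_mul_of_nonneg_left (hcv _ hu) (by linarith : 0 ≤ 1 - a)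
  have h2 := mul_le_mul_of_nonneg_left (hcv _ hv) ha0
  have h3 : (1 - a) * Real.exp (lam * (u - μ)) + a * Real.exp (lam * (v - μ)) ≤
      Real.exp (lam ^ 2 * c ^ 2 / 2) := by
    have h4 : Real.cosh (lam * c) ≤ Real.exp (lam ^ 2 * c ^ 2 / 2) := by
      refine (Real.cosh_le_exp_half_sq _).trans (Real.exp_le_exp.2 (le_of_eq ?_))
      ring
    have e : (1 - a) * (Real.cosh (lam * c) + (u - μ) / c * Real.sinh (lam * c)) +
        a * (Real.cosh (lam * c) + (v - μ) / c * Real.sinh (lam * c)) = Real.cosh (lam * c) := by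
      rw [hμ]; ring
    linarith
  have e1 : Real.exp (lam * u) = Real.exp (lam * μ) * Real.exp (lam * (u - μ)) := by
    rw [← Real.exp_add]; congr 1; ring
  have e2 : Real.exp (lam * v) = Real.exp (lam * μ) * Real.exp (lam * (v - μ)) := by
    rw [← Real.exp_add]; congr 1; ring
  rw [e1, e2, ← hμ]
  have h5 := mul_le_mul_of_nonneg_left h3 (Real.exp_pos (lam * μ)).le
  linarith

/-- the weight of a subset `S` of `Q`: each `q` is in the random set with probability `a q` -/
noncomputable def W (a : ℕ → ℝ) (Q S : Finset ℕ) : ℝ := (∏ q ∈ S, a q) * ∏ q ∈ Q \ S, (1 - a q)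

theorem W_nonneg {a : ℕ → ℝ} {Q S : Finset ℕ} (ha0 : ∀ q ∈ Q, 0 ≤ a q) (ha1 : ∀ q ∈ Q, a q ≤ 1)
    (hS : S ⊆ Q) : 0 ≤ W a Q S :=
  mul_nonneg (prod_nonneg fun q hq => ha0 q (hS hq))
    (prod_nonneg fun q hq => by have := ha1 q (mem_sdiff.1 hq).1; linarith)

theorem sum_W (a : ℕ → ℝ) (q : ℕ) (s : Finset ℕ) (hq : q ∉ s) (F : Finset ℕ → ℝ) :
    ∑ S ∈ (insert q s).powerset, W a (insert q s) S * F S =
      ∑ S ∈ s.powerset, W a s S * ((1 - a q) * F S + a q * F (insert q S)) := by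
  classical
  rw [sum_powerset_insert hq, ← sum_add_distrib]
  refine sum_congr rfl fun S hS => ?_
  have hSs := mem_powerset.1 hS
  have hqS : q ∉ S := fun h => hq (hSs h)
  have e1 : insert q s \ S = insert q (s \ S) := insert_sdiff_of_notMem s hqS
  have e2 : insert q s \ insert q S = s \ S := by
    ext x
    simp only [mem_sdiff, mem_insert]
    constructor
    · rintro ⟨h1, h2⟩
      push Not at h2
      exact ⟨h1.resolve_left h2.1, h2.2⟩
    · rintro ⟨h1, h2⟩
      refine ⟨Or.inr h1, ?_⟩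
      rintro (h3 | h3)
      · exact hq (h3 ▸ h1)
      · exact h2 h3
  unfold W
  rw [e1, e2, prod_insert (by rw [mem_sdiff]; exact fun h => hq h.1), prod_insert hqS]
  ring

theorem sum_W_one (a : ℕ → ℝ) (Q : Finset ℕ) : ∑ S ∈ Q.powerset, W a Q S = 1 := by
  classical
  induction Q using Finset.induction_on with
  | empty => simp [W]
  | insert q s hq ih =>
    have h := sum_W a q s hq (fun _ => 1)
    simp only [mul_one] at h
    rw [h]
    refine Eq.trans (sum_congr rfl fun S _ => ?_) ih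
    ring

/-- exponential moments -/
theorem expmom (a : ℕ → ℝ) (lam : ℝ) (c : ℕ → ℝ) (Q : Finset ℕ) : (∀ q ∈ Q, 0 ≤ a q) →
    (∀ q ∈ Q, a q ≤ 1) → ∀ (T : Finset ℕ → ℝ),
    (∀ q ∈ Q, ∀ S ⊆ Q, q ∉ S → |T (insert q S) - T S| ≤ c q) →
    ∑ S ∈ Q.powerset, W a Q S * Real.exp (lam * T S) ≤
      Real.exp (lam * (∑ S ∈ Q.powerset, W a Q S * T S) +
        lam ^ 2 * (∑ q ∈ Q, c q ^ 2) / 2) := by
  classical
  induction Q using Finset.induction_on with
  | empty =>
    intro _ _ T _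
    simp [W]
  | insert b s hb ih =>
    intro ha0 ha1 T hT
    have hb0 := ha0 b (mem_insert_self _ _)
    have hb1 := ha1 b (mem_insert_self _ _)
    have hs0 : ∀ q ∈ s, 0 ≤ a q := fun q hq => ha0 q (mem_insert_of_mem hq)
    have hs1 : ∀ q ∈ s, a q ≤ 1 := fun q hq => ha1 q (mem_insert_of_mem hq)
    obtain ⟨T', hT'⟩ : ∃ T' : Finset ℕ → ℝ, ∀ S, T' S = (1 - a b) * T S + a b * T (insert b S) :=
      ⟨_, fun S => rfl⟩
    have h1 := ih hs0 hs1 T' (fun q hq S hS hqS => by
      have hqa : q ≠ b := fun h => hb (h ▸ hq)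
      have h2 := hT q (mem_insert_of_mem hq) S (hS.trans (subset_insert _ _)) hqS
      have h3 := hT q (mem_insert_of_mem hq) (insert b S) (insert_subset_insert b hS)
        (fun h => by
          rcases mem_insert.1 h with h | h
          · exact hqa h
          · exact hqS h)
      rw [hT', hT', insert_comm b q S]
      have e : (1 - a b) * T (insert q S) + a b * T (insert q (insert b S)) -
          ((1 - a b) * T S + a b * T (insert b S)) =
          (1 - a b) * (T (insert q S) - T S) + a b * (T (insert q (insert b S)) - T (insert b S)) := by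
        ring
      rw [e]
      refine (abs_add_le _ _).trans ?_
      rw [abs_mul, abs_mul, abs_of_nonneg hb0, abs_of_nonneg (by linarith : 0 ≤ 1 - a b)]
      nlinarith)
    rw [sum_W a b s hb, sum_W a b s hb, sum_insert hb]
    have h2 : ∑ S ∈ s.powerset, W a s S * ((1 - a b) * Real.exp (lam * T S) +
        a b * Real.exp (lam * T (insert b S))) ≤
        ∑ S ∈ s.powerset, W a s S * (Real.exp (lam * T' S) * Real.exp (lam ^ 2 * c b ^ 2 / 2)) := by
      refine sum_le_sum fun S hS => ?_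
      have hSs := mem_powerset.1 hS
      apply mul_le_mul_of_nonneg_left _ (W_nonneg hs0 hs1 hSs)
      rw [hT']
      exact two_pt lam _ _ _ _ hb0 hb1 (hT b (mem_insert_self _ _) S (hSs.trans (subset_insert _ _))
        (fun h => hb (hSs h)))
    refine h2.trans ?_
    have h3 : ∑ S ∈ s.powerset, W a s S * ((1 - a b) * T S + a b * T (insert b S)) =
        ∑ S ∈ s.powerset, W a s S * T' S := sum_congr rfl fun S _ => by rw [hT']
    rw [h3]
    have h4 : Real.exp (lam * (∑ S ∈ s.powerset, W a s S * T' S) +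
        lam ^ 2 * (c b ^ 2 + ∑ q ∈ s, c q ^ 2) / 2) =
        Real.exp (lam * (∑ S ∈ s.powerset, W a s S * T' S) +
        lam ^ 2 * (∑ q ∈ s, c q ^ 2) / 2) * Real.exp (lam ^ 2 * c b ^ 2 / 2) := by
      rw [← Real.exp_add]; congr 1; ring
    rw [h4]
    have h5 : ∑ S ∈ s.powerset, W a s S * (Real.exp (lam * T' S) * Real.exp (lam ^ 2 * c b ^ 2 / 2)) =
        (∑ S ∈ s.powerset, W a s S * Real.exp (lam * T' S)) * Real.exp (lam ^ 2 * c b ^ 2 / 2) := by
      rw [sum_mul]
      exact sum_congr rfl fun S _ => by ring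
    rw [h5]
    exact mul_le_mul_of_nonneg_right h1 (Real.exp_pos _).le

open Classical in
/-- one-sided tail -/
theorem tail1 (a : ℕ → ℝ) (c : ℕ → ℝ) (Q : Finset ℕ) (ha0 : ∀ q ∈ Q, 0 ≤ a q)
    (ha1 : ∀ q ∈ Q, a q ≤ 1) (T : Finset ℕ → ℝ)
    (hT : ∀ q ∈ Q, ∀ S ⊆ Q, q ∉ S → |T (insert q S) - T S| ≤ c q) (V t : ℝ) (hV : 0 < V)
    (ht : 0 < t) (hc : ∑ q ∈ Q, c q ^ 2 ≤ V) :
    ∑ S ∈ Q.powerset.filter (fun S => t < T S - ∑ S ∈ Q.powerset, W a Q S * T S), W a Q S ≤
      Real.exp (-(t ^ 2 / (2 * V))) := by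
  obtain ⟨μ, hμ⟩ : ∃ μ, μ = ∑ S ∈ Q.powerset, W a Q S * T S := ⟨_, rfl⟩
  rw [← hμ]
  obtain ⟨lam, hlam⟩ : ∃ lam, lam = t / V := ⟨_, rfl⟩
  have hlam0 : 0 < lam := by rw [hlam]; positivity
  have h1 := expmom a lam c Q ha0 ha1 T hT
  rw [← hμ] at h1
  have h2 : (∑ S ∈ Q.powerset.filter (fun S => t < T S - μ), W a Q S) * Real.exp (lam * (μ + t)) ≤
      ∑ S ∈ Q.powerset, W a Q S * Real.exp (lam * T S) := by
    rw [sum_mul]
    refine (sum_le_sum fun S hS => ?_).trans
      (sum_le_sum_of_subset_of_nonneg (filter_subset _ _) fun S hS _ =>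
        mul_nonneg (W_nonneg ha0 ha1 (mem_powerset.1 hS)) (Real.exp_pos _).le)
    rw [mem_filter] at hS
    apply mul_le_mul_of_nonneg_left _ (W_nonneg ha0 ha1 (mem_powerset.1 hS.1))
    apply Real.exp_le_exp.2
    have : μ + t ≤ T S := by linarith [hS.2]
    exact mul_le_mul_of_nonneg_left this hlam0.le
  have h3 := h2.trans h1
  have h4 : Real.exp (lam * μ + lam ^ 2 * (∑ q ∈ Q, c q ^ 2) / 2) ≤
      Real.exp (-(t ^ 2 / (2 * V))) * Real.exp (lam * (μ + t)) := by
    rw [← Real.exp_add]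
    apply Real.exp_le_exp.2
    have h5 : lam ^ 2 * (∑ q ∈ Q, c q ^ 2) / 2 ≤ lam ^ 2 * V / 2 := by
      have := mul_le_mul_of_nonneg_left hc (sq_nonneg lam)
      linarith
    have h6 : lam ^ 2 * V / 2 = -(t ^ 2 / (2 * V)) + lam * t := by
      rw [hlam]; field_simp; ring
    have h7 : lam * (μ + t) = lam * μ + lam * t := by ring
    linarith
  exact le_of_mul_le_mul_right (h3.trans h4) (Real.exp_pos _)

open Classical in
/-- **bounded differences** -/
theorem tail (a : ℕ → ℝ) (c : ℕ → ℝ) (Q : Finset ℕ) (ha0 : ∀ q ∈ Q, 0 ≤ a q)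
    (ha1 : ∀ q ∈ Q, a q ≤ 1) (T : Finset ℕ → ℝ)
    (hT : ∀ q ∈ Q, ∀ S ⊆ Q, q ∉ S → |T (insert q S) - T S| ≤ c q) (V t : ℝ) (hV : 0 < V)
    (ht : 0 < t) (hc : ∑ q ∈ Q, c q ^ 2 ≤ V)
    (hm : |∑ S ∈ Q.powerset, W a Q S * T S| ≤ t) :
    ∑ S ∈ Q.powerset.filter (fun S => 2 * t < |T S|), W a Q S ≤
      2 * Real.exp (-(t ^ 2 / (2 * V))) := by
  have h1 := tail1 a c Q ha0 ha1 T hT V t hV ht hc
  have h2 := tail1 a c Q ha0 ha1 (fun S => - T S) (fun q hq S hS hqS => by
    have := hT q hq S hS hqS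
    rw [show - T (insert q S) - - T S = -(T (insert q S) - T S) by ring, abs_neg]
    exact this) V t hV ht hc
  have hsub : Q.powerset.filter (fun S => 2 * t < |T S|) ⊆
      Q.powerset.filter (fun S => t < T S - ∑ S ∈ Q.powerset, W a Q S * T S) ∪
      Q.powerset.filter (fun S => t < - T S - ∑ S ∈ Q.powerset, W a Q S * - T S) := by
    intro S hS
    rw [mem_filter] at hS
    rw [mem_union, mem_filter, mem_filter]
    have h3 := abs_le.1 hm
    have e : ∑ S ∈ Q.powerset, W a Q S * - T S = -∑ S ∈ Q.powerset, W a Q S * T S := by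
      rw [← sum_neg_distrib]
      exact sum_congr rfl fun S _ => by ring
    rcases lt_abs.1 hS.2 with h | h
    · left
      exact ⟨hS.1, by linarith⟩
    · right
      refine ⟨hS.1, ?_⟩
      rw [e]
      linarith
  have hn : ∀ S ∈ Q.powerset.filter (fun S => t < T S - ∑ S ∈ Q.powerset, W a Q S * T S) ∪
      Q.powerset.filter (fun S => t < - T S - ∑ S ∈ Q.powerset, W a Q S * - T S), 0 ≤ W a Q S := by
    intro S hS
    rw [mem_union, mem_filter, mem_filter] at hS
    rcases hS with h | h <;> exact W_nonneg ha0 ha1 (mem_powerset.1 h.1)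
  have h4 := sum_le_sum_of_subset_of_nonneg hsub (fun S hS _ => hn S hS) (f := W a Q)
  have h5 := sum_union_inter (s₁ := Q.powerset.filter (fun S => t < T S - ∑ S ∈ Q.powerset, W a Q S * T S))
    (s₂ := Q.powerset.filter (fun S => t < - T S - ∑ S ∈ Q.powerset, W a Q S * - T S)) (f := W a Q)
  have h6 : 0 ≤ ∑ S ∈ (Q.powerset.filter (fun S => t < T S - ∑ S ∈ Q.powerset, W a Q S * T S)) ∩
      (Q.powerset.filter (fun S => t < - T S - ∑ S ∈ Q.powerset, W a Q S * - T S)), W a Q S :=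
    sum_nonneg fun S hS => W_nonneg ha0 ha1 (mem_powerset.1 (mem_filter.1 (mem_inter.1 hS).1).1)
  linarith

end Pool.Agent.U463.RB
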