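import Pool.Agent.U463.RB.TK

/-!
# One scale: the weight of the bad sets of primes
-/

set_option autoImplicit false

namespace Pool.Agent.U463.RB

open Finset Polynomial Pool.Agent.H220M
open Pool.Agent.U463.RS (Ev dvd_count sum_inv_sq)

/-- the exponent of `q` in the product of the `m + 1 + h`, `h ∈ H` -/
def vv (H : Finset ℕ) (q m : ℕ) : ℕ := ∑ h ∈ H, (m + 1 + h).factorization q

theorem ev_iff (h q m : ℕ) : Ev (lf h) q m ↔ (q ∣ m + 1 + h ∧ ¬ q ^ 2 ∣ m + 1 + h) := by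
  unfold Ev
  rw [lf_eval]
  norm_cast

theorem vv_one (H : Finset ℕ) (h0 B : ℕ) (hh0 : h0 ∈ H) (hB : ∀ h ∈ H, h ≤ B) (q m : ℕ)
    (hq : q.Prime) (hqB : B < q) (he : Ev (lf h0) q m) : vv H q m = 1 := by
  rw [ev_iff] at he
  unfold vv
  rw [sum_eq_single_of_mem h0 hh0]
  · have hn : m + 1 + h0 ≠ 0 := by omega
    have a1 : q ^ 1 ∣ m + 1 + h0 := by rw [pow_one]; exact he.1
    have a2 := he.2
    rw [hq.pow_dvd_iff_le_factorization hn] at a1 a2
    omega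
  · intro h hh hne
    apply Nat.factorization_eq_zero_of_not_dvd
    intro hd
    have b1 := hB h hh
    have b2 := hB h0 hh0
    rcases lt_or_gt_of_ne hne with hlt | hgt
    · have h8 := Nat.dvd_sub he.1 hd
      have h9 : m + 1 + h0 - (m + 1 + h) = h0 - h := by omega
      rw [h9] at h8
      have := Nat.le_of_dvd (by omega) h8
      omega
    · have h8 := Nat.dvd_sub hd he.1
      have h9 : m + 1 + h - (m + 1 + h0) = h - h0 := by omega
      rw [h9] at h8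
      have := Nat.le_of_dvd (by omega) h8
      omega

theorem sum_W_prod (a b : ℕ → ℝ) (Q : Finset ℕ) :
    ∑ S ∈ Q.powerset, W a Q S * ∏ q ∈ S, b q = ∏ q ∈ Q, ((1 - a q) + a q * b q) := by
  classical
  have h := prod_add (fun q => a q * b q) (fun q => 1 - a q) Q
  have e : ∏ q ∈ Q, ((1 - a q) + a q * b q) = ∏ q ∈ Q, (a q * b q + (1 - a q)) :=
    prod_congr rfl fun q _ => by ring
  rw [e, h]
  refine sum_congr rfl fun S _ => ?_
  unfold W
  rw [prod_mul_distrib]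
  ring

open Classical in
/-- **one scale** -/
theorem bad_w (H : Finset ℕ) (h0 B : ℕ) (hh0 : h0 ∈ H) (hB : ∀ h ∈ H, h ≤ B) (η : ℝ)
    (Q : Finset ℕ) (y z x : ℕ) (hη : 0 < η) (hy : 1 ≤ y)
    (hQ : ∀ q ∈ Q, q.Prime ∧ y < q ∧ B < q ∧ q ≤ z) (hz : z ^ 4 ≤ x)
    (a : ℕ → ℝ) (ha0 : ∀ q ∈ Q, 0 ≤ a q) (ha1 : ∀ q ∈ Q, a q ≤ 1)
    (hS : 2 + 160 / η ≤ ∑ q ∈ Q, (1 - |1 - 2 * a q|) / q)
    (G : ℕ → ℝ) (hG : ∀ m, |G m| ≤ 1) :
    ∑ S ∈ Q.powerset.filter (fun S => η * x < |∑ m ∈ range x, G m *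
      ∏ q ∈ S, (-1 : ℝ) ^ (vv H q m)|), W a Q S ≤
      2 * Real.exp (-(η ^ 2 * y / (128 * (H.card : ℝ) ^ 2))) := by
  obtain ⟨k, hk⟩ : ∃ k : ℝ, k = H.card := ⟨_, rfl⟩
  obtain ⟨S1, hS1⟩ : ∃ S1, S1 = ∑ q ∈ Q, (1 - |1 - 2 * a q|) / q := ⟨_, rfl⟩
  rw [← hS1] at hS
  rw [← hk]
  have hk1 : 1 ≤ k := by
    rw [hk]
    have : 1 ≤ H.card := card_pos.2 ⟨h0, hh0⟩
    exact_mod_cast this
  have hpos : 0 < 160 / η := by positivity
  have hS2 : 2 ≤ S1 := by linarith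
  have hne : Q.Nonempty := by
    rw [nonempty_iff_ne_empty]
    rintro rfl
    rw [sum_empty] at hS1
    linarith
  obtain ⟨q₀, hq₀⟩ := hne
  have hz1 : 1 ≤ z := (hQ q₀ hq₀).1.one_lt.le.trans (hQ q₀ hq₀).2.2.2
  have hx1 : 1 ≤ x := (Nat.one_le_pow _ _ hz1).trans hz
  have hx0 : (0:ℝ) < x := by exact_mod_cast hx1
  have hy0 : (0:ℝ) < y := by exact_mod_cast hy
  have hqz : ∀ q ∈ Q, q ^ 2 ≤ x := by
    intro q hq
    refine le_trans ?_ hz
    calc q ^ 2 ≤ z ^ 2 := Nat.pow_le_pow_left (hQ q hq).2.2.2 2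
      _ ≤ z ^ 4 := Nat.pow_le_pow_right hz1 (by norm_num)
  obtain ⟨T, hT⟩ : ∃ T : Finset ℕ → ℝ, ∀ S, T S = ∑ m ∈ range x, G m *
    ∏ q ∈ S, (-1 : ℝ) ^ (vv H q m) := ⟨_, fun _ => rfl⟩
  simp only [← hT]
  have hprod : ∀ (S : Finset ℕ) (m : ℕ), |∏ q ∈ S, (-1 : ℝ) ^ (vv H q m)| = 1 := by
    intro S m
    rw [abs_prod]
    exact prod_eq_one fun q _ => by rw [abs_pow, abs_neg, abs_one, one_pow]
  -- differences
  have hdiff : ∀ q ∈ Q, ∀ S ⊆ Q, q ∉ S → |T (insert q S) - T S| ≤ 4 * x * k / q := by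
    intro q hq S _ hqS
    rw [hT, hT, ← sum_sub_distrib]
    refine (abs_sum_le_sum_abs _ _).trans ?_
    have h1 : ∀ m ∈ range x, |G m * ∏ q ∈ insert q S, (-1 : ℝ) ^ (vv H q m) -
        G m * ∏ q ∈ S, (-1 : ℝ) ^ (vv H q m)| ≤
        ∑ h ∈ H, if (q : ℤ) ∣ (lf h).eval ((m : ℤ) + 1) then (2:ℝ) else 0 := by
      intro m _
      rw [prod_insert hqS]
      have e : G m * ((-1 : ℝ) ^ (vv H q m) * ∏ q ∈ S, (-1 : ℝ) ^ (vv H q m)) -
          G m * ∏ q ∈ S, (-1 : ℝ) ^ (vv H q m) =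
          G m * (∏ q ∈ S, (-1 : ℝ) ^ (vv H q m)) * ((-1 : ℝ) ^ (vv H q m) - 1) := by ring
      rw [e, abs_mul, abs_mul, hprod, mul_one]
      have hnn : ∀ h ∈ H, 0 ≤ (if (q : ℤ) ∣ (lf h).eval ((m : ℤ) + 1) then (2:ℝ) else 0) :=
        fun h _ => by split_ifs <;> norm_num
      by_cases hex : ∃ h ∈ H, q ∣ m + 1 + h
      · obtain ⟨h, hh, hd⟩ := hex
        have h2 : |(-1 : ℝ) ^ (vv H q m) - 1| ≤ 2 := by
          rcases neg_one_pow_eq_or ℝ (vv H q m) with h3 | h3 <;> rw [h3] <;> norm_num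
        have h3 := mul_le_mul (hG m) h2 (abs_nonneg _) zero_le_one
        have h4 := single_le_sum hnn hh
        have h5 : (q : ℤ) ∣ (lf h).eval ((m : ℤ) + 1) := by
          rw [lf_eval]; exact_mod_cast hd
        rw [if_pos h5] at h4
        linarith
      · push Not at hex
        have h2 : vv H q m = 0 := by
          unfold vv
          exact sum_eq_zero fun h hh => Nat.factorization_eq_zero_of_not_dvd (hex h hh)
        rw [h2]
        simp only [pow_zero, sub_self, abs_zero, mul_zero]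
        exact sum_nonneg hnn
    refine (sum_le_sum h1).trans ?_
    rw [sum_comm]
    have h2 : ∀ h ∈ H, ∑ m ∈ range x, (if (q : ℤ) ∣ (lf h).eval ((m : ℤ) + 1) then (2:ℝ) else 0) ≤
        4 * x / q := by
      intro h _
      rw [← sum_filter, sum_const, nsmul_eq_mul]
      have h2 := dvd_count (lf h) q (hQ q hq).1 (lf_simple h q (hQ q hq).1) x (hqz q hq)
      rw [lf_deg] at h2
      have e : 4 * (x:ℝ) / q = 2 * x * ((1 : ℕ) : ℝ) / q * 2 := by push_cast; ring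
      rw [e]
      exact mul_le_mul_of_nonneg_right h2 (by norm_num)
    refine (sum_le_sum h2).trans (le_of_eq ?_)
    rw [sum_const, nsmul_eq_mul, ← hk]
    ring
  -- the variance proxy
  have hV : ∑ q ∈ Q, (4 * (x:ℝ) * k / q) ^ 2 ≤ 16 * (x:ℝ) ^ 2 * k ^ 2 / y := by
    have h1 := sum_inv_sq Q y hy (fun q hq => (hQ q hq).2.1)
    have e : ∀ q ∈ Q, (4 * (x:ℝ) * k / q) ^ 2 = 16 * (x:ℝ) ^ 2 * k ^ 2 * (1 / (q:ℝ) ^ 2) := by
      intro q _
      ring
    rw [sum_congr rfl e, ← mul_sum, div_eq_mul_one_div (16 * (x:ℝ) ^ 2 * k ^ 2)]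
    exact mul_le_mul_of_nonneg_left h1 (by positivity)
  -- the mean
  have hw0 : ∀ q ∈ Q, 0 ≤ 1 - |1 - 2 * a q| := by
    intro q hq
    have h1 := ha0 q hq
    have h2 := ha1 q hq
    have : |1 - 2 * a q| ≤ 1 := abs_le.2 ⟨by linarith, by linarith⟩
    linarith
  have hw1 : ∀ q ∈ Q, 1 - |1 - 2 * a q| ≤ 1 := by
    intro q _
    have := abs_nonneg (1 - 2 * a q)
    linarith
  have hmean : |∑ S ∈ Q.powerset, W a Q S * T S| ≤ η * x / 2 := by
    have e1 : ∑ S ∈ Q.powerset, W a Q S * T S = ∑ m ∈ range x, G m *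
        ∏ q ∈ Q, ((1 - a q) + a q * (-1 : ℝ) ^ (vv H q m)) := by
      have : ∀ S ∈ Q.powerset, W a Q S * T S = ∑ m ∈ range x, G m *
          (W a Q S * ∏ q ∈ S, (-1 : ℝ) ^ (vv H q m)) := by
        intro S _
        rw [hT, mul_sum]
        exact sum_congr rfl fun m _ => by ring
      rw [sum_congr rfl this, sum_comm]
      refine sum_congr rfl fun m _ => ?_
      rw [← mul_sum, sum_W_prod]
    rw [e1]
    refine (abs_sum_le_sum_abs _ _).trans ?_
    have h2 : ∀ m ∈ range x, |G m * ∏ q ∈ Q, ((1 - a q) + a q * (-1 : ℝ) ^ (vv H q m))| ≤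
        ∏ q ∈ Q, (if Ev (lf h0) q m then 1 - (1 - |1 - 2 * a q|) else 1) := by
      intro m _
      rw [abs_mul, abs_prod]
      have h3 : ∏ q ∈ Q, |(1 - a q) + a q * (-1 : ℝ) ^ (vv H q m)| ≤
          ∏ q ∈ Q, (if Ev (lf h0) q m then 1 - (1 - |1 - 2 * a q|) else 1) := by
        refine prod_le_prod (fun q _ => abs_nonneg _) fun q hq => ?_
        have h1 := ha0 q hq
        have h2 := ha1 q hq
        split_ifs with he
        · rw [vv_one H h0 B hh0 hB q m (hQ q hq).1 (hQ q hq).2.2.1 he]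
          have e : (1 - a q) + a q * (-1 : ℝ) ^ 1 = 1 - 2 * a q := by ring
          rw [e]
          linarith
        · rcases neg_one_pow_eq_or ℝ (vv H q m) with h3 | h3 <;> rw [h3]
          · rw [mul_one, sub_add_cancel, abs_one]
          · exact abs_le.2 ⟨by linarith, by linarith⟩
      calc |G m| * ∏ q ∈ Q, |(1 - a q) + a q * (-1 : ℝ) ^ (vv H q m)|
          ≤ 1 * ∏ q ∈ Q, |(1 - a q) + a q * (-1 : ℝ) ^ (vv H q m)| :=
            mul_le_mul_of_nonneg_right (hG m) (prod_nonneg fun q _ => abs_nonneg _)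
        _ ≤ _ := by rw [one_mul]; exact h3
    refine (sum_le_sum h2).trans ?_
    have h3 := few_w h0 Q z x (fun q => 1 - |1 - 2 * a q|) hw0 hw1
      (fun q hq => ⟨(hQ q hq).1, (hQ q hq).2.2.2⟩) hz (by rw [← hS1]; exact hS2)
    rw [← hS1] at h3
    refine h3.trans ?_
    have h4 : 80 / S1 ≤ η / 2 := by
      rw [div_le_div_iff₀ (by linarith) (by norm_num)]
      have h5 : 160 / η ≤ S1 := by linarith
      rw [div_le_iff₀ hη] at h5
      linarith
    calc (x:ℝ) * (80 / S1) ≤ x * (η / 2) := mul_le_mul_of_nonneg_left h4 hx0.le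
      _ = η * x / 2 := by ring
  have key := tail a (fun q => 4 * (x:ℝ) * k / q) Q ha0 ha1 T hdiff (16 * (x:ℝ) ^ 2 * k ^ 2 / y)
    (η * x / 2) (by positivity) (by positivity) hV hmean
  have e1 : 2 * (η * (x:ℝ) / 2) = η * x := by ring
  have e2 : (η * (x:ℝ) / 2) ^ 2 / (2 * (16 * (x:ℝ) ^ 2 * k ^ 2 / y)) =
      η ^ 2 * y / (128 * k ^ 2) := by
    field_simp
    ring
  rw [e1, e2] at key
  exact key

end Pool.Agent.U463.RB
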