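import Pool.Agent.U463.RB.Prob
import Pool.Agent.U463.RS.LLim

/-!
# Independent signs with arbitrary bias: logarithmic averages
-/

set_option autoImplicit false

namespace Pool.Agent.U463.RB

open Finset MeasureTheory ProbabilityTheory Filter
open Pool.Agent.W136.RF (cm cm_range cm_abs WW WW_abs WW_meas)
open Pool.Agent.U463.RS (bw bw_le bs bs_eq bs_le badb llim)
open scoped ENNReal

open Classical in
/-- the weighted sum of the reciprocals of the primes in the interval `(log log log x, x]` -/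
noncomputable def wm (w : ℕ → ℝ) (x : ℕ) : ℝ :=
  ∑ q ∈ (Icc 1 x).filter (fun q => q.Prime ∧ Nat.log 2 (Nat.log 2 (Nat.log 2 x)) < q), w q / q

/-- the weighted mass in the interval `(log log log x, x]` tends to infinity -/
def WHeavy (w : ℕ → ℝ) : Prop := Tendsto (wm w) atTop atTop

open Classical in
/-- the cut can be moved -/
theorem wheavy_cut (w : ℕ → ℝ) (h0 : ∀ q, 0 ≤ w q) (h1 : ∀ q, w q ≤ 1) (hA : WHeavy w)
    (D K : ℕ) (B : ℝ) :
    ∀ᶠ i : ℕ in atTop, ∀ j : ℕ, 2 ^ i ≤ 2 ^ D * j → B ≤ ∑ q ∈ (Icc 1 (2 ^ (j / 4))).filter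
      (fun q => q.Prime ∧ K * (Nat.log 2 i + 1) < q), w q / q := by
  have t0 : Tendsto (fun i : ℕ => i - (D + 2)) atTop atTop := tendsto_sub_atTop_nat _
  have t1 : Tendsto (fun i : ℕ => 2 ^ (2 ^ (i - (D + 2)))) atTop atTop :=
    (tendsto_pow_atTop_atTop_of_one_lt (by norm_num : (1:ℕ) < 2)).comp
      ((tendsto_pow_atTop_atTop_of_one_lt (by norm_num : (1:ℕ) < 2)).comp t0)
  have t2 := (hA.comp t1).eventually_ge_atTop (B + 2 * K)
  filter_upwards [t2, eventually_ge_atTop (2 * (D + 2) + 2)] with i hi hiD j hij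
  have hi' : B + 2 * K ≤ wm w (2 ^ (2 ^ (i - (D + 2)))) := hi
  unfold wm at hi'
  rw [Nat.log_pow (by norm_num), Nat.log_pow (by norm_num)] at hi'
  obtain ⟨L, hL⟩ : ∃ L, Nat.log 2 i = L + 1 := by
    refine ⟨Nat.log 2 i - 1, ?_⟩
    have : 1 ≤ Nat.log 2 i := Nat.le_log_of_pow_le (by norm_num) (by omega)
    omega
  have hL2 : L ≤ Nat.log 2 (i - (D + 2)) := by
    have h3 : Nat.log 2 (i / 2) = Nat.log 2 i - 1 := Nat.log_div_base 2 i
    have h4 : Nat.log 2 (i / 2) ≤ Nat.log 2 (i - (D + 2)) := Nat.log_mono_right (by omega)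
    omega
  have hz : 2 ^ (2 ^ (i - (D + 2))) ≤ 2 ^ (j / 4) := by
    apply Nat.pow_le_pow_right (by norm_num)
    rw [Nat.le_div_iff_mul_le (by norm_num)]
    have e1 : 2 ^ i = 2 ^ D * (2 ^ (i - (D + 2)) * 4) := by
      have : i = D + ((i - (D + 2)) + 2) := by omega
      conv_lhs => rw [this]
      rw [pow_add, pow_add]
      norm_num
    rw [e1] at hij
    exact Nat.le_of_mul_le_mul_left hij (by positivity)
  rw [hL]
  -- split
  have hw0 : ∀ q : ℕ, 0 ≤ w q / q := fun q => div_nonneg (h0 q) (Nat.cast_nonneg _)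
  have h3 : ∑ q ∈ (Icc 1 (2 ^ (2 ^ (i - (D + 2))))).filter
        (fun q => q.Prime ∧ Nat.log 2 (i - (D + 2)) < q), w q / q ≤
      ∑ q ∈ (Icc 1 (2 ^ (j / 4))).filter (fun q => q.Prime ∧ K * (L + 1 + 1) < q), w q / q +
      ∑ q ∈ Ioc L (K * (L + 2)), w q / q := by
    rw [← sum_filter_add_sum_filter_not ((Icc 1 (2 ^ (2 ^ (i - (D + 2))))).filter
      (fun q => q.Prime ∧ Nat.log 2 (i - (D + 2)) < q)) (fun q => K * (L + 1 + 1) < q)]
    refine add_le_add ?_ ?_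
    · refine sum_le_sum_of_subset_of_nonneg (fun q hq => ?_) fun q _ _ => hw0 q
      rw [mem_filter, mem_filter, mem_Icc] at hq
      rw [mem_filter, mem_Icc]
      exact ⟨⟨hq.1.1.1, hq.1.1.2.trans hz⟩, hq.1.2.1, hq.2⟩
    · refine sum_le_sum_of_subset_of_nonneg (fun q hq => ?_) fun q _ _ => hw0 q
      rw [mem_filter, mem_filter] at hq
      rw [mem_Ioc]
      exact ⟨lt_of_le_of_lt hL2 hq.1.2.2, not_lt.1 hq.2⟩
  have h4 : ∑ q ∈ Ioc L (K * (L + 2)), w q / q ≤ 2 * K := by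
    have h5 : ∀ q ∈ Ioc L (K * (L + 2)), w q / q ≤ 1 / (L + 1) := by
      intro q hq
      have := (mem_Ioc.1 hq).1
      have h6 : L + 1 ≤ q := by omega
      have h7 : (L:ℝ) + 1 ≤ q := by exact_mod_cast h6
      exact div_le_div₀ zero_le_one (h1 q) (by positivity) h7
    refine (sum_le_sum h5).trans ?_
    rw [sum_const, Nat.card_Ioc, nsmul_eq_mul]
    have h6 : ((K * (L + 2) - L : ℕ) : ℝ) ≤ K * (L + 2) := by
      have : K * (L + 2) - L ≤ K * (L + 2) := Nat.sub_le _ _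
      exact_mod_cast this
    have h7 : (0:ℝ) < (L:ℝ) + 1 := by positivity
    rw [mul_one_div, div_le_iff₀ h7]
    have h8 : (0:ℝ) ≤ K := Nat.cast_nonneg _
    have h9 : (0:ℝ) ≤ L := Nat.cast_nonneg _
    nlinarith [mul_nonneg h8 h9]
  linarith

variable {Ω ι : Type*} [MeasurableSpace Ω]

open Classical in
/-- one block -/
theorem bscale {P : Measure Ω} [IsProbabilityMeasure P] {ε : ι → ℕ → Ω → ℝ}
    (hm : ∀ j p, Measurable (ε j p)) (he : ∀ j p ω, ε j p ω = 1 ∨ ε j p ω = -1)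
    (hind : iIndepFun (fun i : ι × ℕ => ε i.1 i.2) P) (T : Finset (ι × ℕ)) (j0 : ι) (h0 B : ℕ)
    (ht : (j0, h0) ∈ T) (hB : ∀ t ∈ T, t.2 ≤ B) (v : ℕ → ℝ) (hv : ∀ m, |v m| ≤ 1)
    (η : ℝ) (hη : 0 < η) (K : ℕ) (hK1 : 1 ≤ K) (hKB : B ≤ K)
    (hK : 256 * (T.card : ℝ) ^ 2 / η ^ 2 ≤ K) (i j : ℕ) (hi : 1 ≤ i)
    (hS : 2 + 160 / η ≤
      ∑ q ∈ (Icc 1 (2 ^ (j / 4))).filter (fun q => q.Prime ∧ K * (Nat.log 2 i + 1) < q),
        (1 - |∫ ω, ε j0 q ω ∂P|) / q) :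
    P {ω | 2 * η < |bs (fun m => v m * WW ε T (m + 1) ω) j|}
      ≤ ENNReal.ofReal (2 * (1 / (i : ℝ) ^ 2)) := by
  obtain ⟨Q₀, hQ₀⟩ : ∃ Q₀ : Finset ℕ, Q₀ = (Icc 1 (2 ^ (j / 4))).filter
    (fun q => q.Prime ∧ K * (Nat.log 2 i + 1) < q) := ⟨_, rfl⟩
  rw [← hQ₀] at hS
  have hKy : K ≤ K * (Nat.log 2 i + 1) := Nat.le_mul_of_pos_right _ (Nat.succ_pos _)
  have hmem : ∀ q ∈ Q₀, q.Prime ∧ K * (Nat.log 2 i + 1) < q ∧ B < q ∧ q ≤ 2 ^ (j / 4) := by
    intro q hq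
    rw [hQ₀, Finset.mem_filter, Finset.mem_Icc] at hq
    exact ⟨hq.2.1, hq.2.2, by omega, hq.1.2⟩
  have hz : (2 ^ (j / 4)) ^ 4 ≤ 2 ^ j * 2 := by
    rw [← pow_mul]
    calc 2 ^ (j / 4 * 4) ≤ 2 ^ j := Nat.pow_le_pow_right (by norm_num) (Nat.div_mul_le_self j 4)
      _ ≤ 2 ^ j * 2 := Nat.le_mul_of_pos_right _ (by norm_num)
  have hy : 1 ≤ K * (Nat.log 2 i + 1) := Nat.mul_pos hK1 (Nat.succ_pos _)
  have hT0 : (0:ℝ) < T.card := by
    have : 0 < T.card := card_pos.2 ⟨_, ht⟩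
    exact_mod_cast this
  have hexp : Real.exp (-(η ^ 2 * ((K * (Nat.log 2 i + 1) : ℕ) : ℝ) /
      (128 * (T.card : ℝ) ^ 2))) ≤ 1 / (i : ℝ) ^ 2 := by
    refine le_trans (Real.exp_le_exp.2 ?_) (Pool.Agent.H220M.M6.exp_le i hi)
    apply neg_le_neg
    rw [div_le_iff₀ (by positivity)] at hK
    rw [le_div_iff₀ (by positivity)]
    push_cast
    have h1 : (0:ℝ) ≤ (Nat.log 2 i : ℝ) + 1 := by positivity
    nlinarith [mul_le_mul_of_nonneg_right hK h1]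
  have hset : {ω | 2 * η < |bs (fun m => v m * WW ε T (m + 1) ω) j|} =
      {ω | η * ((2 ^ j * 2 : ℕ) : ℝ) < |∑ m ∈ range (2 ^ j * 2), bw v j m *
        WW ε T (m + 1) ω|} := by
    ext ω
    simp only [Set.mem_ofPred_eq]
    rw [bs_eq v (fun m => WW ε T (m + 1) ω) j,
      abs_mul, abs_of_pos (by positivity : (0:ℝ) < 2 ^ j)]
    push_cast
    have hp : (0:ℝ) < 2 ^ j := by positivity
    constructor
    · intro h
      nlinarith [mul_lt_mul_of_pos_left h hp]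
    · intro h
      have e : η * (2 ^ j * 2) = 2 ^ j * (2 * η) := by ring
      rw [e] at h
      exact lt_of_mul_lt_mul_left h hp.le
  rw [hset]
  refine (scale_w hm he hind T j0 h0 B ht hB η Q₀ (K * (Nat.log 2 i + 1)) (2 ^ (j / 4))
    (2 ^ j * 2) hη hy hmem hz hS (bw v j) (bw_le v hv j)).trans ?_
  apply ENNReal.ofReal_le_ofReal
  linarith

open Classical in
/-- one value of `D` -/
theorem bone {P : Measure Ω} [IsProbabilityMeasure P] {ε : ι → ℕ → Ω → ℝ}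
    (hm : ∀ j p, Measurable (ε j p)) (he : ∀ j p ω, ε j p ω = 1 ∨ ε j p ω = -1)
    (hind : iIndepFun (fun i : ι × ℕ => ε i.1 i.2) P) (T : Finset (ι × ℕ)) (j0 : ι) (h0 B : ℕ)
    (ht : (j0, h0) ∈ T) (hB : ∀ t ∈ T, t.2 ≤ B)
    (hS : WHeavy (fun q => 1 - |∫ ω, ε j0 q ω ∂P|)) (v : ℕ → ℝ) (hv : ∀ m, |v m| ≤ 1) (D : ℕ) :
    ∀ᵐ ω ∂P, ∀ᶠ i : ℕ in atTop,
      (badb (fun m => v m * WW ε T (m + 1) ω) i D).card < 2 ^ (i - D) := by
  obtain ⟨η, hη'⟩ : ∃ η : ℝ, η = 1 / ((D : ℝ) + 1) := ⟨_, rfl⟩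
  have hη : 0 < η := by rw [hη']; positivity
  obtain ⟨K, hK⟩ : ∃ K : ℕ, 256 * (T.card : ℝ) ^ 2 / η ^ 2 ≤ K := exists_nat_ge _
  have hK' : 256 * (T.card : ℝ) ^ 2 / η ^ 2 ≤ ((K + B + 1 : ℕ) : ℝ) := by
    push_cast
    have : (0:ℝ) ≤ B := Nat.cast_nonneg _
    linarith
  have hw0 : ∀ q, 0 ≤ 1 - |∫ ω, ε j0 q ω ∂P| := by
    intro q
    have := Pool.Agent.W136.RF.int_pow_le (P := P) (fun ω => he j0 q ω) 1
    simp only [pow_one] at this
    linarith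
  have hw1 : ∀ q, 1 - |∫ ω, ε j0 q ω ∂P| ≤ 1 := by
    intro q
    have := abs_nonneg (∫ ω, ε j0 q ω ∂P)
    linarith
  have h1 := wheavy_cut _ hw0 hw1 hS D (K + B + 1) (2 + 160 / η)
  obtain ⟨i₀, hi₀⟩ := eventually_atTop.1 (h1.and (eventually_ge_atTop (D + 1)))
  obtain ⟨E, hE⟩ : ∃ E : ℕ → Set Ω, E = fun j =>
    {ω | 2 * η < |bs (fun m => v m * WW ε T (m + 1) ω) j|} := ⟨_, rfl⟩
  have hEm : ∀ j, MeasurableSet (E j) := by
    intro j
    rw [hE]
    refine measurableSet_lt measurable_const ?_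
    refine Measurable.abs ?_
    unfold bs
    refine Finset.measurable_fun_sum _ fun m _ => ?_
    exact ((WW_meas hm T (m + 1)).const_mul (v m)).div_const _
  have hEj : ∀ i, i₀ ≤ i → ∀ j, 2 ^ i ≤ 2 ^ D * j →
      P (E j) ≤ ENNReal.ofReal (2 * (1 / (i : ℝ) ^ 2)) := by
    intro i hi j hj
    obtain ⟨c1, c3⟩ := hi₀ i hi
    rw [hE]
    exact bscale hm he hind T j0 h0 B ht hB v hv η hη (K + B + 1) (Nat.succ_pos _) (by omega)
      hK' i j (by omega) (c1 j hj)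
  obtain ⟨J, hJ'⟩ : ∃ J : ℕ → Finset ℕ, J = fun i => (range (2 ^ (i + 1))).filter
    (fun j => 2 ^ i ≤ 2 ^ D * j) := ⟨_, rfl⟩
  obtain ⟨X, hX⟩ : ∃ X : ℕ → Ω → ℝ≥0∞, X = fun i ω =>
    ∑ j ∈ J i, (E j).indicator (fun _ => (1 : ℝ≥0∞)) ω := ⟨_, rfl⟩
  have hXm : ∀ i, Measurable (X i) := by
    intro i
    rw [hX]
    exact Finset.measurable_fun_sum _ fun j _ => measurable_const.indicator (hEm j)
  have hXc : ∀ i ω, X i ω =
      (((badb (fun m => v m * WW ε T (m + 1) ω) i D).card : ℕ) : ℝ≥0∞) := by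
    intro i ω
    rw [hX]
    unfold badb
    rw [card_filter, Nat.cast_sum, hJ']
    refine sum_congr rfl fun j _ => ?_
    rw [hE, hη']
    by_cases hb : 2 * (1 / ((D : ℝ) + 1)) < |bs (fun m => v m * WW ε T (m + 1) ω) j|
    · rw [if_pos hb, Set.indicator_of_mem (by exact hb)]
      simp
    · rw [if_neg hb, Set.indicator_of_notMem (by exact hb)]
      simp
  have hprob : ∀ i, i₀ ≤ i → P {ω | ((2 ^ (i - D) : ℕ) : ℝ≥0∞) ≤ X i ω} ≤
      ENNReal.ofReal (2 ^ (D + 2) * (1 / (i : ℝ) ^ 2)) := by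
    intro i hi
    have hDi := (hi₀ i hi).2
    have m1 := mul_meas_ge_le_lintegral (μ := P) (hXm i) ((2 ^ (i - D) : ℕ) : ℝ≥0∞)
    have m2 : ∫⁻ ω, X i ω ∂P ≤ ENNReal.ofReal (2 ^ (i + 1) * (2 * (1 / (i : ℝ) ^ 2))) := by
      rw [hX]
      rw [lintegral_finsetSum]
      · have m3 : ∀ j ∈ J i, ∫⁻ ω, (E j).indicator (fun _ => (1 : ℝ≥0∞)) ω ∂P ≤
            ENNReal.ofReal (2 * (1 / (i : ℝ) ^ 2)) := by
          intro j hj
          rw [lintegral_indicator (hEm j)]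
          simp only [lintegral_const, MeasurableSet.univ, Measure.restrict_apply, Set.univ_inter,
            one_mul]
          rw [hJ', mem_filter] at hj
          exact hEj i hi j hj.2
        refine (sum_le_sum m3).trans ?_
        rw [sum_const, nsmul_eq_mul,
          ENNReal.ofReal_mul (p := (2:ℝ) ^ (i + 1)) (by positivity)]
        refine mul_le_mul' ?_ le_rfl
        have m4 : (J i).card ≤ 2 ^ (i + 1) := by
          rw [hJ']
          exact (card_filter_le _ _).trans (le_of_eq (card_range _))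
        have m5 : ENNReal.ofReal ((2:ℝ) ^ (i + 1)) = ((2 ^ (i + 1) : ℕ) : ℝ≥0∞) := by
          rw [← ENNReal.ofReal_natCast]; push_cast; rfl
        rw [m5]
        exact_mod_cast m4
      · intro j _
        exact measurable_const.indicator (hEm j)
    have m6 := m1.trans m2
    have e1 : (2:ℝ) ^ (i + 1) * (2 * (1 / (i : ℝ) ^ 2)) =
        ((2 ^ (i - D) : ℕ) : ℝ) * (2 ^ (D + 2) * (1 / (i : ℝ) ^ 2)) := by
      push_cast
      have : (2:ℝ) ^ (i + 1) * 2 = 2 ^ (i - D) * 2 ^ (D + 2) := by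
        rw [← pow_succ, ← pow_add]; congr 1; omega
      rw [← mul_assoc, this]; ring
    rw [e1, ENNReal.ofReal_mul (Nat.cast_nonneg _), ENNReal.ofReal_natCast] at m6
    refine (ENNReal.mul_le_mul_iff_right ?_ (ENNReal.natCast_ne_top _)).1 m6
    have : (2 ^ (i - D) : ℕ) ≠ 0 := by positivity
    exact_mod_cast this
  have hBC := ae_eventually_notMem (μ := P) (s := fun i => if i₀ ≤ i then
      {ω | ((2 ^ (i - D) : ℕ) : ℝ≥0∞) ≤ X i ω} else ∅) (by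
    have hle : ∀ i : ℕ, P (if i₀ ≤ i then {ω | ((2 ^ (i - D) : ℕ) : ℝ≥0∞) ≤ X i ω} else ∅) ≤
        ENNReal.ofReal (2 ^ (D + 2) * (1 / (i : ℝ) ^ 2)) := by
      intro j
      split_ifs with h
      · exact hprob j h
      · rw [measure_empty]; exact bot_le
    have hsum : Summable (fun j : ℕ => (2 : ℝ) ^ (D + 2) * (1 / (j : ℝ) ^ 2)) :=
      (Real.summable_one_div_nat_pow.2 (by norm_num)).mul_left _
    refine ne_top_of_le_ne_top ?_ (ENNReal.tsum_le_tsum hle)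
    rw [← ENNReal.ofReal_tsum_of_nonneg (fun j => by positivity) hsum]
    exact ENNReal.ofReal_ne_top)
  filter_upwards [hBC] with ω hω
  filter_upwards [hω, eventually_ge_atTop i₀] with i hi hii
  rw [if_pos hii] at hi
  by_contra hc
  push Not at hc
  apply hi
  simp only [Set.mem_ofPred_eq]
  rw [hXc]
  exact_mod_cast hc

/-- **almost sure cancellation of every pattern** under the sharp condition -/
theorem as_sharp {P : Measure Ω} [IsProbabilityMeasure P] {ε : ι → ℕ → Ω → ℝ}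
    (hm : ∀ j p, Measurable (ε j p)) (he : ∀ j p ω, ε j p ω = 1 ∨ ε j p ω = -1)
    (hind : iIndepFun (fun i : ι × ℕ => ε i.1 i.2) P) (T : Finset (ι × ℕ)) (j0 : ι) (h0 : ℕ)
    (ht : (j0, h0) ∈ T) (hS : WHeavy (fun q => 1 - |∫ ω, ε j0 q ω ∂P|))
    (c : ℕ → ℝ) (hc : ∀ n, |c n| ≤ 1) :
    ∀ᵐ ω ∂P, Tendsto (fun X : ℕ => (∑ n ∈ Icc 1 X, c n * WW ε T n ω / n) / Real.log X) atTop
      (nhds 0) := by
  have h1 : ∀ᵐ ω ∂P, ∀ D : ℕ, ∀ᶠ i : ℕ in atTop,
      (badb (fun m => c (m + 1) * WW ε T (m + 1) ω) i D).card < 2 ^ (i - D) := by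
    rw [ae_all_iff]
    exact fun D => bone hm he hind T j0 h0 (T.sup Prod.snd) ht (fun t ht => le_sup (f := Prod.snd) ht)
      hS (fun m => c (m + 1)) (fun m => hc _) D
  filter_upwards [h1] with ω hω
  have h2 := llim (fun m => c (m + 1) * WW ε T (m + 1) ω) (fun m => by
    show |c (m + 1) * WW ε T (m + 1) ω| ≤ 1
    rw [abs_mul, WW_abs he, mul_one]
    exact hc _) hω
  refine h2.congr fun X => ?_
  congr 1
  have h3 := Finset.sum_Ico_add' (fun n : ℕ => c n * WW ε T n ω / n) 0 X 1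
  rw [← Finset.range_eq_Ico] at h3
  have h4 : Ico (0 + 1) (X + 1) = Icc 1 X := by
    ext n
    simp only [mem_Ico, mem_Icc]
    omega
  rw [h4] at h3
  rw [← h3]
  refine sum_congr rfl fun m _ => ?_
  push_cast
  rfl

end Pool.Agent.U463.RB
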