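import Pool.Agent.U463.RB.WSum
import Pool.Agent.U463.RB.Lim

/-!
# The adversary for biased signs
-/

set_option autoImplicit false

namespace Pool.Agent.U463.RB

open Finset MeasureTheory ProbabilityTheory Filter
open Pool.Agent.U463.RS (lnum card_primes)
open Pool.Agent.W136.RF (cm cm_range cm_abs)

theorem cm_congr {e e' : ℕ → ℝ} (h : ∀ p, p.Prime → e p = e' p) (n : ℕ) : cm e n = cm e' n := by
  unfold cm
  refine Finsupp.prod_congr fun p hp => ?_
  rw [Nat.support_factorization] at hp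
  rw [h p (Nat.prime_of_mem_primeFactors hp)]

theorem cm_mul2 (e e' : ℕ → ℝ) (n : ℕ) : cm e n * cm e' n = cm (fun p => e p * e' p) n := by
  unfold cm
  rw [← Finsupp.prod_mul]
  refine Finsupp.prod_congr fun p _ => ?_
  rw [mul_pow]

variable {Ω : Type*} [MeasurableSpace Ω]

open Classical in
/-- **one stage** -/
theorem wstage {P : Measure Ω} [IsProbabilityMeasure P] {e : ℕ → Ω → ℝ}
    (hm : ∀ p, Measurable (e p)) (he : ∀ p ω, e p ω = 1 ∨ e p ω = -1)
    (hind : iIndepFun e P) (g : ℕ → ℝ) (hg : ∀ n, 1 ≤ n → g n = 1 ∨ g n = -1) (C κ : ℝ)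
    (hκ : κ = Real.exp (-(2 * C)) / 8)
    (hC : ∃ᶠ x : ℕ in atTop, wm (fun q => 1 - |∫ ω, e q ω ∂P|) x ≤ C) (J₀ : ℕ) :
    ∃ J : ℕ, J₀ < J ∧ ∃ u : ℕ → ℝ, (∀ n, |u n| ≤ 1) ∧ ∃ E : Set Ω, MeasurableSet E ∧
      ENNReal.ofReal κ ≤ P E ∧ ∀ ω ∈ E, ∃ a b, J₀ ≤ a ∧ a < b ∧
      b ≤ J ∧ κ * b ≤
        |∑ n ∈ Ico (2 ^ a) (2 ^ b), u n / n * (g n * cm (fun p => e p ω) n)| := by
  have hκ0 : 0 < κ := by rw [hκ]; positivity
  -- the ratio of the exponents
  obtain ⟨ρ, hρ⟩ : ∃ ρ : ℕ, 2 / κ ≤ ρ := exists_nat_ge _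
  have hρ0 : 0 < ρ := by
    have : (0:ℝ) < ρ := lt_of_lt_of_le (by positivity) hρ
    exact_mod_cast this
  have hρ2 : 2 ≤ κ * 2 ^ ρ := by
    rw [div_le_iff₀' hκ0] at hρ
    have h1 : (ρ:ℝ) ≤ 2 ^ ρ := by
      have : ρ ≤ 2 ^ ρ := Nat.lt_two_pow_self.le
      exact_mod_cast this
    exact hρ.trans (mul_le_mul_of_nonneg_left h1 hκ0.le)
  obtain ⟨M, hM⟩ : ∃ M, M = 4 * ρ := ⟨_, rfl⟩
  obtain ⟨B, hB⟩ : ∃ B, B = 2 ^ (2 * M + 2) + (2 * J₀ + 2) * (M + 1) := ⟨_, rfl⟩
  obtain ⟨x, hx, hmass⟩ := (hC.and_eventually (eventually_ge_atTop (2 ^ (2 ^ B))))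
    |>.exists |> fun ⟨x, h1, h2⟩ => (⟨x, h2, h1⟩ : ∃ x : ℕ, 2 ^ (2 ^ B) ≤ x ∧
      wm (fun q => 1 - |∫ ω, e q ω ∂P|) x ≤ C)
  obtain ⟨J, hJ⟩ : ∃ J, J = Nat.log 2 x := ⟨_, rfl⟩
  obtain ⟨I, hI⟩ : ∃ I, I = Nat.log 2 J := ⟨_, rfl⟩
  obtain ⟨L, hL⟩ : ∃ L, L = Nat.log 2 I := ⟨_, rfl⟩
  have hJ1 : 2 ^ B ≤ J := by
    rw [hJ]; exact Nat.le_log_of_pow_le (by norm_num) hx
  have hI1 : B ≤ I := by
    rw [hI]; exact Nat.le_log_of_pow_le (by norm_num) hJ1
  have hx0 : x ≠ 0 := by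
    have : 0 < 2 ^ (2 ^ B) := by positivity
    omega
  have hJ0 : J ≠ 0 := by
    have : 0 < 2 ^ B := by positivity
    omega
  have hB0 : 0 < B := by rw [hB]; positivity
  have hI0 : I ≠ 0 := by omega
  have hJx : 2 ^ J ≤ x := by rw [hJ]; exact Nat.pow_log_le_self 2 hx0
  have hIJ : 2 ^ I ≤ J := by rw [hI]; exact Nat.pow_log_le_self 2 hJ0
  have hLI : 2 ^ L ≤ I := by rw [hL]; exact Nat.pow_log_le_self 2 hI0
  have hw0 : ∀ q, 0 ≤ 1 - |∫ ω, e q ω ∂P| := by
    intro q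
    have := Pool.Agent.W136.RF.int_pow_le (P := P) (fun ω => he q ω) 1
    simp only [pow_one] at this
    linarith
  have hPm : ∑ q ∈ (Icc 1 (2 ^ J)).filter (fun q => q.Prime ∧ L < q),
      (1 - |∫ ω, e q ω ∂P|) / q ≤ C := by
    refine le_trans ?_ hmass
    unfold wm
    rw [← hJ, ← hI, ← hL]
    refine sum_le_sum_of_subset_of_nonneg (fun q hq => ?_) fun q _ _ =>
      div_nonneg (hw0 q) (Nat.cast_nonneg _)
    rw [mem_filter, mem_Icc] at hq ⊢
    exact ⟨⟨hq.1.1, hq.1.2.trans hJx⟩, hq.2⟩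
  obtain ⟨K, hK⟩ : ∃ K : Finset ℕ, K = (Icc 1 L).filter (fun q => q.Prime) := ⟨_, rfl⟩
  obtain ⟨T, hT⟩ : ∃ T, T = I / ρ := ⟨_, rfl⟩
  have hKc : K.card ≤ L / 2 + 1 := card_primes K L (fun q hq => by
    rw [hK, mem_filter, mem_Icc] at hq
    exact ⟨hq.2, hq.1.2⟩)
  have hTc : 2 ^ K.card + J₀ ≤ T := by
    rw [hT, Nat.le_div_iff_mul_le hρ0]
    have h1 := lnum M J₀ I L K.card hLI (hB ▸ hI1) hKc
    rw [hM, mul_assoc] at h1
    have h2 := Nat.le_of_mul_le_mul_left h1 (by norm_num)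
    rw [mul_comm]
    exact h2
  obtain ⟨G, hG⟩ : ∃ G : Finset ℕ, G = Ico J₀ T := ⟨_, rfl⟩
  have hcard : 2 ^ K.card ≤ G.card := by
    rw [hG, Nat.card_Ico]
    omega
  -- the assignment
  obtain ⟨s, hs⟩ : ∃ s : ℕ → Finset ℕ, ∀ S ∈ K.powerset, ∃ j ∈ G, s j = S := by
    have h1 : Fintype.card {S // S ∈ K.powerset} ≤ Fintype.card {j // j ∈ G} := by
      rw [Fintype.card_coe, Fintype.card_coe, card_powerset]
      exact hcard
    obtain ⟨e⟩ := Function.Embedding.nonempty_of_card_le h1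
    have : Nonempty {S // S ∈ K.powerset} := ⟨⟨∅, empty_mem_powerset K⟩⟩
    refine ⟨fun j => if h : j ∈ G then ((Function.invFun e ⟨j, h⟩ : {S // S ∈ K.powerset}) : Finset ℕ)
      else ∅, fun S hS => ⟨(e ⟨S, hS⟩ : ℕ), (e ⟨S, hS⟩).2, ?_⟩⟩
    simp only [dif_pos (e ⟨S, hS⟩).2]
    have h2 := Function.leftInverse_invFun e.injective ⟨S, hS⟩
    exact congrArg Subtype.val h2
  have hTI : 2 ^ (ρ * T) ≤ J := by
    refine le_trans (Nat.pow_le_pow_right (by norm_num) ?_) hIJ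
    rw [hT]
    exact Nat.mul_div_le I ρ
  have hJ₀J : J₀ < J := by
    have h1 : J₀ < T := by
      have : 0 < 2 ^ K.card := by positivity
      omega
    have h2 : T ≤ ρ * T := Nat.le_mul_of_pos_left T hρ0
    have h3 : ρ * T < 2 ^ (ρ * T) := Nat.lt_two_pow_self
    omega
  -- the index of the block of a set
  have hjx : ∀ S : Finset ℕ, ∃ j : ℕ, S ∈ K.powerset → j ∈ G ∧ s j = S := by
    intro S
    by_cases h : S ∈ K.powerset
    · obtain ⟨j, h1, h2⟩ := hs S h
      exact ⟨j, fun _ => ⟨h1, h2⟩⟩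
    · exact ⟨0, fun h' => absurd h' h⟩
  choose jx hjx using hjx
  obtain ⟨α, hα⟩ : ∃ α : Finset ℕ → ℕ, α = fun S => 2 ^ (ρ * jx S) := ⟨_, rfl⟩
  obtain ⟨β, hβ⟩ : ∃ β : Finset ℕ → ℕ, β = fun S => 2 ^ (ρ * (jx S + 1)) := ⟨_, rfl⟩
  have hαβ : ∀ S, α S < β S := by
    intro S
    rw [hα, hβ]
    exact Nat.pow_lt_pow_right (by norm_num) (by
      rw [mul_add, mul_one]; omega)
  have hβJ : ∀ S ∈ K.powerset, β S ≤ J := by
    intro S hS
    have ht := (hjx S hS).1
    rw [hG, mem_Ico] at ht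
    rw [hβ]
    exact le_trans (Nat.pow_le_pow_right (by norm_num) (Nat.mul_le_mul_left ρ ht.2)) hTI
  have hJα : ∀ S ∈ K.powerset, J₀ ≤ α S := by
    intro S hS
    have ht := (hjx S hS).1
    rw [hG, mem_Ico] at ht
    rw [hα]
    have h2 : jx S ≤ ρ * jx S := Nat.le_mul_of_pos_left _ hρ0
    have h3 : ρ * jx S < 2 ^ (ρ * jx S) := Nat.lt_two_pow_self
    show J₀ ≤ 2 ^ (ρ * jx S)
    omega
  have h2αβ : ∀ S, (α S : ℝ) ≤ 2 * κ * β S := by
    intro S
    have e : (β S : ℝ) = α S * 2 ^ ρ := by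
      rw [hα, hβ]; push_cast; rw [mul_add, mul_one, pow_add]
    rw [e]
    have h0 : (0:ℝ) ≤ α S := Nat.cast_nonneg _
    nlinarith [mul_le_mul_of_nonneg_left hρ2 h0]
  -- the events
  obtain ⟨A, hA⟩ : ∃ A : Finset ℕ → Set Ω, A = fun S =>
    {ω | ∀ q ∈ K, e q ω = if q ∈ S then -1 else 1} := ⟨_, rfl⟩
  obtain ⟨U, hU⟩ : ∃ U : Finset ℕ → Set Ω, U = fun S => {ω | κ * β S ≤
    ∑ n ∈ Ico (2 ^ (α S)) (2 ^ (β S)), cm (tau P e L ω) n / n} := ⟨_, rfl⟩
  have hUprob : ∀ S ∈ K.powerset, ENNReal.ofReal κ ≤ P (U S) := by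
    intro S hS
    rw [hU]
    exact block_prob hm he hind L (2 ^ J) C κ hPm hκ (α S) (β S) (hαβ S) (h2αβ S)
      (Nat.pow_le_pow_right (by norm_num) (hβJ S hS))
  have hAprob : ∀ S ∈ K.powerset, P (A S) = ENNReal.ofReal (W (neg P e) K S) := by
    intro S hS
    rw [hA]
    exact prob_pattern hm he hind K S (mem_powerset.1 hS)
  have hAm : ∀ S, MeasurableSet (A S) := by
    intro S
    have : A S = ⋂ q ∈ K, e q ⁻¹' {if q ∈ S then (-1 : ℝ) else 1} := by
      rw [hA]; ext ω; simp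
    rw [this]
    exact Finset.measurableSet_biInter _ fun q _ => hm q (measurableSet_singleton _)
  have hUm : ∀ S, MeasurableSet (U S) := by
    intro S
    rw [hU]
    exact measurableSet_le measurable_const
      (Finset.measurable_fun_sum _ fun n _ => (cm_meas hm L n).div_const _)
  have hAU : ∀ S ∈ K.powerset, P (A S ∩ U S) = P (A S) * P (U S) := by
    intro S hS
    obtain ⟨R, hR⟩ : ∃ R : Finset ℕ, R = Ioc L (2 ^ J) := ⟨_, rfl⟩
    have hdisj : Disjoint K R := by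
      rw [Finset.disjoint_left]
      intro q hq hq'
      rw [hK, mem_filter, mem_Icc] at hq
      rw [hR, mem_Ioc] at hq'
      omega
    have hI2 := hind.indepFun_finset K R hdisj (fun i => hm i)
    obtain ⟨Φ, hΦ⟩ : ∃ Φ : (R → ℝ) → ℝ, Φ = fun y =>
      ∑ n ∈ Ico ((2:ℕ) ^ (α S)) (2 ^ (β S)),
        (∏ i : R, (maj P e i * y i) ^ (n.factorization i)) / (n : ℝ) := ⟨_, rfl⟩
    have hΦm : Measurable Φ := by
      rw [hΦ]
      refine Finset.measurable_fun_sum _ fun n _ => Measurable.div_const ?_ _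
      refine Finset.measurable_fun_prod _ fun i _ => ?_
      exact ((measurable_pi_apply i).const_mul _).pow_const _
    have e1 : A S = (fun ω (i : K) => e i ω) ⁻¹'
        {y | ∀ i : K, y i = if (i : ℕ) ∈ S then -1 else 1} := by
      rw [hA]
      ext ω
      simp only [Set.mem_ofPred_eq, Set.mem_preimage, Subtype.forall]
    have e2 : U S = (fun ω (i : R) => e i ω) ⁻¹' {y | κ * β S ≤ Φ y} := by
      rw [hU]
      ext ω
      simp only [Set.mem_ofPred_eq, Set.mem_preimage]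
      have e3 : ∑ n ∈ Ico (2 ^ (α S)) (2 ^ (β S)), cm (tau P e L ω) n / n =
          Φ (fun i => e i ω) := by
        rw [hΦ]
        refine sum_congr rfl fun n hn => ?_
        congr 1
        rw [mem_Ico] at hn
        have hnD : n ≤ 2 ^ J :=
          hn.2.le.trans (Nat.pow_le_pow_right (by norm_num) (hβJ S hS))
        rw [cm_range _ hnD, prod_coe_sort R (fun i => (maj P e i * e i ω) ^ (n.factorization i))]
        symm
        have hsub : R ⊆ range (2 ^ J + 1) := by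
          intro q hq
          rw [hR, mem_Ioc] at hq
          rw [mem_range]
          omega
        rw [← prod_subset hsub (f := fun p => (tau P e L ω p) ^ (n.factorization p))]
        · refine prod_congr rfl fun p hp => ?_
          rw [hR, mem_Ioc] at hp
          unfold tau
          rw [if_pos hp.1]
        · intro p hp hp'
          rw [mem_range] at hp
          rw [hR, mem_Ioc] at hp'
          unfold tau
          rw [if_neg (by omega), one_pow]
      rw [e3]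
    rw [e1, e2]
    refine hI2.measure_inter_preimage_eq_mul _ _ ?_ (measurableSet_le measurable_const hΦm)
    have : {y : K → ℝ | ∀ i : K, y i = if (i : ℕ) ∈ S then (-1 : ℝ) else 1} =
        ⋂ i : K, (fun y : K → ℝ => y i) ⁻¹' {if (i : ℕ) ∈ S then (-1 : ℝ) else 1} := by
      ext y; simp
    rw [this]
    exact MeasurableSet.iInter fun i => measurable_pi_apply i (measurableSet_singleton _)
  obtain ⟨E, hE⟩ : ∃ E : Set Ω, E = ⋃ S ∈ K.powerset, A S ∩ U S := ⟨_, rfl⟩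
  have hEm : MeasurableSet E := by
    rw [hE]
    exact Finset.measurableSet_biUnion _ fun S _ => (hAm S).inter (hUm S)
  have hEprob : ENNReal.ofReal κ ≤ P E := by
    rw [hE, measure_biUnion_finset (fun S hS S' hS' hne => by
      rw [Function.onFun, Set.disjoint_left]
      rintro ω ⟨h1, _⟩ ⟨h2, _⟩
      apply hne
      rw [mem_coe, mem_powerset] at hS hS'
      rw [hA] at h1 h2
      ext q
      constructor
      · intro hq
        have h3 := h1 q (hS hq)
        rw [if_pos hq] at h3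
        have h4 := h2 q (hS hq)
        by_contra hcon
        rw [if_neg hcon, h3] at h4
        norm_num at h4
      · intro hq
        have h3 := h2 q (hS' hq)
        rw [if_pos hq] at h3
        have h4 := h1 q (hS' hq)
        by_contra hcon
        rw [if_neg hcon, h3] at h4
        norm_num at h4) (fun S _ => (hAm S).inter (hUm S))]
    have h1 : ∀ S ∈ K.powerset, ENNReal.ofReal (W (neg P e) K S) * ENNReal.ofReal κ ≤
        P (A S ∩ U S) := by
      intro S hS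
      rw [hAU S hS, hAprob S hS]
      exact mul_le_mul' le_rfl (hUprob S hS)
    refine le_trans (le_of_eq ?_) (sum_le_sum h1)
    rw [← sum_mul, ← ENNReal.ofReal_sum_of_nonneg (fun S hS =>
      W_nonneg (fun q _ => neg_nonneg q) (fun q _ => neg_le_one q) (mem_powerset.1 hS)),
      sum_W_one, ENNReal.ofReal_one, one_mul]
  obtain ⟨c, hc⟩ : ∃ c : Finset ℕ → ℕ → ℝ, c = fun S p =>
    if L < p then maj P e p else if p ∈ S then -1 else 1 := ⟨_, rfl⟩
  have hcor : ∀ S p, c S p = 1 ∨ c S p = -1 := by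
    intro S p
    rw [hc]
    simp only
    split_ifs
    · exact maj_or P e p
    · exact Or.inr rfl
    · exact Or.inl rfl
  have hgabs : ∀ n, 1 ≤ n → |g n| = 1 := by
    intro n hn
    rcases hg n hn with h | h <;> rw [h] <;> norm_num
  refine ⟨J, hJ₀J, fun n => if n = 0 then 0 else
    g n * cm (c (s (Nat.log 2 (Nat.log 2 n) / ρ))) n, ?_, E, hEm, hEprob, ?_⟩
  · intro n
    simp only
    split_ifs with h
    · simp
    · rw [abs_mul, hgabs n (by omega), cm_abs (hcor _), one_mul]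
  · intro ω hω
    rw [hE, Set.mem_iUnion₂] at hω
    obtain ⟨S, hS, hωA, hωU⟩ := hω
    refine ⟨α S, β S, hJα S hS, hαβ S, hβJ S hS, ?_⟩
    rw [hU] at hωU
    rw [hA] at hωA
    refine le_trans hωU ?_
    refine le_trans (le_of_eq ?_) (le_abs_self _)
    refine sum_congr rfl fun n hn => ?_
    rw [mem_Ico] at hn
    have hn0 : 0 < n := lt_of_lt_of_le (by positivity) hn.1
    have hl1 : α S ≤ Nat.log 2 n := Nat.le_log_of_pow_le (by norm_num) hn.1
    have hl2 : Nat.log 2 n < β S := Nat.log_lt_of_lt_pow hn0.ne' hn.2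
    have hα' : α S = 2 ^ (ρ * jx S) := by rw [hα]
    have hβ' : β S = 2 ^ (ρ * (jx S + 1)) := by rw [hβ]
    have hln0 : Nat.log 2 n ≠ 0 := by
      have : 0 < α S := by rw [hα']; positivity
      omega
    have hl3 : ρ * jx S ≤ Nat.log 2 (Nat.log 2 n) :=
      Nat.le_log_of_pow_le (by norm_num) (hα' ▸ hl1)
    have hl4 : Nat.log 2 (Nat.log 2 n) < ρ * (jx S + 1) :=
      Nat.log_lt_of_lt_pow hln0 (hβ' ▸ hl2)
    have hlog : Nat.log 2 (Nat.log 2 n) / ρ = jx S := by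
      rw [Nat.div_eq_iff hρ0]
      constructor
      · rw [mul_comm]; exact hl3
      · have : jx S * ρ + ρ = ρ * (jx S + 1) := by ring
        omega
    simp only [if_neg hn0.ne']
    rw [hlog, (hjx S hS).2]
    have h5 : cm (c S) n * cm (fun p => e p ω) n = cm (tau P e L ω) n := by
      rw [cm_mul2]
      refine cm_congr (fun p hp => ?_) n
      rw [hc]
      unfold tau
      by_cases hLp : L < p
      · simp only [if_pos hLp]
      · simp only [if_neg hLp]
        have h6 := hωA p (by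
          rw [hK, mem_filter, mem_Icc]
          exact ⟨⟨hp.pos, not_lt.1 hLp⟩, hp⟩)
        rw [h6]
        split_ifs <;> norm_num
    have h7 : g n * g n = 1 := by
      rcases hg n hn0 with h | h <;> rw [h] <;> norm_num
    rw [← h5]
    calc cm (c S) n * cm (fun p => e p ω) n / n =
        1 * (cm (c S) n * cm (fun p => e p ω) n) / n := by rw [one_mul]
      _ = (g n * g n) * (cm (c S) n * cm (fun p => e p ω) n) / n := by rw [h7]
      _ = g n * cm (c S) n / n * (g n * cm (fun p => e p ω) n) := by ring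

/-- **the adversary** -/
theorem wadversary {P : Measure Ω} [IsProbabilityMeasure P] {e : ℕ → Ω → ℝ}
    (hm : ∀ p, Measurable (e p)) (he : ∀ p ω, e p ω = 1 ∨ e p ω = -1)
    (hind : iIndepFun e P) (g : ℕ → ℝ) (hg : ∀ n, 1 ≤ n → g n = 1 ∨ g n = -1)
    (h : ¬ WHeavy (fun q => 1 - |∫ ω, e q ω ∂P|)) :
    ∃ v : ℕ → ℝ, (∀ n, |v n| ≤ 1) ∧ ¬ ∀ᵐ ω ∂P,
      Tendsto (fun x : ℕ => (∑ n ∈ Icc 1 x, v n / n * (g n * cm (fun p => e p ω) n)) /
        Real.log x) atTop (nhds 0) := by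
  obtain ⟨C, hC⟩ : ∃ C : ℝ, ∃ᶠ x : ℕ in atTop, wm (fun q => 1 - |∫ ω, e q ω ∂P|) x ≤ C := by
    unfold WHeavy at h
    rw [tendsto_atTop] at h
    push Not at h
    obtain ⟨C, hC⟩ := h
    exact ⟨C, hC.mono fun x hx => hx.le⟩
  obtain ⟨κ, hκ⟩ : ∃ κ, κ = Real.exp (-(2 * C)) / 8 := ⟨_, rfl⟩
  choose Jn hJn u hu E hEm hE hw using wstage hm he hind g hg C κ hκ hC
  have hκ0 : 0 < κ := by rw [hκ]; positivity
  obtain ⟨a, ha0, ha1⟩ : ∃ a : ℕ → ℕ, a 0 = 0 ∧ ∀ i, a (i + 1) = Jn (a i) :=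
    ⟨fun i => Nat.rec 0 (fun _ b => Jn b) i, rfl, fun _ => rfl⟩
  have hmono : StrictMono a := strictMono_nat_of_lt_succ fun i => by
    rw [ha1]
    exact hJn _
  obtain ⟨ix, hix⟩ : ∃ ix : ℕ → ℕ, ∀ j, ix j = Nat.findGreatest (fun i => a i ≤ j) j :=
    ⟨_, fun _ => rfl⟩
  have hixe : ∀ i j, a i ≤ j → j < a (i + 1) → ix j = i := by
    intro i j h1 h2
    rw [hix]
    apply le_antisymm
    · by_contra hcon
      push Not at hcon
      have h3 : a (Nat.findGreatest (fun i => a i ≤ j) j) ≤ j :=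
        Nat.findGreatest_spec (P := fun i => a i ≤ j) (m := 0) (Nat.zero_le _)
          (by rw [ha0]; exact Nat.zero_le _)
      have h4 : a (i + 1) ≤ a (Nat.findGreatest (fun i => a i ≤ j) j) := hmono.monotone hcon
      omega
    · exact Nat.le_findGreatest (le_trans hmono.le_apply h1) h1
  refine ⟨fun n => u (a (ix (Nat.log 2 n))) n, fun n => hu _ _, fun hT => ?_⟩
  -- for almost all `ω` only finitely many of the events occur
  have hev : ∀ᵐ ω ∂P, ∀ᶠ i : ℕ in atTop, ω ∉ E (a i) := by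
    filter_upwards [hT] with ω hT
    obtain ⟨A, hA⟩ : ∃ A : ℕ → ℝ, ∀ x, A x = ∑ n ∈ Icc 1 x, u (a (ix (Nat.log 2 n))) n / n *
        (g n * cm (fun p => e p ω) n) := ⟨_, fun _ => rfl⟩
    have hT' : Tendsto (fun x : ℕ => A x / Real.log x) atTop (nhds 0) := by
      refine hT.congr fun x => ?_
      rw [hA]
    rw [Metric.tendsto_atTop] at hT'
    obtain ⟨N, hN⟩ := hT' (κ / 4) (by positivity)
    have hbd : ∀ x : ℕ, N ≤ x → 2 ≤ x → |A x| ≤ κ / 4 * Real.log x := by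
      intro x hx hx2
      have h1 := hN x hx
      have hlog : 0 < Real.log x := Real.log_pos (by exact_mod_cast hx2)
      rw [Real.dist_eq, sub_zero, abs_div, abs_of_pos hlog, div_lt_iff₀ hlog] at h1
      exact h1.le
    filter_upwards [eventually_ge_atTop (N + 2)] with i hi hωE
    obtain ⟨α, b, hj0, hαb, hj1, hj2⟩ := hw (a i) ω hωE
    rw [← ha1] at hj1
    have hNj : N + 2 ≤ α := hi.trans (le_trans hmono.le_apply hj0)
    have hblk : ∑ n ∈ Ico (2 ^ α) (2 ^ b), u (a i) n / n *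
        (g n * cm (fun p => e p ω) n) = A (2 ^ b - 1) - A (2 ^ α - 1) := by
      have e1 : ∑ n ∈ Ico (2 ^ α) (2 ^ b), u (a i) n / n *
          (g n * cm (fun p => e p ω) n) = ∑ n ∈ Ico (2 ^ α) (2 ^ b),
          u (a (ix (Nat.log 2 n))) n / n * (g n * cm (fun p => e p ω) n) := by
        refine sum_congr rfl fun n hn => ?_
        rw [mem_Ico] at hn
        have hn0 : 0 < n := lt_of_lt_of_le (by positivity) hn.1
        have hl1 : α ≤ Nat.log 2 n := Nat.le_log_of_pow_le (by norm_num) hn.1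
        have hl2 : Nat.log 2 n < b := Nat.log_lt_of_lt_pow hn0.ne' hn.2
        rw [hixe i (Nat.log 2 n) (hj0.trans hl1) (lt_of_lt_of_le hl2 hj1)]
      rw [e1, hA, hA]
      have hp1 : 1 ≤ 2 ^ α := Nat.one_le_two_pow
      have hp2 : 2 ^ α ≤ 2 ^ b := Nat.pow_le_pow_right (by norm_num) hαb.le
      have e2 : Icc 1 (2 ^ b - 1) = Ico 1 (2 ^ b) := by
        ext n; rw [mem_Icc, mem_Ico]; omega
      have e3 : Icc 1 (2 ^ α - 1) = Ico 1 (2 ^ α) := by
        ext n; rw [mem_Icc, mem_Ico]; omega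
      rw [e2, e3, ← sum_Ico_consecutive _ hp1 hp2]
      ring
    rw [hblk] at hj2
    have hlt : α < 2 ^ α := Nat.lt_two_pow_self
    have hp2 : 2 ^ α ≤ 2 ^ b := Nat.pow_le_pow_right (by norm_num) hαb.le
    have h1 := hbd (2 ^ b - 1) (by omega) (by omega)
    have h2 := hbd (2 ^ α - 1) (by omega) (by omega)
    have hlogle : ∀ c : ℕ, c ≤ b → 2 ≤ 2 ^ c - 1 → Real.log ((2 ^ c - 1 : ℕ) : ℝ) ≤ b := by
      intro c hc h2c
      have h3 : Real.log ((2 ^ c - 1 : ℕ) : ℝ) ≤ Real.log ((2:ℝ) ^ c) := by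
        apply Real.log_le_log
        · have : 0 < 2 ^ c - 1 := by omega
          exact_mod_cast this
        · have : 2 ^ c - 1 ≤ 2 ^ c := Nat.sub_le _ _
          exact_mod_cast this
      rw [Real.log_pow] at h3
      have h4 : Real.log 2 ≤ 1 := by
        have := Real.log_two_lt_d9
        linarith
      have h5 : (c:ℝ) ≤ b := by exact_mod_cast hc
      have h6 : (0:ℝ) ≤ c := Nat.cast_nonneg _
      have h7 : (c:ℝ) * Real.log 2 ≤ c * 1 := mul_le_mul_of_nonneg_left h4 h6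
      linarith
    have h3 := hlogle b le_rfl (by omega)
    have h4 := hlogle α hαb.le (by omega)
    have h5 := abs_sub (A (2 ^ b - 1)) (A (2 ^ α - 1))
    have h6 : (0:ℝ) < b := by
      have : 0 < b := by omega
      exact_mod_cast this
    have hk2 : 0 < κ / 4 := by positivity
    have h7 := mul_le_mul_of_nonneg_left h3 hk2.le
    have h8 := mul_le_mul_of_nonneg_left h4 hk2.le
    nlinarith [mul_pos hk2 h6]
  -- the limsup of the events has positive probability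
  obtain ⟨V, hV⟩ : ∃ V : ℕ → Set Ω, V = fun k => ⋃ i, E (a (k + i)) := ⟨_, rfl⟩
  have hVm : ∀ k, MeasurableSet (V k) := by
    intro k
    rw [hV]
    exact MeasurableSet.iUnion fun i => hEm _
  have hVanti : Antitone V := by
    apply antitone_nat_of_succ_le
    intro k
    rw [hV]
    intro ω hω
    rw [Set.mem_iUnion] at hω ⊢
    obtain ⟨i, hi⟩ := hω
    exact ⟨1 + i, by rw [← add_assoc]; exact hi⟩
  have hVlim := tendsto_measure_iInter_atTop (μ := P) (s := V)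
    (fun k => (hVm k).nullMeasurableSet) hVanti ⟨0, measure_ne_top _ _⟩
  have hVge : ∀ k, ENNReal.ofReal κ ≤ P (V k) := by
    intro k
    refine (hE (a (k + 0))).trans (measure_mono ?_)
    rw [hV]
    exact Set.subset_iUnion (fun i => E (a (k + i))) 0
  have hVpos : ENNReal.ofReal κ ≤ P (⋂ k, V k) := ge_of_tendsto' hVlim hVge
  have hVzero : P (⋂ k, V k) = 0 := by
    have h2 : ∀ᵐ ω ∂P, ω ∉ ⋂ k, V k := by
      filter_upwards [hev] with ω hω hin
      obtain ⟨k, hk⟩ := eventually_atTop.1 hω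
      rw [Set.mem_iInter] at hin
      have h3 := hin k
      rw [hV, Set.mem_iUnion] at h3
      obtain ⟨i, hi⟩ := h3
      exact hk (k + i) (Nat.le_add_right _ _) hi
    rw [ae_iff] at h2
    have h4 : {ω | ¬ ω ∉ ⋂ k, V k} = ⋂ k, V k := by
      ext ω
      simp only [Set.mem_ofPred_eq, not_not]
    rwa [h4] at h2
  rw [hVzero] at hVpos
  have h3 : ENNReal.ofReal κ = 0 := le_antisymm hVpos bot_le
  rw [ENNReal.ofReal_eq_zero] at h3
  linarith

end Pool.Agent.U463.RB
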