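import Pool.Agent.U463.RB.GMD
import Pool.Agent.U463.RB.Bad
import Pool.Agent.U463.RB.Nec

/-!
# One scale for sign vectors with arbitrary dependence between the coordinates
-/

set_option autoImplicit false

namespace Pool.Agent.U463.RB

open Finset MeasureTheory ProbabilityTheory
open Pool.Agent.U463.RS (Ev dvd_count sum_inv_sq)
open Pool.Agent.W136.RF (cm cm_range cm_abs WW WW_abs WW_meas)

/-- the sign of a truth value -/
def sgn (b : Bool) : ℝ := if b then -1 else 1

theorem sgn_or (b : Bool) : sgn b = 1 ∨ sgn b = -1 := by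
  unfold sgn
  cases b <;> simp

theorem cm_split (e : ℕ → ℝ) (q n : ℕ) :
    cm e n = e q ^ n.factorization q * cm (Function.update e q 1) n := by
  have h1 : cm (fun p => if p = q then e q else 1) n = e q ^ n.factorization q := by
    unfold cm Finsupp.prod
    by_cases hq : q ∈ n.factorization.support
    · rw [prod_eq_single_of_mem q hq]
      · beta_reduce
        rw [if_pos rfl]
      · intro p _ hp
        beta_reduce
        rw [if_neg hp, one_pow]
    · rw [Finsupp.notMem_support_iff.1 hq, pow_zero]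
      refine prod_eq_one fun p hp => ?_
      beta_reduce
      have hpq : p ≠ q := fun h => hq (h ▸ hp)
      rw [if_neg hpq, one_pow]
  rw [← h1, cm_mul2]
  congr 1
  funext p
  by_cases hp : p = q
  · subst hp
    rw [if_pos rfl, Function.update_self, mul_one]
  · rw [if_neg hp, Function.update_of_ne hp, one_mul]

variable {Ω ι : Type*}

/-- the product over the pattern as a function of the signs -/
noncomputable def Psi (T : Finset (ι × ℕ)) (x : ℕ → T → Bool) (n : ℕ) : ℝ :=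
  ∏ t : T, cm (fun p => sgn (x p t)) (n + t.1.2)

theorem Psi_abs (T : Finset (ι × ℕ)) (x : ℕ → T → Bool) (n : ℕ) : |Psi T x n| = 1 := by
  unfold Psi
  rw [abs_prod]
  exact prod_eq_one fun t _ => cm_abs (fun p => sgn_or _) _

/-- the factor of the prime `q` -/
noncomputable def phi (T : Finset (ι × ℕ)) (q n : ℕ) (a : T → Bool) : ℝ :=
  ∏ t : T, sgn (a t) ^ (n + t.1.2).factorization q

theorem phi_abs (T : Finset (ι × ℕ)) (q n : ℕ) (a : T → Bool) : |phi T q n a| = 1 := by
  unfold phi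
  rw [abs_prod]
  refine prod_eq_one fun t _ => ?_
  rw [abs_pow]
  rcases sgn_or (a t) with h | h <;> rw [h] <;> simp

theorem Psi_update (T : Finset (ι × ℕ)) (x : ℕ → T → Bool) (q n : ℕ) (a : T → Bool) :
    Psi T (Function.update x q a) n =
      phi T q n a * Psi T (Function.update x q (fun _ => false)) n := by
  have h1 : ∀ b : T → Bool, Psi T (Function.update x q b) n = phi T q n b *
      ∏ t : T, cm (Function.update (fun p => sgn (x p t)) q 1) (n + t.1.2) := by
    intro b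
    unfold Psi phi
    rw [← prod_mul_distrib]
    refine prod_congr rfl fun t _ => ?_
    rw [cm_split _ q, Function.update_self]
    congr 2
    funext p
    by_cases hp : p = q
    · subst hp
      rw [Function.update_self, Function.update_self]
    · rw [Function.update_of_ne hp, Function.update_of_ne hp, Function.update_of_ne hp]
  rw [h1 a, h1 (fun _ => false)]
  have h2 : phi T q n (fun _ => false) = 1 := by
    unfold phi
    exact prod_eq_one fun t _ => by simp [sgn]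
  rw [h2, one_mul]

theorem Psi_same (T : Finset (ι × ℕ)) (x : ℕ → T → Bool) (q n : ℕ) (a : T → Bool)
    (h : ∀ t ∈ T, ¬ q ∣ n + t.2) : Psi T (Function.update x q a) n = Psi T x n := by
  have h1 : ∀ b : T → Bool, phi T q n b = 1 := by
    intro b
    unfold phi
    refine prod_eq_one fun t _ => ?_
    rw [Nat.factorization_eq_zero_of_not_dvd (h t.1 t.2), pow_zero]
  have h2 := Psi_update T x q n a
  have h3 := Psi_update T x q n (x q)
  rw [Function.update_eq_self, h1, one_mul] at h3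
  rw [h1, one_mul] at h2
  rw [h2, h3]

/-- the truth values of the signs -/
noncomputable def XX (ε : ι → ℕ → Ω → ℝ) (T : Finset (ι × ℕ)) (q : ℕ) (ω : Ω) (t : T) : Bool :=
  @decide (ε t.1.1 q ω = -1) (Classical.propDecidable _)

theorem sgn_XX {ε : ι → ℕ → Ω → ℝ} (he : ∀ j p ω, ε j p ω = 1 ∨ ε j p ω = -1)
    (T : Finset (ι × ℕ)) (q : ℕ) (ω : Ω) (t : T) : sgn (XX ε T q ω t) = ε t.1.1 q ω := by
  unfold sgn XX
  rcases he t.1.1 q ω with h | h
  · rw [h]
    have : ¬ ((1:ℝ) = -1) := by norm_num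
    simp [this]
  · rw [h]
    simp

theorem WW_eq {ε : ι → ℕ → Ω → ℝ} (he : ∀ j p ω, ε j p ω = 1 ∨ ε j p ω = -1)
    (T : Finset (ι × ℕ)) (D n : ℕ) (hD : ∀ t ∈ T, n + t.2 ≤ D) (x : ℕ → T → Bool) (ω : Ω) :
    WW ε T n ω = Psi T (mix (XX ε T) (range (D + 1)) x ω) n := by
  unfold WW Psi
  rw [← prod_coe_sort T (fun t => cm (fun p => ε t.1 p ω) (n + t.2))]
  refine prod_congr rfl fun t _ => ?_
  rw [cm_range _ (hD t.1 t.2), cm_range _ (hD t.1 t.2)]
  refine prod_congr rfl fun p hp => ?_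
  unfold mix
  rw [if_pos hp, sgn_XX he]

variable [MeasurableSpace Ω]

theorem XX_meas {ε : ι → ℕ → Ω → ℝ} (hm : ∀ j p, Measurable (ε j p)) (T : Finset (ι × ℕ))
    (q : ℕ) : Measurable (XX ε T q) := by
  refine measurable_pi_lambda _ fun t => ?_
  refine measurable_to_bool ?_
  have : (fun ω => XX ε T q ω t) ⁻¹' {true} = ε t.1.1 q ⁻¹' {-1} := by
    ext ω
    simp [XX]
  rw [this]
  exact hm _ _ (measurableSet_singleton _)

theorem XX_indep {P : Measure Ω} {ε : ι → ℕ → Ω → ℝ}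
    (hind : iIndepFun (fun (p : ℕ) (ω : Ω) (i : ι) => ε i p ω) P) (T : Finset (ι × ℕ)) :
    iIndepFun (XX ε T) P := by
  have h := hind.comp (fun (_ : ℕ) (y : ι → ℝ) (t : T) =>
    @decide (y t.1.1 = -1) (Classical.propDecidable _)) (fun _ => by
      refine measurable_pi_lambda _ fun t => ?_
      refine measurable_to_bool ?_
      have : (fun y : ι → ℝ => @decide (y t.1.1 = -1) (Classical.propDecidable _)) ⁻¹' {true} =
          (fun y : ι → ℝ => y t.1.1) ⁻¹' {-1} := by
        ext y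
        simp
      rw [this]
      exact measurable_pi_apply _ (measurableSet_singleton _))
  exact h

/-- the mean of a product -/
theorem Psi_mean {P : Measure Ω} [IsProbabilityMeasure P] {ε : ι → ℕ → Ω → ℝ}
    (hm : ∀ j p, Measurable (ε j p))
    (hind : iIndepFun (fun (p : ℕ) (ω : Ω) (i : ι) => ε i p ω) P)
    (T : Finset (ι × ℕ)) (n : ℕ) (b : ℕ → ℝ) (Q : Finset ℕ) :
    (∀ q ∈ Q, |∫ ω, phi T q n (XX ε T q ω) ∂P| ≤ b q) → ∀ x : ℕ → T → Bool,
    |∫ ω, Psi T (mix (XX ε T) Q x ω) n ∂P| ≤ ∏ q ∈ Q, b q := by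
  classical
  induction Q using Finset.induction_on with
  | empty =>
    intro _ x
    simp [mix_empty, Psi_abs]
  | insert q s hq ih =>
    intro hb x
    have hs := ih (fun p hp => hb p (mem_insert_of_mem hp))
    have hX := XX_meas hm T
    have hI := XX_indep hind T
    rw [split hX hI q s hq (fun y => Psi T y n) x]
    have h1 : ∀ a, ∫ ω, Psi T (mix (XX ε T) s (Function.update x q a) ω) n ∂P =
        phi T q n a *
          ∫ ω, Psi T (mix (XX ε T) s (Function.update x q (fun _ => false)) ω) n ∂P := by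
      intro a
      rw [← integral_const_mul]
      refine integral_congr_ae (Filter.Eventually.of_forall fun ω => ?_)
      simp only
      rw [mix_update _ q s hq, Psi_update, mix_update _ q s hq]
    have h2 : ∑ a, P.real (XX ε T q ⁻¹' {a}) *
        ∫ ω, Psi T (mix (XX ε T) s (Function.update x q a) ω) n ∂P =
        (∫ ω, phi T q n (XX ε T q ω) ∂P) *
          ∫ ω, Psi T (mix (XX ε T) s (Function.update x q (fun _ => false)) ω) n ∂P := by
      have h3 := split hX hI q ∅ (notMem_empty q) (fun y => phi T q n (y q)) x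
      have h4 : ∀ ω, mix (XX ε T) (insert q ∅) x ω q = XX ε T q ω := by
        intro ω
        unfold mix
        rw [if_pos (mem_insert_self _ _)]
      simp only [h4, mix_empty, Function.update_self, integral_const, probReal_univ, smul_eq_mul,
        one_mul] at h3
      rw [h3, sum_mul]
      refine sum_congr rfl fun a _ => ?_
      rw [h1 a]
      ring
    rw [h2, abs_mul, prod_insert hq]
    exact mul_le_mul (hb q (mem_insert_self _ _)) (hs _) (abs_nonneg _)
      ((abs_nonneg _).trans (hb q (mem_insert_self _ _)))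

open Classical in
/-- the functions of the pattern with the shift `h` -/
noncomputable def lay (T : Finset (ι × ℕ)) (h : ℕ) : Finset ι :=
  (T.filter (fun t => t.2 = h)).image Prod.fst

theorem fac_one (h0 h B : ℕ) (hh0 : h0 ≤ B) (hh : h ≤ B) (q m : ℕ)
    (hq : q.Prime) (hqB : B < q) (he : Ev (lf h0) q m) :
    (m + 1 + h).factorization q = if h = h0 then 1 else 0 := by
  have h1 := vv_one {h0, h} h0 B (by simp) (by
    intro k hk
    rw [mem_insert, mem_singleton] at hk
    rcases hk with rfl | rfl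
    · exact hh0
    · exact hh) q m hq hqB he
  have h2 := vv_one {h0} h0 B (by simp) (by
    intro k hk
    rw [mem_singleton] at hk
    rw [hk]
    exact hh0) q m hq hqB he
  unfold vv at h1 h2
  rw [sum_singleton] at h2
  split_ifs with hc
  · rw [hc]; exact h2
  · rw [sum_pair (fun h => hc h.symm), h2] at h1
    omega

theorem phi_lay {ε : ι → ℕ → Ω → ℝ} (he : ∀ j p ω, ε j p ω = 1 ∨ ε j p ω = -1)
    (T : Finset (ι × ℕ)) (h0 B : ℕ) (hh0 : h0 ≤ B) (hB : ∀ t ∈ T, t.2 ≤ B) (q m : ℕ)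
    (hq : q.Prime) (hqB : B < q) (hev : Ev (lf h0) q m) (ω : Ω) :
    phi T q (m + 1) (XX ε T q ω) = ∏ i ∈ lay T h0, ε i q ω := by
  classical
  unfold phi lay
  have h1 : ∀ t : T, sgn (XX ε T q ω t) ^ (m + 1 + t.1.2).factorization q =
      if t.1.2 = h0 then ε t.1.1 q ω else 1 := by
    intro t
    rw [fac_one h0 t.1.2 B hh0 (hB t.1 t.2) q m hq hqB hev, sgn_XX he]
    split_ifs
    · rw [pow_one]
    · rw [pow_zero]
  rw [prod_congr rfl fun t _ => h1 t,
    prod_coe_sort T (fun t => if t.2 = h0 then ε t.1 q ω else 1), ← prod_filter, prod_image]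
  intro a ha b hb hab
  rw [mem_coe, mem_filter] at ha hb
  exact Prod.ext hab (ha.2.trans hb.2.symm)

open Classical in
/-- **one scale** for random sign vectors -/
theorem gscale {P : Measure Ω} [IsProbabilityMeasure P] {ε : ι → ℕ → Ω → ℝ}
    (hm : ∀ j p, Measurable (ε j p)) (he : ∀ j p ω, ε j p ω = 1 ∨ ε j p ω = -1)
    (hind : iIndepFun (fun (p : ℕ) (ω : Ω) (i : ι) => ε i p ω) P)
    (T : Finset (ι × ℕ)) (h0 B : ℕ)
    (ht : (lay T h0).Nonempty) (hB : ∀ t ∈ T, t.2 ≤ B) (η : ℝ)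
    (Q : Finset ℕ) (y z N : ℕ) (hη : 0 < η) (hy : 1 ≤ y)
    (hQ : ∀ q ∈ Q, q.Prime ∧ y < q ∧ B < q ∧ q ≤ z) (hz : z ^ 4 ≤ N)
    (hS : 2 + 160 / η ≤ ∑ q ∈ Q, (1 - |∫ ω, ∏ i ∈ lay T h0, ε i q ω ∂P|) / q)
    (G : ℕ → ℝ) (hG : ∀ m, |G m| ≤ 1) :
    P {ω | η * N < |∑ m ∈ range N, G m * WW ε T (m + 1) ω|} ≤
      ENNReal.ofReal (2 * Real.exp (-(η ^ 2 * y / (128 * (T.card : ℝ) ^ 2)))) := by
  obtain ⟨w, hw⟩ : ∃ w : ℕ → ℝ, w = fun q => 1 - |∫ ω, ∏ i ∈ lay T h0, ε i q ω ∂P| := ⟨_, rfl⟩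
  have hw' : ∀ q, w q = 1 - |∫ ω, ∏ i ∈ lay T h0, ε i q ω ∂P| := fun q => by rw [hw]
  simp only [← hw'] at hS
  obtain ⟨k, hk⟩ : ∃ k : ℝ, k = T.card := ⟨_, rfl⟩
  rw [← hk]
  obtain ⟨i0, hi0⟩ := ht
  obtain ⟨t0, ht0⟩ : ∃ t0, t0 ∈ T ∧ t0.2 = h0 := by
    unfold lay at hi0
    rw [mem_image] at hi0
    obtain ⟨t, h1, _⟩ := hi0
    exact ⟨t, (mem_filter.1 h1).1, (mem_filter.1 h1).2⟩
  have hh0 : h0 ≤ B := by rw [← ht0.2]; exact hB t0 ht0.1
  have hk1 : 1 ≤ k := by
    rw [hk]
    have : 1 ≤ T.card := card_pos.2 ⟨t0, ht0.1⟩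
    exact_mod_cast this
  obtain ⟨S1, hS1⟩ : ∃ S1, S1 = ∑ q ∈ Q, w q / q := ⟨_, rfl⟩
  rw [← hS1] at hS
  have hpos : 0 < 160 / η := by positivity
  have hS2 : 2 ≤ S1 := by linarith
  have hne : Q.Nonempty := by
    rw [nonempty_iff_ne_empty]
    rintro rfl
    rw [sum_empty] at hS1
    linarith
  obtain ⟨q₀, hq₀⟩ := hne
  have hz1 : 1 ≤ z := (hQ q₀ hq₀).1.one_lt.le.trans (hQ q₀ hq₀).2.2.2
  have hx1 : 1 ≤ N := (Nat.one_le_pow _ _ hz1).trans hz
  have hx0 : (0:ℝ) < N := by exact_mod_cast hx1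
  have hy0 : (0:ℝ) < y := by exact_mod_cast hy
  have hqz : ∀ q ∈ Q, q ^ 2 ≤ N := by
    intro q hq
    refine le_trans ?_ hz
    calc q ^ 2 ≤ z ^ 2 := Nat.pow_le_pow_left (hQ q hq).2.2.2 2
      _ ≤ z ^ 4 := Nat.pow_le_pow_right hz1 (by norm_num)
  obtain ⟨F, hF⟩ : ∃ F : (ℕ → T → Bool) → ℝ, ∀ x, F x = ∑ m ∈ range N, G m *
    Psi T x (m + 1) := ⟨_, fun _ => rfl⟩
  -- differences
  have hdiff : ∀ q ∈ Q, ∀ x a, |F (Function.update x q a) - F x| ≤ 4 * N * k / q := by
    intro q hq x a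
    rw [hF, hF, ← sum_sub_distrib]
    refine (abs_sum_le_sum_abs _ _).trans ?_
    have h1 : ∀ m ∈ range N, |G m * Psi T (Function.update x q a) (m + 1) -
        G m * Psi T x (m + 1)| ≤
        ∑ t ∈ T, if (q : ℤ) ∣ (lf t.2).eval ((m : ℤ) + 1) then (2:ℝ) else 0 := by
      intro m _
      rw [← mul_sub, abs_mul]
      have hnn : ∀ t ∈ T, 0 ≤ (if (q : ℤ) ∣ (lf t.2).eval ((m : ℤ) + 1) then (2:ℝ) else 0) :=
        fun t _ => by split_ifs <;> norm_num
      by_cases hex : ∃ t ∈ T, q ∣ m + 1 + t.2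
      · obtain ⟨t, htT, hd⟩ := hex
        have h2 : |Psi T (Function.update x q a) (m + 1) - Psi T x (m + 1)| ≤ 2 := by
          refine (abs_sub _ _).trans ?_
          rw [Psi_abs, Psi_abs]
          norm_num
        have h3 := mul_le_mul (hG m) h2 (abs_nonneg _) zero_le_one
        have h4 := single_le_sum hnn htT
        have h5 : (q : ℤ) ∣ (lf t.2).eval ((m : ℤ) + 1) := by
          rw [lf_eval]; exact_mod_cast hd
        rw [if_pos h5] at h4
        linarith
      · push Not at hex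
        rw [Psi_same T x q (m + 1) a hex, sub_self, abs_zero, mul_zero]
        exact sum_nonneg hnn
    refine (sum_le_sum h1).trans ?_
    rw [sum_comm]
    have h2 : ∀ t ∈ T, ∑ m ∈ range N, (if (q : ℤ) ∣ (lf t.2).eval ((m : ℤ) + 1) then (2:ℝ)
        else 0) ≤ 4 * N / q := by
      intro t _
      rw [← sum_filter, sum_const, nsmul_eq_mul]
      have h2 := dvd_count (lf t.2) q (hQ q hq).1 (lf_simple t.2 q (hQ q hq).1) N (hqz q hq)
      rw [lf_deg] at h2
      have e : 4 * (N:ℝ) / q = 2 * N * ((1 : ℕ) : ℝ) / q * 2 := by push_cast; ring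
      rw [e]
      exact mul_le_mul_of_nonneg_right h2 (by norm_num)
    refine (sum_le_sum h2).trans (le_of_eq ?_)
    rw [sum_const, nsmul_eq_mul, ← hk]
    ring
  -- the variance proxy
  have hV : ∑ q ∈ Q, (4 * (N:ℝ) * k / q) ^ 2 ≤ 16 * (N:ℝ) ^ 2 * k ^ 2 / y := by
    have h1 := sum_inv_sq Q y hy (fun q hq => (hQ q hq).2.1)
    have e : ∀ q ∈ Q, (4 * (N:ℝ) * k / q) ^ 2 = 16 * (N:ℝ) ^ 2 * k ^ 2 * (1 / (q:ℝ) ^ 2) := by
      intro q _
      ring
    rw [sum_congr rfl e, ← mul_sum, div_eq_mul_one_div (16 * (N:ℝ) ^ 2 * k ^ 2)]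
    exact mul_le_mul_of_nonneg_left h1 (by positivity)
  -- the mean
  have hprodabs : ∀ q ω, |∏ i ∈ lay T h0, ε i q ω| = 1 := by
    intro q ω
    rw [abs_prod]
    refine prod_eq_one fun i _ => ?_
    rcases he i q ω with h | h <;> rw [h] <;> simp
  have hintabs : ∀ f : Ω → ℝ, (∀ ω, |f ω| ≤ 1) → |∫ ω, f ω ∂P| ≤ 1 := by
    intro f hf
    have h := norm_integral_le_of_norm_le_const (μ := P) (f := f) (C := 1)
      (Filter.Eventually.of_forall fun ω => by rw [Real.norm_eq_abs]; exact hf ω)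
    simpa using h
  have hw0 : ∀ q ∈ Q, 0 ≤ w q := by
    intro q _
    rw [hw']
    have := hintabs (fun ω => ∏ i ∈ lay T h0, ε i q ω) (fun ω => (hprodabs q ω).le)
    linarith
  have hw1 : ∀ q ∈ Q, w q ≤ 1 := by
    intro q _
    rw [hw']
    have := abs_nonneg (∫ ω, ∏ i ∈ lay T h0, ε i q ω ∂P)
    linarith
  have hX := XX_meas hm T
  have hI := XX_indep hind T
  have hmean : ∀ x, |∫ ω, F (mix (XX ε T) Q x ω) ∂P| ≤ η * N / 2 := by
    intro x
    have e1 : ∫ ω, F (mix (XX ε T) Q x ω) ∂P = ∑ m ∈ range N, G m *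
        ∫ ω, Psi T (mix (XX ε T) Q x ω) (m + 1) ∂P := by
      simp only [hF]
      rw [integral_finsetSum _ fun m _ =>
        (mix_int hX Q (fun y => G m * Psi T y (m + 1)) x)]
      exact sum_congr rfl fun m _ => integral_const_mul _ _
    rw [e1]
    refine (abs_sum_le_sum_abs _ _).trans ?_
    have h2 : ∀ m ∈ range N, |G m * ∫ ω, Psi T (mix (XX ε T) Q x ω) (m + 1) ∂P| ≤
        ∏ q ∈ Q, (if Ev (lf h0) q m then 1 - w q else 1) := by
      intro m _
      rw [abs_mul]
      have h3 := Psi_mean hm hind T (m + 1) (fun q => if Ev (lf h0) q m then 1 - w q else 1) Q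
        (fun q hq => by
          beta_reduce
          split_ifs with hev
          · rw [hw', integral_congr_ae (Filter.Eventually.of_forall fun ω =>
              phi_lay he T h0 B hh0 hB q m (hQ q hq).1 (hQ q hq).2.2.1 hev ω)]
            linarith
          · exact hintabs _ (fun ω => (phi_abs T q (m + 1) _).le)) x
      calc |G m| * |∫ ω, Psi T (mix (XX ε T) Q x ω) (m + 1) ∂P|
          ≤ 1 * |∫ ω, Psi T (mix (XX ε T) Q x ω) (m + 1) ∂P| :=
            mul_le_mul_of_nonneg_right (hG m) (abs_nonneg _)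
        _ ≤ _ := by rw [one_mul]; exact h3
    refine (sum_le_sum h2).trans ?_
    have h3 := few_w h0 Q z N w hw0 hw1
      (fun q hq => ⟨(hQ q hq).1, (hQ q hq).2.2.2⟩) hz (by rw [← hS1]; exact hS2)
    rw [← hS1] at h3
    refine h3.trans ?_
    have h4 : 80 / S1 ≤ η / 2 := by
      rw [div_le_div_iff₀ (by linarith) (by norm_num)]
      have h5 : 160 / η ≤ S1 := by linarith
      rw [div_le_iff₀ hη] at h5
      linarith
    calc (N:ℝ) * (80 / S1) ≤ N * (η / 2) := mul_le_mul_of_nonneg_left h4 hx0.le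
      _ = η * N / 2 := by ring
  -- the bound for fixed signs outside `Q`
  obtain ⟨δ, hδ⟩ : ∃ δ, δ = 2 * Real.exp (-(η ^ 2 * y / (128 * k ^ 2))) := ⟨_, rfl⟩
  have hfix : ∀ x, P.real {ω | η * N < |F (mix (XX ε T) Q x ω)|} ≤ δ := by
    intro x
    have key := gtail hX hI (fun q => 4 * (N:ℝ) * k / q) F Q hdiff x
      (16 * (N:ℝ) ^ 2 * k ^ 2 / y) (η * N / 2) (by positivity) (by positivity) hV (hmean x)
    have e1 : 2 * (η * (N:ℝ) / 2) = η * N := by ring
    have e2 : (η * (N:ℝ) / 2) ^ 2 / (2 * (16 * (N:ℝ) ^ 2 * k ^ 2 / y)) =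
        η ^ 2 * y / (128 * k ^ 2) := by
      field_simp
      ring
    rw [e1, e2] at key
    rw [hδ]
    exact key
  -- all the signs
  obtain ⟨D, hD⟩ : ∃ D : ℕ, D = N + B + z := ⟨_, rfl⟩
  have hQR : Q ⊆ range (D + 1) := by
    intro q hq
    rw [mem_range]
    have := (hQ q hq).2.2.2
    omega
  obtain ⟨F1, hF1⟩ : ∃ F1 : (ℕ → T → Bool) → ℝ, ∀ x, F1 x = if η * N < |F x| then 1 else 0 :=
    ⟨_, fun _ => rfl⟩
  have hconv : ∀ (R : Finset ℕ) (x : ℕ → T → Bool), ∫ ω, F1 (mix (XX ε T) R x ω) ∂P =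
      P.real {ω | η * N < |F (mix (XX ε T) R x ω)|} := by
    intro R x
    have hms : MeasurableSet {ω | η * N < |F (mix (XX ε T) R x ω)|} :=
      measurableSet_lt measurable_const (mix_measurable hX R (fun y => |F y|) x)
    have e : (fun ω => F1 (mix (XX ε T) R x ω)) =
        {ω | η * N < |F (mix (XX ε T) R x ω)|}.indicator (fun _ => (1:ℝ)) := by
      funext ω
      rw [hF1]
      by_cases h : η * N < |F (mix (XX ε T) R x ω)|
      · rw [if_pos h, Set.indicator_of_mem (by exact h)]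
      · rw [if_neg h, Set.indicator_of_notMem (by exact h)]
    rw [e, integral_indicator_const _ hms, smul_eq_mul, mul_one]
  have hall := gextend hX hI F1 δ Q (fun x => by rw [hconv]; exact hfix x)
    (range (D + 1) \ Q) disjoint_sdiff (fun _ _ => false)
  rw [union_sdiff_of_subset hQR, hconv] at hall
  have hset : {ω | η * N < |∑ m ∈ range N, G m * WW ε T (m + 1) ω|} =
      {ω | η * N < |F (mix (XX ε T) (range (D + 1)) (fun _ _ => false) ω)|} := by
    ext ω
    simp only [Set.mem_ofPred_eq]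
    rw [hF]
    have e : ∑ m ∈ range N, G m * WW ε T (m + 1) ω = ∑ m ∈ range N, G m *
        Psi T (mix (XX ε T) (range (D + 1)) (fun _ _ => false) ω) (m + 1) := by
      refine sum_congr rfl fun m hm1 => ?_
      rw [mem_range] at hm1
      rw [WW_eq he T D (m + 1) (fun t ht => by have := hB t ht; omega)]
    rw [e]
  rw [hset, ← hδ]
  rw [← ofReal_measureReal (measure_ne_top _ _)]
  exact ENNReal.ofReal_le_ofReal hall

end Pool.Agent.U463.RB
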