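import Pool.Agent.U463.RB.GLim
import Pool.Agent.TH573.JF.Fam

/-!
# Joint Furstenberg systems under the sharp condition

The statements and proofs of `random_corr` and `structure_all` of `Pool.Agent.TH573.JF` with the
new condition and the new estimate `as_sharp`.
-/

set_option autoImplicit false

namespace Pool.Agent.U463.RB

open Finset Filter MeasureTheory ProbabilityTheory
open Pool.Agent.W257.FS
open Pool.Agent.W136.RF (cm cm_mul cm_abs WW)
open Pool.Agent.TH573.JF

variable {ι : Type} {ℓ : ℕ}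

/-- the random correlations vanish, also in residue classes -/
theorem grandom_corr {Ω : Type} [MeasurableSpace Ω] {P : Measure Ω} [IsProbabilityMeasure P]
    {e : ι → ℕ → Ω → ℝ}
    (hm : ∀ j p, Measurable (e j p)) (he : ∀ j p ω, e j p ω = 1 ∨ e j p ω = -1)
    (hind : iIndepFun (fun (p : ℕ) (ω : Ω) (i : ι) => e i p ω) P)
    (hS : ∀ B : Finset ι, B.Nonempty → WHeavy (fun q => 1 - |∫ ω, ∏ i ∈ B, e i q ω ∂P|))
    {g : ι → ℕ → ℝ} (hg : ∀ i, SignMul (g i)) (A : Fin ℓ → Finset ι)
    {H : Fin ℓ → ℕ → ℝ} (hH : ∀ j, SignMul (H j)) {L : ℕ} (E : Fin L → Finset (Fin ℓ))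
    (hne : ∃ t, (BB A (E t)).Nonempty) (Q r : ℕ) :
    ∀ᵐ ω ∂P, Tendsto (fun X : ℕ => (∑ n ∈ Ioc 0 X, (if n % Q = r then
      (∏ t : Fin L, ∏ k ∈ E t, fam (fun i => rf (g i) (fun p => e i p ω)) A H k (n + (t : ℕ)))
        else 0) / n) / Real.log X) atTop (nhds 0) := by
  classical
  obtain ⟨t, i, hi⟩ := hne
  have hT : (i, (t : ℕ)) ∈ TT A E := by
    unfold TT
    rw [mem_biUnion]
    exact ⟨t, mem_univ _, mem_image.2 ⟨i, hi, rfl⟩⟩
  have h1 := gas_sharp hm he hind hS (TT A E) ⟨_, hT⟩
    (fun n => if n % Q = r then cc g A H E n else 0) (fun n => by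
      beta_reduce
      split_ifs
      · exact cc_abs hg A hH E n
      · simp)
  filter_upwards [h1] with ω hω
  refine hω.congr fun X => ?_
  have hIoc : Icc 1 X = Ioc 0 X := by
    ext n
    simp only [mem_Icc, mem_Ioc]
    omega
  rw [hIoc]
  congr 1
  refine sum_congr rfl fun n hn => ?_
  rw [corr_eq e he hg A H E ω (mem_Ioc.1 hn).1]
  split_ifs
  · rfl
  · rw [zero_mul]

/-- the structure theorem -/
theorem gstructure_all {Ω : Type} [MeasurableSpace Ω] {P : Measure Ω} [IsProbabilityMeasure P]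
    [Countable ι] {e : ι → ℕ → Ω → ℝ}
    (hm : ∀ j p, Measurable (e j p)) (he : ∀ j p ω, e j p ω = 1 ∨ e j p ω = -1)
    (hind : iIndepFun (fun (p : ℕ) (ω : Ω) (i : ι) => e i p ω) P)
    (hS : ∀ B : Finset ι, B.Nonempty → WHeavy (fun q => 1 - |∫ ω, ∏ i ∈ B, e i q ω ∂P|))
    {g : ι → ℕ → ℝ} (hg : ∀ i, SignMul (g i)) {h : ℕ → ℕ → ℝ} (hh : ∀ s, SignMul (h s))
    (hχ : ∀ s, Near (h s)) :
    ∀ᵐ ω ∂P, ∀ (ℓ : ℕ) (A : Fin ℓ → Finset ι) (s : Fin ℓ → ℕ) (u : Fin ℓ → ℕ → ℝ),
      (∀ j, SignMul (u j)) → (∀ j, Pret (u j)) →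
      Structure ℓ (fun j n => (((∏ i ∈ A j, rf (g i) (fun p => e i p ω) n) *
        (h (s j) n * u j n) : ℝ) : ℂ)) := by
  classical
  have hall : ∀ᵐ ω ∂P, ∀ (ℓ : ℕ) (A : Fin ℓ → Finset ι) (s : Fin ℓ → ℕ) (L : ℕ)
      (E : Fin L → Finset (Fin ℓ)) (Q r : ℕ), (∃ t, (BB A (E t)).Nonempty) →
      Tendsto (fun X : ℕ => (∑ n ∈ Ioc 0 X, (if n % Q = r then
      (∏ t : Fin L, ∏ k ∈ E t, fam (fun i => rf (g i) (fun p => e i p ω)) A
        (fun j => h (s j)) k (n + (t : ℕ))) else 0) / n) / Real.log X) atTop (nhds 0) := by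
    rw [ae_all_iff]
    intro ℓ
    rw [ae_all_iff]
    intro A
    rw [ae_all_iff]
    intro s
    rw [ae_all_iff]
    intro L
    rw [ae_all_iff]
    intro E
    rw [ae_all_iff]
    intro Q
    rw [ae_all_iff]
    intro r
    by_cases hne : ∃ t, (BB A (E t)).Nonempty
    · filter_upwards [grandom_corr hm he hind hS hg A (fun j => hh (s j)) E hne Q r] with ω hω _
      exact hω
    · exact Eventually.of_forall fun ω h => absurd h hne
  have hC := Pool.Agent.W479.TLClaim.claim Pool.Agent.W591.TL.law Pool.Agent.W975.TL.tail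
  have hN := Pool.Agent.W290.TL.near
  filter_upwards [hall] with ω hω ℓ A s u huS huP
  obtain ⟨H, hHdef⟩ : ∃ H : Fin ℓ → ℕ → ℝ, H = fun j n => h (s j) n * u j n := ⟨_, rfl⟩
  obtain ⟨r, hr⟩ : ∃ r : ι → ℕ → ℝ, r = fun i => rf (g i) (fun p => e i p ω) := ⟨_, rfl⟩
  have hω' := hω ℓ A s
  rw [← hr] at hω'
  have hrS : ∀ i, SignMul (r i) := by
    intro i
    rw [hr]
    exact rf_signMul (hg i) (fun p => he i p ω)
  have hHS : ∀ j, SignMul (H j) := by
    intro j
    rw [hHdef]
    exact signMul_mul (hh (s j)) (huS j)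
  have hHN : ∀ j, Near (H j) := by
    intro j
    rw [hHdef]
    exact near_mul (hχ (s j)) (near_of_pret (huS j) (huP j))
  choose q χ hq hlim using hHN
  obtain ⟨Q, χ', hQ, hbl⟩ := common (f := H) q hq χ (fun j => by
    refine (hlim j).congr fun X => ?_
    congr 1)
  obtain ⟨G, hG⟩ : ∃ G : Finset (Finset (Fin ℓ)), G = univ.filter (fun S => BB A S = ∅ ∧
      Summable (fun p : Nat.Primes =>
      (1 - (∏ i ∈ S, ((H i p : ℂ) * star (χ' i ((p : ℕ) : ZMod Q)))).re) / ((p : ℕ) : ℝ))) :=
    ⟨_, rfl⟩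
  have hfam := fam_signMul hrS A hHS
  refine gen Pool.Agent.W864.FS.CL.main Pool.Agent.W337.FS.main Pool.Agent.W496.FS.RS.main
    (f := fam r A H) hfam G ?_ ?_ fun i n _ => ?_
  · intro S hS
    rw [hG, mem_filter] at hS
    refine (pret hHS hQ χ' S hS.2.2).congr fun n hn => ?_
    rw [fam_prod hrS A H S hn, hS.2.1, prod_empty, one_mul]
  · intro L E j0 hj0
    by_cases hne : ∃ t, (BB A (E t)).Nonempty
    · -- a random factor
      have hLPM : LPm (fun n => ∏ t : Fin L, ∏ k ∈ E t, u k (n + (t : ℕ))) :=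
        LPm.prod univ _ fun t _ =>
          (LPm.prod (E t) _ fun k _ => lpm_of_pret (huS k) (huP k)).shift t
      have h1 := lp_corr (a := fun n => if n = 0 then 0 else
        ∏ t : Fin L, ∏ k ∈ E t, fam r A (fun j => h (s j)) k (n + (t : ℕ))) (fun n => by
          beta_reduce
          split_ifs with h0
          · simp
          · exact (fam_abs hrS A (fun j => hh (s j)) E (by omega)).le) hLPM (fun Q' r' hQ' => by
          refine (hω' L E Q' r' hne).congr fun X => ?_
          congr 1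
          refine sum_congr rfl fun n hn => ?_
          have hn1 : n ≠ 0 := by have := (mem_Ioc.1 hn).1; omega
          beta_reduce
          rw [if_neg hn1])
      refine h1.congr fun X => ?_
      unfold LCor
      congr 1
      refine sum_congr rfl fun n hn => ?_
      have hn1 : n ≠ 0 := by have := (mem_Ioc.1 hn).1; omega
      beta_reduce
      rw [if_neg hn1]
      congr 1
      rw [← prod_mul_distrib]
      refine prod_congr rfl fun t _ => ?_
      rw [← prod_mul_distrib]
      refine prod_congr rfl fun k _ => ?_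
      rw [hHdef]
      unfold fam
      ring
    · push Not at hne
      have hns : ¬ Summable (fun p : Nat.Primes =>
          (1 - (∏ i ∈ E j0, ((H i p : ℂ) * star (χ' i ((p : ℕ) : ZMod Q)))).re) /
            ((p : ℕ) : ℝ)) := by
        intro hs
        apply hj0
        rw [hG, mem_filter]
        exact ⟨mem_univ _, hne j0, hs⟩
      have h1 := corr_zero hC hN hHS hQ χ' hbl E j0 hns
      have hab : ∀ {m : ℕ}, 1 ≤ m → ∀ j, |H j m| = 1 := by
        intro m hm j
        rcases (hHS j).val m hm with h | h <;> rw [h] <;> simp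
      have h2 := log_mean (a := fun n => if n = 0 then 0 else
        ∏ j, ∏ i ∈ E j, H i (n + ((j : Fin L) : ℕ))) (fun n => by
          beta_reduce
          split_ifs with h0
          · simp
          · rw [Finset.abs_prod]
            refine (prod_eq_one fun j _ => ?_).le
            rw [Finset.abs_prod]
            exact prod_eq_one fun i _ => hab (by omega) i) (h1.congr fun X => by
          congr 1
          refine sum_congr rfl fun n hn => ?_
          rw [if_neg (by have := (mem_Ioc.1 hn).1; omega)])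
      refine h2.congr fun X => ?_
      unfold LCor
      congr 1
      refine sum_congr rfl fun n hn => ?_
      have hn1 : 1 ≤ n := (mem_Ioc.1 hn).1
      rw [if_neg (by omega)]
      congr 1
      refine prod_congr rfl fun j _ => ?_
      rw [fam_prod hrS A H (E j) (by omega), hne j, prod_empty, one_mul]
  · rw [hHdef, hr]
    rfl

end Pool.Agent.U463.RB
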