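import Pool.Agent.U463.RB.GBad

/-!
# Random sign vectors: logarithmic averages
-/

set_option autoImplicit false

namespace Pool.Agent.U463.RB

open Finset MeasureTheory ProbabilityTheory Filter
open Pool.Agent.W136.RF (cm cm_range cm_abs WW WW_abs WW_meas)
open Pool.Agent.U463.RS (bw bw_le bs bs_eq bs_le badb llim)
open scoped ENNReal

theorem prod_or {Ω ι : Type*} {ε : ι → ℕ → Ω → ℝ} (he : ∀ j p ω, ε j p ω = 1 ∨ ε j p ω = -1)
    (B : Finset ι) (p : ℕ) (ω : Ω) : ∏ i ∈ B, ε i p ω = 1 ∨ ∏ i ∈ B, ε i p ω = -1 := by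
  classical
  induction B using Finset.induction_on with
  | empty => exact Or.inl prod_empty
  | insert i s hi ih =>
    rw [prod_insert hi]
    rcases he i p ω with h | h <;> rcases ih with h' | h' <;> rw [h, h'] <;> norm_num

theorem lay_nonempty {ι : Type*} {T : Finset (ι × ℕ)} {t : ι × ℕ} (ht : t ∈ T) :
    (lay T t.2).Nonempty := by
  classical
  unfold lay
  exact ⟨t.1, mem_image.2 ⟨t, mem_filter.2 ⟨ht, rfl⟩, rfl⟩⟩

theorem of_lay {ι : Type*} {T : Finset (ι × ℕ)} {h : ℕ} (ht : (lay T h).Nonempty) : T.Nonempty := by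
  classical
  obtain ⟨i, hi⟩ := ht
  unfold lay at hi
  rw [mem_image] at hi
  obtain ⟨t, h1, _⟩ := hi
  exact ⟨t, (mem_filter.1 h1).1⟩

variable {Ω ι : Type*} [MeasurableSpace Ω]

open Classical in
/-- one block -/
theorem gbscale {P : Measure Ω} [IsProbabilityMeasure P] {ε : ι → ℕ → Ω → ℝ}
    (hm : ∀ j p, Measurable (ε j p)) (he : ∀ j p ω, ε j p ω = 1 ∨ ε j p ω = -1)
    (hind : iIndepFun (fun (p : ℕ) (ω : Ω) (i : ι) => ε i p ω) P) (T : Finset (ι × ℕ)) (h0 B : ℕ)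
    (ht : (lay T h0).Nonempty) (hB : ∀ t ∈ T, t.2 ≤ B) (v : ℕ → ℝ) (hv : ∀ m, |v m| ≤ 1)
    (η : ℝ) (hη : 0 < η) (K : ℕ) (hK1 : 1 ≤ K) (hKB : B ≤ K)
    (hK : 256 * (T.card : ℝ) ^ 2 / η ^ 2 ≤ K) (i j : ℕ) (hi : 1 ≤ i)
    (hS : 2 + 160 / η ≤
      ∑ q ∈ (Icc 1 (2 ^ (j / 4))).filter (fun q => q.Prime ∧ K * (Nat.log 2 i + 1) < q),
        (1 - |∫ ω, ∏ i ∈ lay T h0, ε i q ω ∂P|) / q) :
    P {ω | 2 * η < |bs (fun m => v m * WW ε T (m + 1) ω) j|}
      ≤ ENNReal.ofReal (2 * (1 / (i : ℝ) ^ 2)) := by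
  obtain ⟨Q₀, hQ₀⟩ : ∃ Q₀ : Finset ℕ, Q₀ = (Icc 1 (2 ^ (j / 4))).filter
    (fun q => q.Prime ∧ K * (Nat.log 2 i + 1) < q) := ⟨_, rfl⟩
  rw [← hQ₀] at hS
  have hKy : K ≤ K * (Nat.log 2 i + 1) := Nat.le_mul_of_pos_right _ (Nat.succ_pos _)
  have hmem : ∀ q ∈ Q₀, q.Prime ∧ K * (Nat.log 2 i + 1) < q ∧ B < q ∧ q ≤ 2 ^ (j / 4) := by
    intro q hq
    rw [hQ₀, Finset.mem_filter, Finset.mem_Icc] at hq
    exact ⟨hq.2.1, hq.2.2, by omega, hq.1.2⟩
  have hz : (2 ^ (j / 4)) ^ 4 ≤ 2 ^ j * 2 := by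
    rw [← pow_mul]
    calc 2 ^ (j / 4 * 4) ≤ 2 ^ j := Nat.pow_le_pow_right (by norm_num) (Nat.div_mul_le_self j 4)
      _ ≤ 2 ^ j * 2 := Nat.le_mul_of_pos_right _ (by norm_num)
  have hy : 1 ≤ K * (Nat.log 2 i + 1) := Nat.mul_pos hK1 (Nat.succ_pos _)
  have hT0 : (0:ℝ) < T.card := by
    have : 0 < T.card := card_pos.2 (of_lay ht)
    exact_mod_cast this
  have hexp : Real.exp (-(η ^ 2 * ((K * (Nat.log 2 i + 1) : ℕ) : ℝ) /
      (128 * (T.card : ℝ) ^ 2))) ≤ 1 / (i : ℝ) ^ 2 := by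
    refine le_trans (Real.exp_le_exp.2 ?_) (Pool.Agent.H220M.M6.exp_le i hi)
    apply neg_le_neg
    rw [div_le_iff₀ (by positivity)] at hK
    rw [le_div_iff₀ (by positivity)]
    push_cast
    have h1 : (0:ℝ) ≤ (Nat.log 2 i : ℝ) + 1 := by positivity
    nlinarith [mul_le_mul_of_nonneg_right hK h1]
  have hset : {ω | 2 * η < |bs (fun m => v m * WW ε T (m + 1) ω) j|} =
      {ω | η * ((2 ^ j * 2 : ℕ) : ℝ) < |∑ m ∈ range (2 ^ j * 2), bw v j m *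
        WW ε T (m + 1) ω|} := by
    ext ω
    simp only [Set.mem_ofPred_eq]
    rw [bs_eq v (fun m => WW ε T (m + 1) ω) j,
      abs_mul, abs_of_pos (by positivity : (0:ℝ) < 2 ^ j)]
    push_cast
    have hp : (0:ℝ) < 2 ^ j := by positivity
    constructor
    · intro h
      nlinarith [mul_lt_mul_of_pos_left h hp]
    · intro h
      have e : η * (2 ^ j * 2) = 2 ^ j * (2 * η) := by ring
      rw [e] at h
      exact lt_of_mul_lt_mul_left h hp.le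
  rw [hset]
  refine (gscale hm he hind T h0 B ht hB η Q₀ (K * (Nat.log 2 i + 1)) (2 ^ (j / 4))
    (2 ^ j * 2) hη hy hmem hz hS (bw v j) (bw_le v hv j)).trans ?_
  apply ENNReal.ofReal_le_ofReal
  linarith

open Classical in
/-- one value of `D` -/
theorem gbone {P : Measure Ω} [IsProbabilityMeasure P] {ε : ι → ℕ → Ω → ℝ}
    (hm : ∀ j p, Measurable (ε j p)) (he : ∀ j p ω, ε j p ω = 1 ∨ ε j p ω = -1)
    (hind : iIndepFun (fun (p : ℕ) (ω : Ω) (i : ι) => ε i p ω) P) (T : Finset (ι × ℕ)) (h0 B : ℕ)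
    (ht : (lay T h0).Nonempty) (hB : ∀ t ∈ T, t.2 ≤ B)
    (hS : WHeavy (fun q => 1 - |∫ ω, ∏ i ∈ lay T h0, ε i q ω ∂P|)) (v : ℕ → ℝ) (hv : ∀ m, |v m| ≤ 1) (D : ℕ) :
    ∀ᵐ ω ∂P, ∀ᶠ i : ℕ in atTop,
      (badb (fun m => v m * WW ε T (m + 1) ω) i D).card < 2 ^ (i - D) := by
  obtain ⟨η, hη'⟩ : ∃ η : ℝ, η = 1 / ((D : ℝ) + 1) := ⟨_, rfl⟩
  have hη : 0 < η := by rw [hη']; positivity
  obtain ⟨K, hK⟩ : ∃ K : ℕ, 256 * (T.card : ℝ) ^ 2 / η ^ 2 ≤ K := exists_nat_ge _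
  have hK' : 256 * (T.card : ℝ) ^ 2 / η ^ 2 ≤ ((K + B + 1 : ℕ) : ℝ) := by
    push_cast
    have : (0:ℝ) ≤ B := Nat.cast_nonneg _
    linarith
  have hw0 : ∀ q, 0 ≤ 1 - |∫ ω, ∏ i ∈ lay T h0, ε i q ω ∂P| := by
    intro q
    have := Pool.Agent.W136.RF.int_pow_le (P := P) (fun ω => prod_or he (lay T h0) q ω) 1
    simp only [pow_one] at this
    linarith
  have hw1 : ∀ q, 1 - |∫ ω, ∏ i ∈ lay T h0, ε i q ω ∂P| ≤ 1 := by
    intro q
    have := abs_nonneg (∫ ω, ∏ i ∈ lay T h0, ε i q ω ∂P)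
    linarith
  have h1 := wheavy_cut _ hw0 hw1 hS D (K + B + 1) (2 + 160 / η)
  obtain ⟨i₀, hi₀⟩ := eventually_atTop.1 (h1.and (eventually_ge_atTop (D + 1)))
  obtain ⟨E, hE⟩ : ∃ E : ℕ → Set Ω, E = fun j =>
    {ω | 2 * η < |bs (fun m => v m * WW ε T (m + 1) ω) j|} := ⟨_, rfl⟩
  have hEm : ∀ j, MeasurableSet (E j) := by
    intro j
    rw [hE]
    refine measurableSet_lt measurable_const ?_
    refine Measurable.abs ?_
    unfold bs
    refine Finset.measurable_fun_sum _ fun m _ => ?_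
    exact ((WW_meas hm T (m + 1)).const_mul (v m)).div_const _
  have hEj : ∀ i, i₀ ≤ i → ∀ j, 2 ^ i ≤ 2 ^ D * j →
      P (E j) ≤ ENNReal.ofReal (2 * (1 / (i : ℝ) ^ 2)) := by
    intro i hi j hj
    obtain ⟨c1, c3⟩ := hi₀ i hi
    rw [hE]
    exact gbscale hm he hind T h0 B ht hB v hv η hη (K + B + 1) (Nat.succ_pos _) (by omega)
      hK' i j (by omega) (c1 j hj)
  obtain ⟨J, hJ'⟩ : ∃ J : ℕ → Finset ℕ, J = fun i => (range (2 ^ (i + 1))).filter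
    (fun j => 2 ^ i ≤ 2 ^ D * j) := ⟨_, rfl⟩
  obtain ⟨X, hX⟩ : ∃ X : ℕ → Ω → ℝ≥0∞, X = fun i ω =>
    ∑ j ∈ J i, (E j).indicator (fun _ => (1 : ℝ≥0∞)) ω := ⟨_, rfl⟩
  have hXm : ∀ i, Measurable (X i) := by
    intro i
    rw [hX]
    exact Finset.measurable_fun_sum _ fun j _ => measurable_const.indicator (hEm j)
  have hXc : ∀ i ω, X i ω =
      (((badb (fun m => v m * WW ε T (m + 1) ω) i D).card : ℕ) : ℝ≥0∞) := by
    intro i ω
    rw [hX]
    unfold badb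
    rw [card_filter, Nat.cast_sum, hJ']
    refine sum_congr rfl fun j _ => ?_
    rw [hE, hη']
    by_cases hb : 2 * (1 / ((D : ℝ) + 1)) < |bs (fun m => v m * WW ε T (m + 1) ω) j|
    · rw [if_pos hb, Set.indicator_of_mem (by exact hb)]
      simp
    · rw [if_neg hb, Set.indicator_of_notMem (by exact hb)]
      simp
  have hprob : ∀ i, i₀ ≤ i → P {ω | ((2 ^ (i - D) : ℕ) : ℝ≥0∞) ≤ X i ω} ≤
      ENNReal.ofReal (2 ^ (D + 2) * (1 / (i : ℝ) ^ 2)) := by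
    intro i hi
    have hDi := (hi₀ i hi).2
    have m1 := mul_meas_ge_le_lintegral (μ := P) (hXm i) ((2 ^ (i - D) : ℕ) : ℝ≥0∞)
    have m2 : ∫⁻ ω, X i ω ∂P ≤ ENNReal.ofReal (2 ^ (i + 1) * (2 * (1 / (i : ℝ) ^ 2))) := by
      rw [hX]
      rw [lintegral_finsetSum]
      · have m3 : ∀ j ∈ J i, ∫⁻ ω, (E j).indicator (fun _ => (1 : ℝ≥0∞)) ω ∂P ≤
            ENNReal.ofReal (2 * (1 / (i : ℝ) ^ 2)) := by
          intro j hj
          rw [lintegral_indicator (hEm j)]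
          simp only [lintegral_const, MeasurableSet.univ, Measure.restrict_apply, Set.univ_inter,
            one_mul]
          rw [hJ', mem_filter] at hj
          exact hEj i hi j hj.2
        refine (sum_le_sum m3).trans ?_
        rw [sum_const, nsmul_eq_mul,
          ENNReal.ofReal_mul (p := (2:ℝ) ^ (i + 1)) (by positivity)]
        refine mul_le_mul' ?_ le_rfl
        have m4 : (J i).card ≤ 2 ^ (i + 1) := by
          rw [hJ']
          exact (card_filter_le _ _).trans (le_of_eq (card_range _))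
        have m5 : ENNReal.ofReal ((2:ℝ) ^ (i + 1)) = ((2 ^ (i + 1) : ℕ) : ℝ≥0∞) := by
          rw [← ENNReal.ofReal_natCast]; push_cast; rfl
        rw [m5]
        exact_mod_cast m4
      · intro j _
        exact measurable_const.indicator (hEm j)
    have m6 := m1.trans m2
    have e1 : (2:ℝ) ^ (i + 1) * (2 * (1 / (i : ℝ) ^ 2)) =
        ((2 ^ (i - D) : ℕ) : ℝ) * (2 ^ (D + 2) * (1 / (i : ℝ) ^ 2)) := by
      push_cast
      have : (2:ℝ) ^ (i + 1) * 2 = 2 ^ (i - D) * 2 ^ (D + 2) := by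
        rw [← pow_succ, ← pow_add]; congr 1; omega
      rw [← mul_assoc, this]; ring
    rw [e1, ENNReal.ofReal_mul (Nat.cast_nonneg _), ENNReal.ofReal_natCast] at m6
    refine (ENNReal.mul_le_mul_iff_right ?_ (ENNReal.natCast_ne_top _)).1 m6
    have : (2 ^ (i - D) : ℕ) ≠ 0 := by positivity
    exact_mod_cast this
  have hBC := ae_eventually_notMem (μ := P) (s := fun i => if i₀ ≤ i then
      {ω | ((2 ^ (i - D) : ℕ) : ℝ≥0∞) ≤ X i ω} else ∅) (by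
    have hle : ∀ i : ℕ, P (if i₀ ≤ i then {ω | ((2 ^ (i - D) : ℕ) : ℝ≥0∞) ≤ X i ω} else ∅) ≤
        ENNReal.ofReal (2 ^ (D + 2) * (1 / (i : ℝ) ^ 2)) := by
      intro j
      split_ifs with h
      · exact hprob j h
      · rw [measure_empty]; exact bot_le
    have hsum : Summable (fun j : ℕ => (2 : ℝ) ^ (D + 2) * (1 / (j : ℝ) ^ 2)) :=
      (Real.summable_one_div_nat_pow.2 (by norm_num)).mul_left _
    refine ne_top_of_le_ne_top ?_ (ENNReal.tsum_le_tsum hle)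
    rw [← ENNReal.ofReal_tsum_of_nonneg (fun j => by positivity) hsum]
    exact ENNReal.ofReal_ne_top)
  filter_upwards [hBC] with ω hω
  filter_upwards [hω, eventually_ge_atTop i₀] with i hi hii
  rw [if_pos hii] at hi
  by_contra hc
  push Not at hc
  apply hi
  simp only [Set.mem_ofPred_eq]
  rw [hXc]
  exact_mod_cast hc

/-- **almost sure cancellation of every pattern** under the sharp condition -/
theorem gas_sharp {P : Measure Ω} [IsProbabilityMeasure P] {ε : ι → ℕ → Ω → ℝ}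
    (hm : ∀ j p, Measurable (ε j p)) (he : ∀ j p ω, ε j p ω = 1 ∨ ε j p ω = -1)
    (hind : iIndepFun (fun (p : ℕ) (ω : Ω) (i : ι) => ε i p ω) P)
    (hS : ∀ B : Finset ι, B.Nonempty → WHeavy (fun q => 1 - |∫ ω, ∏ i ∈ B, ε i q ω ∂P|))
    (T : Finset (ι × ℕ)) (hT : T.Nonempty) (c : ℕ → ℝ) (hc : ∀ n, |c n| ≤ 1) :
    ∀ᵐ ω ∂P, Tendsto (fun X : ℕ => (∑ n ∈ Icc 1 X, c n * WW ε T n ω / n) / Real.log X) atTop
      (nhds 0) := by
  obtain ⟨t0, ht0⟩ := hT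
  have hl := lay_nonempty ht0
  have h1 : ∀ᵐ ω ∂P, ∀ D : ℕ, ∀ᶠ i : ℕ in atTop,
      (badb (fun m => c (m + 1) * WW ε T (m + 1) ω) i D).card < 2 ^ (i - D) := by
    rw [ae_all_iff]
    exact fun D => gbone hm he hind T t0.2 (T.sup Prod.snd) hl
      (fun t ht => le_sup (f := Prod.snd) ht)
      (hS _ hl) (fun m => c (m + 1)) (fun m => hc _) D
  filter_upwards [h1] with ω hω
  have h2 := llim (fun m => c (m + 1) * WW ε T (m + 1) ω) (fun m => by
    show |c (m + 1) * WW ε T (m + 1) ω| ≤ 1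
    rw [abs_mul, WW_abs he, mul_one]
    exact hc _) hω
  refine h2.congr fun X => ?_
  congr 1
  have h3 := Finset.sum_Ico_add' (fun n : ℕ => c n * WW ε T n ω / n) 0 X 1
  rw [← Finset.range_eq_Ico] at h3
  have h4 : Ico (0 + 1) (X + 1) = Icc 1 X := by
    ext n
    simp only [mem_Ico, mem_Icc]
    omega
  rw [h4] at h3
  rw [← h3]
  refine sum_congr rfl fun m _ => ?_
  push_cast
  rfl

end Pool.Agent.U463.RB
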