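import Pool.Agent.U463.RB.BMD

/-!
# Bounded differences for independent random elements of a finite set
-/

set_option autoImplicit false

namespace Pool.Agent.U463.RB

open Finset MeasureTheory ProbabilityTheory

/-- the lemma of Hoeffding (with a weak constant) for a finite set of values -/
theorem hoef {α : Type*} [Fintype α] (μ : α → ℝ) (h0 : ∀ a, 0 ≤ μ a) (h1 : ∑ a, μ a = 1)
    (Z : α → ℝ) (c lam : ℝ) (hZ : ∀ a b, |Z a - Z b| ≤ c) :
    ∑ a, μ a * Real.exp (lam * Z a) ≤
      Real.exp (lam * ∑ a, μ a * Z a) * Real.exp (lam ^ 2 * c ^ 2 / 2) := by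
  have hne : Nonempty α := by
    by_contra hcon
    rw [not_nonempty_iff] at hcon
    rw [univ_eq_empty, sum_empty] at h1
    norm_num at h1
  obtain ⟨a0, ha0⟩ := Finite.exists_min Z
  obtain ⟨b0, hb0⟩ := Finite.exists_max Z
  rcases (ha0 b0).eq_or_lt with heq | hlt
  · have hc : ∀ a, Z a = Z a0 := fun a => le_antisymm ((hb0 a).trans heq.ge) (ha0 a)
    have e1 : ∑ a, μ a * Real.exp (lam * Z a) = Real.exp (lam * Z a0) := by
      rw [sum_congr rfl fun a _ => by rw [hc a], ← sum_mul, h1, one_mul]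
    have e2 : ∑ a, μ a * Z a = Z a0 := by
      rw [sum_congr rfl fun a _ => by rw [hc a], ← sum_mul, h1, one_mul]
    rw [e1, e2]
    have h2 : 1 ≤ Real.exp (lam ^ 2 * c ^ 2 / 2) := Real.one_le_exp (by positivity)
    have h3 := Real.exp_pos (lam * Z a0)
    nlinarith
  · obtain ⟨lo, hlo⟩ : ∃ lo, lo = Z a0 := ⟨_, rfl⟩
    obtain ⟨hi, hhi⟩ : ∃ hi, hi = Z b0 := ⟨_, rfl⟩
    rw [← hlo, ← hhi] at hlt
    have hd : 0 < hi - lo := by linarith
    obtain ⟨t, ht⟩ : ∃ t : ℝ, t = ∑ a, μ a * ((Z a - lo) / (hi - lo)) := ⟨_, rfl⟩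
    have hfr0 : ∀ a, 0 ≤ (Z a - lo) / (hi - lo) := fun a =>
      div_nonneg (by rw [hlo]; linarith [ha0 a]) hd.le
    have hfr1 : ∀ a, (Z a - lo) / (hi - lo) ≤ 1 := fun a => by
      rw [div_le_one hd, hhi]
      linarith [hb0 a]
    have ht0 : 0 ≤ t := by
      rw [ht]
      exact sum_nonneg fun a _ => mul_nonneg (h0 a) (hfr0 a)
    have ht1 : t ≤ 1 := by
      rw [ht, ← h1]
      refine sum_le_sum fun a _ => ?_
      have := mul_le_mul_of_nonneg_left (hfr1 a) (h0 a)
      linarith
    have hconv : ∀ a, Real.exp (lam * Z a) ≤ (1 - (Z a - lo) / (hi - lo)) * Real.exp (lam * lo) +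
        (Z a - lo) / (hi - lo) * Real.exp (lam * hi) := by
      intro a
      have h2 := convexOn_exp.2 (Set.mem_univ (lam * lo)) (Set.mem_univ (lam * hi))
        (show 0 ≤ 1 - (Z a - lo) / (hi - lo) by linarith [hfr1 a]) (hfr0 a) (by ring)
      simp only [smul_eq_mul] at h2
      refine le_trans (le_of_eq ?_) h2
      congr 1
      field_simp
      ring
    have h3 : ∑ a, μ a * Real.exp (lam * Z a) ≤ (1 - t) * Real.exp (lam * lo) +
        t * Real.exp (lam * hi) := by
      refine (sum_le_sum fun a _ => mul_le_mul_of_nonneg_left (hconv a) (h0 a)).trans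
        (le_of_eq ?_)
      have e : ∀ a, μ a * ((1 - (Z a - lo) / (hi - lo)) * Real.exp (lam * lo) +
          (Z a - lo) / (hi - lo) * Real.exp (lam * hi)) = μ a * Real.exp (lam * lo) +
          (μ a * ((Z a - lo) / (hi - lo))) * (Real.exp (lam * hi) - Real.exp (lam * lo)) := by
        intro a
        ring
      rw [sum_congr rfl fun a _ => e a, sum_add_distrib, ← sum_mul, ← sum_mul, h1, ← ht]
      ring
    have h4 := two_pt lam t lo hi c ht0 ht1 (by rw [hlo, hhi]; exact hZ b0 a0)
    refine h3.trans (h4.trans (le_of_eq ?_))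
    congr 3
    have e : ∑ a, μ a * Z a = lo + t * (hi - lo) := by
      rw [ht, sum_mul]
      have e2 : ∀ a, μ a * Z a = μ a * lo + μ a * ((Z a - lo) / (hi - lo)) * (hi - lo) := by
        intro a
        field_simp
        ring
      rw [sum_congr rfl fun a _ => e2 a, sum_add_distrib, ← sum_mul, h1, one_mul]
    rw [e]
    ring

variable {Ω α : Type*}

open Classical in
/-- the point whose coordinates at the members of `Q` are random -/
noncomputable def mix (X : ℕ → Ω → α) (Q : Finset ℕ) (x : ℕ → α) (ω : Ω) (q : ℕ) : α :=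
  if q ∈ Q then X q ω else x q

theorem mix_empty (X : ℕ → Ω → α) (x : ℕ → α) (ω : Ω) : mix X ∅ x ω = x := by
  funext q
  unfold mix
  rw [if_neg (notMem_empty q)]

theorem mix_insert (X : ℕ → Ω → α) (q : ℕ) (s : Finset ℕ) (hq : q ∉ s) (x : ℕ → α) (ω : Ω) :
    mix X (insert q s) x ω = mix X s (Function.update x q (X q ω)) ω := by
  funext p
  unfold mix
  by_cases hp : p = q
  · subst hp
    rw [if_pos (mem_insert_self _ _), if_neg hq, Function.update_self]
  · by_cases hs : p ∈ s
    · rw [if_pos (mem_insert_of_mem hs), if_pos hs]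
    · rw [if_neg (fun h => (mem_insert.1 h).elim hp hs), if_neg hs, Function.update_of_ne hp]

theorem mix_update (X : ℕ → Ω → α) (q : ℕ) (s : Finset ℕ) (hq : q ∉ s) (x : ℕ → α) (a : α)
    (ω : Ω) : mix X s (Function.update x q a) ω = Function.update (mix X s x ω) q a := by
  funext p
  unfold mix
  by_cases hp : p = q
  · subst hp
    rw [if_neg hq, Function.update_self, Function.update_self]
  · rw [Function.update_of_ne hp, Function.update_of_ne hp]

variable [MeasurableSpace Ω] [Fintype α] [MeasurableSpace α] [MeasurableSingletonClass α]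

theorem mix_meas (X : ℕ → Ω → α) (Q : Finset ℕ)
    (F : (ℕ → α) → ℝ) (x : ℕ → α) :
    ∃ F' : (Q → α) → ℝ, Measurable F' ∧ ∀ ω, F (mix X Q x ω) = F' (fun i => X i ω) := by
  classical
  exact ⟨fun y => F (fun q => if h : q ∈ Q then y ⟨q, h⟩ else x q), measurable_of_finite _,
    fun ω => rfl⟩

theorem mix_measurable {X : ℕ → Ω → α} (hX : ∀ q, Measurable (X q)) (Q : Finset ℕ)
    (F : (ℕ → α) → ℝ) (x : ℕ → α) : Measurable (fun ω => F (mix X Q x ω)) := by
  obtain ⟨F', h1, h2⟩ := mix_meas X Q F x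
  have : (fun ω => F (mix X Q x ω)) = fun ω => F' (fun i => X i ω) := funext h2
  rw [this]
  exact h1.comp (measurable_pi_lambda _ fun i => hX i)

theorem mix_bdd (X : ℕ → Ω → α) (Q : Finset ℕ) (F : (ℕ → α) → ℝ) (x : ℕ → α) :
    ∃ C : ℝ, ∀ ω, |F (mix X Q x ω)| ≤ C := by
  classical
  refine ⟨∑ y : (Q → α), |F (fun q => if h : q ∈ Q then y ⟨q, h⟩ else x q)|, fun ω => ?_⟩
  exact single_le_sum (f := fun y : (Q → α) => |F (fun q => if h : q ∈ Q then y ⟨q, h⟩ else x q)|)
    (fun y _ => abs_nonneg _) (mem_univ (fun i : Q => X i ω))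

theorem mix_int {P : Measure Ω} [IsProbabilityMeasure P] {X : ℕ → Ω → α}
    (hX : ∀ q, Measurable (X q)) (Q : Finset ℕ) (F : (ℕ → α) → ℝ) (x : ℕ → α) :
    Integrable (fun ω => F (mix X Q x ω)) P := by
  obtain ⟨C, hC⟩ := mix_bdd X Q F x
  exact Integrable.of_bound (mix_measurable hX Q F x).aestronglyMeasurable C
    (Filter.Eventually.of_forall fun ω => by rw [Real.norm_eq_abs]; exact hC ω)

/-- **one more coordinate** -/
theorem split {P : Measure Ω} [IsProbabilityMeasure P] {X : ℕ → Ω → α}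
    (hX : ∀ q, Measurable (X q)) (hind : iIndepFun X P) (q : ℕ) (s : Finset ℕ) (hq : q ∉ s)
    (F : (ℕ → α) → ℝ) (x : ℕ → α) :
    ∫ ω, F (mix X (insert q s) x ω) ∂P =
      ∑ a, P.real (X q ⁻¹' {a}) * ∫ ω, F (mix X s (Function.update x q a) ω) ∂P := by
  classical
  have h1 : ∀ ω, F (mix X (insert q s) x ω) = ∑ a, (if X q ω = a then (1:ℝ) else 0) *
      F (mix X s (Function.update x q a) ω) := by
    intro ω
    rw [mix_insert X q s hq, sum_eq_single (X q ω)]
    · rw [if_pos rfl, one_mul]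
    · intro a _ ha
      rw [if_neg (fun h => ha h.symm), zero_mul]
    · intro h
      exact absurd (mem_univ _) h
  have hind2 : ∀ a, IndepFun (fun ω => if X q ω = a then (1:ℝ) else 0)
      (fun ω => F (mix X s (Function.update x q a) ω)) P := by
    intro a
    obtain ⟨F', hF1, hF2⟩ := mix_meas X s F (Function.update x q a)
    have h2 := hind.indepFun_finset {q} s (disjoint_singleton_left.2 hq) hX
    have h3 := h2.comp (φ := fun y : (({q} : Finset ℕ) → α) =>
      if y ⟨q, mem_singleton_self q⟩ = a then (1:ℝ) else 0) (ψ := F')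
      (measurable_of_finite _) hF1
    have e : (fun ω => F (mix X s (Function.update x q a) ω)) = F' ∘ fun ω (i : s) => X i ω :=
      funext hF2
    rw [e]
    exact h3
  have hi1 : ∀ a, Measurable (fun ω => if X q ω = a then (1:ℝ) else 0) := fun a =>
    (measurable_of_finite (fun b : α => if b = a then (1:ℝ) else 0)).comp (hX q)
  simp only [h1]
  rw [integral_finsetSum]
  · refine sum_congr rfl fun a _ => ?_
    rw [(hind2 a).integral_fun_mul_eq_mul_integral (hi1 a).aestronglyMeasurable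
      (mix_measurable hX s F _).aestronglyMeasurable]
    congr 1
    have e : (fun ω => if X q ω = a then (1:ℝ) else 0) =
        (X q ⁻¹' {a}).indicator (fun _ => (1:ℝ)) := by
      funext ω
      by_cases h : X q ω = a
      · rw [if_pos h, Set.indicator_of_mem (by exact h)]
      · rw [if_neg h, Set.indicator_of_notMem (by exact h)]
    rw [e, integral_indicator_const _ (hX q (measurableSet_singleton a)), smul_eq_mul, mul_one]
  · intro a _
    obtain ⟨C, hC⟩ := mix_bdd X s F (Function.update x q a)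
    refine Integrable.of_bound ((hi1 a).mul (mix_measurable hX s F _)).aestronglyMeasurable C
      (Filter.Eventually.of_forall fun ω => ?_)
    rw [Real.norm_eq_abs, abs_mul]
    have h4 := hC ω
    have h5 : |if X q ω = a then (1:ℝ) else 0| ≤ 1 := by split_ifs <;> simp
    have h6 := mul_le_mul h5 h4 (abs_nonneg _) zero_le_one
    linarith

theorem sum_law {P : Measure Ω} [IsProbabilityMeasure P] {X : ℕ → Ω → α}
    (hX : ∀ q, Measurable (X q)) (hind : iIndepFun X P) (q : ℕ) (x : ℕ → α) :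
    ∑ a, P.real (X q ⁻¹' {a}) = 1 := by
  have h := split hX hind q ∅ (notMem_empty q) (fun _ => 1) x
  simp only [integral_const, probReal_univ, smul_eq_mul, mul_one] at h
  exact h.symm

/-- the exponential moments -/
theorem gexpmom {P : Measure Ω} [IsProbabilityMeasure P] {X : ℕ → Ω → α}
    (hX : ∀ q, Measurable (X q)) (hind : iIndepFun X P) (lam : ℝ) (c : ℕ → ℝ)
    (F : (ℕ → α) → ℝ) (Q : Finset ℕ) :
    (∀ q ∈ Q, ∀ x a, |F (Function.update x q a) - F x| ≤ c q) → ∀ x : ℕ → α,
    ∫ ω, Real.exp (lam * F (mix X Q x ω)) ∂P ≤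
      Real.exp (lam * ∫ ω, F (mix X Q x ω) ∂P + lam ^ 2 * (∑ q ∈ Q, c q ^ 2) / 2) := by
  classical
  induction Q using Finset.induction_on with
  | empty =>
    intro _ x
    simp [mix_empty]
  | insert q s hq ih =>
    intro hF x
    have hs := ih (fun p hp => hF p (mem_insert_of_mem hp))
    have hFq := hF q (mem_insert_self _ _)
    rw [split hX hind q s hq (fun y => Real.exp (lam * F y)) x, split hX hind q s hq F x]
    obtain ⟨μ, hμ⟩ : ∃ μ : α → ℝ, μ = fun a => P.real (X q ⁻¹' {a}) := ⟨_, rfl⟩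
    obtain ⟨Z, hZ⟩ : ∃ Z : α → ℝ, Z = fun a =>
      ∫ ω, F (mix X s (Function.update x q a) ω) ∂P := ⟨_, rfl⟩
    have hμ0 : ∀ a, 0 ≤ μ a := fun a => by rw [hμ]; exact measureReal_nonneg
    have hμ1 : ∑ a, μ a = 1 := by rw [hμ]; exact sum_law hX hind q x
    have hZd : ∀ a b, |Z a - Z b| ≤ c q := by
      intro a b
      rw [hZ]
      simp only
      rw [← integral_sub (mix_int hX s F _) (mix_int hX s F _), ← Real.norm_eq_abs]
      have h1 := norm_integral_le_of_norm_le_const (μ := P) (C := c q)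
        (f := fun ω => F (mix X s (Function.update x q a) ω) -
          F (mix X s (Function.update x q b) ω)) (Filter.Eventually.of_forall fun ω => by
        rw [Real.norm_eq_abs]
        have e : mix X s (Function.update x q a) ω =
            Function.update (mix X s (Function.update x q b) ω) q a := by
          rw [mix_update X q s hq, mix_update X q s hq, Function.update_idem]
        rw [e]
        exact hFq _ a)
      simpa using h1
    have h3 : ∑ a, μ a * ∫ ω, Real.exp (lam * F (mix X s (Function.update x q a) ω)) ∂P ≤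
        (∑ a, μ a * Real.exp (lam * Z a)) * Real.exp (lam ^ 2 * (∑ q ∈ s, c q ^ 2) / 2) := by
      rw [sum_mul]
      refine sum_le_sum fun a _ => ?_
      rw [mul_assoc]
      refine mul_le_mul_of_nonneg_left ?_ (hμ0 a)
      refine (hs (Function.update x q a)).trans (le_of_eq ?_)
      rw [Real.exp_add, hZ]
    have h4 := hoef μ hμ0 hμ1 Z (c q) lam hZd
    have h5 := h3.trans (mul_le_mul_of_nonneg_right h4 (Real.exp_pos _).le)
    rw [hμ, hZ] at h5
    refine h5.trans (le_of_eq ?_)
    rw [sum_insert hq, ← Real.exp_add, ← Real.exp_add]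
    congr 1
    ring

/-- large deviations, one side -/
theorem gtail1 {P : Measure Ω} [IsProbabilityMeasure P] {X : ℕ → Ω → α}
    (hX : ∀ q, Measurable (X q)) (hind : iIndepFun X P) (c : ℕ → ℝ)
    (F : (ℕ → α) → ℝ) (Q : Finset ℕ)
    (hF : ∀ q ∈ Q, ∀ x a, |F (Function.update x q a) - F x| ≤ c q) (x : ℕ → α)
    (V t : ℝ) (hV : 0 < V) (ht : 0 < t) (hc : ∑ q ∈ Q, c q ^ 2 ≤ V) :
    P.real {ω | t ≤ F (mix X Q x ω) - ∫ ω, F (mix X Q x ω) ∂P} ≤
      Real.exp (-(t ^ 2 / (2 * V))) := by
  obtain ⟨μ, hμ⟩ : ∃ μ, μ = ∫ ω, F (mix X Q x ω) ∂P := ⟨_, rfl⟩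
  rw [← hμ]
  have hint : Integrable (fun ω => Real.exp (t / V * (F (mix X Q x ω) - μ))) P :=
    mix_int hX Q (fun y => Real.exp (t / V * (F y - μ))) x
  have h1 := measure_ge_le_exp_mul_mgf (μ := P) (X := fun ω => F (mix X Q x ω) - μ) t
    (t := t / V) (by positivity) hint
  refine h1.trans ?_
  have h2 := gexpmom hX hind (t / V) c F Q hF x
  rw [← hμ] at h2
  have h3 : mgf (fun ω => F (mix X Q x ω) - μ) P (t / V) =
      Real.exp (-(t / V * μ)) * ∫ ω, Real.exp (t / V * F (mix X Q x ω)) ∂P := by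
    unfold mgf
    rw [← integral_const_mul]
    refine integral_congr_ae (Filter.Eventually.of_forall fun ω => ?_)
    simp only
    rw [← Real.exp_add]
    congr 1
    ring
  rw [h3]
  have h4 : Real.exp (-(t / V * μ)) * ∫ ω, Real.exp (t / V * F (mix X Q x ω)) ∂P ≤
      Real.exp (-(t / V * μ)) * Real.exp (t / V * μ + (t / V) ^ 2 * (∑ q ∈ Q, c q ^ 2) / 2) :=
    mul_le_mul_of_nonneg_left h2 (Real.exp_pos _).le
  refine (mul_le_mul_of_nonneg_left h4 (Real.exp_pos _).le).trans ?_
  rw [← Real.exp_add, ← Real.exp_add]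
  apply Real.exp_le_exp.2
  have h5 : (t / V) ^ 2 * (∑ q ∈ Q, c q ^ 2) / 2 ≤ (t / V) ^ 2 * V / 2 := by
    have := mul_le_mul_of_nonneg_left hc (sq_nonneg (t / V))
    linarith
  have h6 : (t / V) ^ 2 * V / 2 = t ^ 2 / (2 * V) := by field_simp
  have h7 : t / V * t = 2 * (t ^ 2 / (2 * V)) := by field_simp
  have h8 : -(t / V) * t = -(t / V * t) := by ring
  linarith

/-- large deviations, both sides -/
theorem gtail {P : Measure Ω} [IsProbabilityMeasure P] {X : ℕ → Ω → α}
    (hX : ∀ q, Measurable (X q)) (hind : iIndepFun X P) (c : ℕ → ℝ)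
    (F : (ℕ → α) → ℝ) (Q : Finset ℕ)
    (hF : ∀ q ∈ Q, ∀ x a, |F (Function.update x q a) - F x| ≤ c q) (x : ℕ → α)
    (V t : ℝ) (hV : 0 < V) (ht : 0 < t) (hc : ∑ q ∈ Q, c q ^ 2 ≤ V)
    (hm : |∫ ω, F (mix X Q x ω) ∂P| ≤ t) :
    P.real {ω | 2 * t < |F (mix X Q x ω)|} ≤ 2 * Real.exp (-(t ^ 2 / (2 * V))) := by
  have h1 := gtail1 hX hind c F Q hF x V t hV ht hc
  have h2 := gtail1 hX hind c (fun y => -F y) Q (fun q hq x a => by
    beta_reduce
    have e : -F (Function.update x q a) - -F x = -(F (Function.update x q a) - F x) := by ring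
    rw [e, abs_neg]
    exact hF q hq x a) x V t hV ht hc
  rw [integral_neg] at h2
  have h3 : {ω | 2 * t < |F (mix X Q x ω)|} ⊆
      {ω | t ≤ F (mix X Q x ω) - ∫ ω, F (mix X Q x ω) ∂P} ∪
      {ω | t ≤ -F (mix X Q x ω) - -∫ ω, F (mix X Q x ω) ∂P} := by
    intro ω hω
    rw [Set.mem_ofPred_eq] at hω
    have h4 := abs_le.1 hm
    rcases le_or_gt 0 (F (mix X Q x ω)) with h5 | h5
    · left
      rw [Set.mem_ofPred_eq]
      rw [abs_of_nonneg h5] at hω
      linarith
    · right
      rw [Set.mem_ofPred_eq]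
      rw [abs_of_neg h5] at hω
      linarith
  refine (measureReal_mono h3).trans ((measureReal_union_le _ _).trans ?_)
  linarith

/-- bounds are preserved when more coordinates become random -/
theorem gextend {P : Measure Ω} [IsProbabilityMeasure P] {X : ℕ → Ω → α}
    (hX : ∀ q, Measurable (X q)) (hind : iIndepFun X P) (F : (ℕ → α) → ℝ) (δ : ℝ)
    (Q : Finset ℕ) (h : ∀ x, ∫ ω, F (mix X Q x ω) ∂P ≤ δ) (s : Finset ℕ) :
    Disjoint Q s → ∀ x, ∫ ω, F (mix X (Q ∪ s) x ω) ∂P ≤ δ := by
  classical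
  induction s using Finset.induction_on with
  | empty =>
    intro _ x
    rw [union_empty]
    exact h x
  | insert q s hq ih =>
    intro hd x
    rw [disjoint_insert_right] at hd
    have h1 := ih hd.2
    have h2 : q ∉ Q ∪ s := by
      rw [mem_union]
      exact fun h => h.elim hd.1 hq
    rw [union_insert, split hX hind q (Q ∪ s) h2 F x]
    have h3 : ∀ a ∈ (univ : Finset α), P.real (X q ⁻¹' {a}) *
        ∫ ω, F (mix X (Q ∪ s) (Function.update x q a) ω) ∂P ≤ P.real (X q ⁻¹' {a}) * δ :=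
      fun a _ => mul_le_mul_of_nonneg_left (h1 _) measureReal_nonneg
    refine (sum_le_sum h3).trans (le_of_eq ?_)
    rw [← sum_mul, sum_law hX hind q x, one_mul]

end Pool.Agent.U463.RB
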