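import Pool.Agent.U463.RB.NUni

/-!
# Natural averages of functions near random functions
-/

set_option autoImplicit false

namespace Pool.Agent.U463.RB

open Finset Filter MeasureTheory ProbabilityTheory
open Pool.Agent.W257.FS
open Pool.Agent.W136.RF (cm cm_mul cm_abs WW WW_abs)
open Pool.Agent.TH573.JF

variable {ι : Type} {ℓ L : ℕ}

/-- the deterministic factor -/
noncomputable def nfac (v : ℕ → ℝ) (g : ι → ℕ → ℝ) (T : Finset (ι × ℕ)) (n : ℕ) : ℝ :=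
  if n = 0 then 0 else v n * ∏ z ∈ T, g z.1 (n + z.2)

theorem nfac_abs {v : ℕ → ℝ} (hv : ∀ n, |v n| ≤ 1) {g : ι → ℕ → ℝ} (hg : ∀ i, SignMul (g i))
    (T : Finset (ι × ℕ)) (n : ℕ) : |nfac v g T n| ≤ 1 := by
  unfold nfac
  split_ifs with h1
  · simp
  · rw [abs_mul]
    refine mul_le_one₀ (hv n) (abs_nonneg _) (prod_abs_le _ _ fun z _ => ?_)
    rcases (hg z.1).val (n + z.2) (by omega) with h | h <;> rw [h] <;> simp

/-- the approximating weights -/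
noncomputable def nwgt (v : ℕ → ℝ) (g : ι → ℕ → ℝ) (T : Finset (ι × ℕ))
    (E : Fin L → Finset (Fin ℓ)) (ψ : Fin ℓ → ℕ → ℝ) (Y : ℕ) (S : Fin ℓ → Finset (ℕ × ℕ))
    (m : ℕ) : ℝ :=
  nfac v g T (m + 1) * ∏ t : Fin L, ∏ k ∈ E t, app Y (S k) (ψ k) (m + 1 + (t : ℕ))

theorem nwgt_abs {v : ℕ → ℝ} (hv : ∀ n, |v n| ≤ 1) {g : ι → ℕ → ℝ} (hg : ∀ i, SignMul (g i))
    (T : Finset (ι × ℕ)) (E : Fin L → Finset (Fin ℓ)) (ψ : Fin ℓ → ℕ → ℝ)
    (hψ : ∀ k n, |ψ k n| ≤ 1) (Y : ℕ) (S : Fin ℓ → Finset (ℕ × ℕ)) (m : ℕ) :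
    |nwgt v g T E ψ Y S m| ≤ 1 := by
  unfold nwgt
  rw [abs_mul]
  exact mul_le_one₀ (nfac_abs hv hg T _) (abs_nonneg _)
    (prod_abs_le _ _ fun t _ => prod_abs_le _ _ fun k _ => app_abs _ _ _ (hψ k) _)

theorem nterm_abs {v : ℕ → ℝ} (hv : ∀ n, |v n| ≤ 1) {g : ι → ℕ → ℝ} (hg : ∀ i, SignMul (g i))
    (T : Finset (ι × ℕ)) (E : Fin L → Finset (Fin ℓ))
    (H : Fin ℓ → ℕ → ℝ) (hH : ∀ k, SignMul (H k)) (m : ℕ) :
    |nfac v g T (m + 1) * ∏ t : Fin L, ∏ k ∈ E t, H k (m + 1 + (t : ℕ))| ≤ 1 := by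
  rw [abs_mul]
  refine mul_le_one₀ (nfac_abs hv hg T _) (abs_nonneg _)
    (prod_abs_le _ _ fun t _ => prod_abs_le _ _ fun k _ => ?_)
  rcases (hH k).val (m + 1 + (t : ℕ)) (by omega) with h | h <;> rw [h] <;> simp

open Classical in
/-- the difference of the exact and the approximating weights -/
theorem ndiff {v : ℕ → ℝ} (hv : ∀ n, |v n| ≤ 1) (g : ι → ℕ → ℝ) (hg : ∀ i, SignMul (g i))
    (T : Finset (ι × ℕ)) (E : Fin L → Finset (Fin ℓ)) (ψ : Fin ℓ → ℕ → ℝ)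
    (hψ : ∀ k n, |ψ k n| ≤ 1) (H : Fin ℓ → ℕ → ℝ) (hH : ∀ k, SignMul (H k)) (Y : ℕ)
    (S : Fin ℓ → Finset (ℕ × ℕ)) (m : ℕ) :
    |nfac v g T (m + 1) * ∏ t : Fin L, ∏ k ∈ E t, H k (m + 1 + (t : ℕ)) -
      nwgt v g T E ψ Y S m| ≤ 2 * ∑ t : Fin L, ∑ k : Fin ℓ,
        (if H k (m + 1 + (t : ℕ)) ≠ app Y (S k) (ψ k) (m + 1 + (t : ℕ)) then (1:ℝ) else 0) := by
  have hnn : 0 ≤ ∑ t : Fin L, ∑ k : Fin ℓ,
        (if H k (m + 1 + (t : ℕ)) ≠ app Y (S k) (ψ k) (m + 1 + (t : ℕ)) then (1:ℝ) else 0) :=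
    sum_nonneg fun t _ => sum_nonneg fun k _ => by split_ifs <;> norm_num
  by_cases h : ∀ (t : Fin L) (k : Fin ℓ), H k (m + 1 + (t : ℕ)) =
      app Y (S k) (ψ k) (m + 1 + (t : ℕ))
  · have e : ∏ t : Fin L, ∏ k ∈ E t, H k (m + 1 + (t : ℕ)) =
        ∏ t : Fin L, ∏ k ∈ E t, app Y (S k) (ψ k) (m + 1 + (t : ℕ)) :=
      prod_congr rfl fun t _ => prod_congr rfl fun k _ => h t k
    unfold nwgt
    rw [e, sub_self, abs_zero]
    exact mul_nonneg (by norm_num) hnn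
  · push Not at h
    obtain ⟨t, k, htk⟩ := h
    have h1 : (1:ℝ) ≤ ∑ t : Fin L, ∑ k : Fin ℓ,
        (if H k (m + 1 + (t : ℕ)) ≠ app Y (S k) (ψ k) (m + 1 + (t : ℕ)) then (1:ℝ) else 0) := by
      have h2 : (1:ℝ) ≤ ∑ k : Fin ℓ,
          (if H k (m + 1 + (t : ℕ)) ≠ app Y (S k) (ψ k) (m + 1 + (t : ℕ)) then (1:ℝ) else 0) := by
        have h3 := single_le_sum (f := fun k : Fin ℓ => if H k (m + 1 + (t : ℕ)) ≠
          app Y (S k) (ψ k) (m + 1 + (t : ℕ)) then (1:ℝ) else 0)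
          (fun k _ => by beta_reduce; split_ifs <;> norm_num) (mem_univ k)
        beta_reduce at h3
        rw [if_pos htk] at h3
        exact h3
      refine h2.trans (single_le_sum (f := fun t : Fin L => ∑ k : Fin ℓ,
        (if H k (m + 1 + (t : ℕ)) ≠ app Y (S k) (ψ k) (m + 1 + (t : ℕ)) then (1:ℝ) else 0))
        (fun t _ => sum_nonneg fun k _ => by split_ifs <;> norm_num) (mem_univ t))
    have h4 := nterm_abs hv hg T E H hH m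
    have h5 := nwgt_abs hv hg T E ψ hψ Y S m
    have h6 := abs_sub (nfac v g T (m + 1) * ∏ t : Fin L, ∏ k ∈ E t, H k (m + 1 + (t : ℕ)))
      (nwgt v g T E ψ Y S m)
    linarith

/-- a class of sequences with values in `[-1,1]` and small entropy -/
def RThin (V : Set (ℕ → ℝ)) : Prop :=
  (∀ v ∈ V, ∀ n, |v n| ≤ 1) ∧ ∀ δ : ℝ, 0 < δ → ∀ D : ℕ, ∀ᶠ x : ℕ in atTop,
    ∃ C : Finset (ℕ → ℝ), Real.log C.card ^ D ≤ x ∧ (∀ w ∈ C, ∀ n, |w n| ≤ 1) ∧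
      ∀ v ∈ V, ∃ w ∈ C, ∑ n ∈ Icc 1 x, |v n - w n| ≤ δ * x

theorem RThin.net {V : Set (ℕ → ℝ)} (hV : RThin V) (δ : ℝ) (hδ : 0 < δ) (D : ℕ) :
    ∃ Δ : ℕ → Finset (ℕ → ℝ), (∀ j, ∀ w ∈ Δ j, ∀ n, |w n| ≤ 1) ∧
      ∀ᶠ j : ℕ in atTop, Real.log (Δ j).card ^ D ≤ ((2 ^ (j + 1) : ℕ) : ℝ) ∧
        ∀ v ∈ V, ∃ w ∈ Δ j, ∑ n ∈ Icc 1 (2 ^ (j + 1)), |v n - w n| ≤
          δ * ((2 ^ (j + 1) : ℕ) : ℝ) := by
  classical
  have h := hV.2 δ hδ D
  have t : Tendsto (fun j : ℕ => 2 ^ (j + 1)) atTop atTop :=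
    (tendsto_pow_atTop_atTop_of_one_lt (by norm_num : (1:ℕ) < 2)).comp (tendsto_add_atTop_nat 1)
  have h' := t.eventually h
  have hex : ∀ j : ℕ, ∃ C : Finset (ℕ → ℝ), (∀ w ∈ C, ∀ n, |w n| ≤ 1) ∧
      ((∃ C' : Finset (ℕ → ℝ), Real.log C'.card ^ D ≤ ((2 ^ (j + 1) : ℕ) : ℝ) ∧
        (∀ w ∈ C', ∀ n, |w n| ≤ 1) ∧
        ∀ v ∈ V, ∃ w ∈ C', ∑ n ∈ Icc 1 (2 ^ (j + 1)), |v n - w n| ≤
          δ * ((2 ^ (j + 1) : ℕ) : ℝ)) → Real.log C.card ^ D ≤ ((2 ^ (j + 1) : ℕ) : ℝ) ∧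
        ∀ v ∈ V, ∃ w ∈ C, ∑ n ∈ Icc 1 (2 ^ (j + 1)), |v n - w n| ≤
          δ * ((2 ^ (j + 1) : ℕ) : ℝ)) := by
    intro j
    by_cases hj : ∃ C' : Finset (ℕ → ℝ), Real.log C'.card ^ D ≤ ((2 ^ (j + 1) : ℕ) : ℝ) ∧
        (∀ w ∈ C', ∀ n, |w n| ≤ 1) ∧
        ∀ v ∈ V, ∃ w ∈ C', ∑ n ∈ Icc 1 (2 ^ (j + 1)), |v n - w n| ≤
          δ * ((2 ^ (j + 1) : ℕ) : ℝ)
    · obtain ⟨C, h1, h2, h3⟩ := hj
      exact ⟨C, h2, fun _ => ⟨h1, h3⟩⟩
    · exact ⟨∅, fun w hw => absurd hw (notMem_empty _), fun h => absurd h hj⟩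
  choose Δ h1 h2 using hex
  refine ⟨Δ, h1, ?_⟩
  filter_upwards [h'] with j hj
  exact h2 j hj

theorem nfac_diff (v w : ℕ → ℝ) {g : ι → ℕ → ℝ} (hg : ∀ i, SignMul (g i))
    (T : Finset (ι × ℕ)) (n : ℕ) : |nfac v g T n - nfac w g T n| ≤ |v n - w n| := by
  unfold nfac
  split_ifs with h1
  · simp
  · rw [← sub_mul, abs_mul]
    refine mul_le_of_le_one_right (abs_nonneg _) (prod_abs_le _ _ fun z _ => ?_)
    rcases (hg z.1).val (n + z.2) (by omega) with h | h <;> rw [h] <;> simp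

open Classical in
/-- **the deterministic step** -/
theorem detN {v : ℕ → ℝ} (hv : ∀ n, |v n| ≤ 1) (g : ι → ℕ → ℝ) (hg : ∀ i, SignMul (g i))
    (T : Finset (ι × ℕ))
    (E : Fin L → Finset (Fin ℓ)) (H : Fin ℓ → ℕ → ℝ) (hH : ∀ k, SignMul (H k))
    (W : ℕ → ℝ) (hWb : ∀ n, |W n| = 1)
    (q : Fin ℓ → ℕ) (hq : ∀ k, 1 ≤ q k) (χ : ∀ k, DirichletCharacter ℂ (q k))
    (hlim : ∀ k, Tendsto (fun X : ℕ => (∑ p ∈ (Icc 1 X).filter (fun p => p.Prime ∧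
      (H k p : ℂ) ≠ χ k (p : ZMod (q k))), Real.log p / p) / Real.log X) atTop (nhds 0))
    (hgood : ∀ N : ℕ, ∃ F : ℕ, 1 ≤ F ∧ ∀ K : ℕ, ∀ᶠ j : ℕ in atTop, ∃ w : ℕ → ℝ,
      (∀ n, |w n| ≤ 1) ∧ ∑ n ∈ Icc 1 (2 ^ (j + 1)), |v n - w n| ≤
        1 / ((N : ℝ) + 1) * ((2 ^ (j + 1) : ℕ) : ℝ) ∧ ∀ M ∈ grid K j, ∀ γ ∈ Gam ℓ F j,
      |∑ m ∈ range M, nwgt w g T E (fun k => per (q k)
        ((range (q k)).filter (fun a => χ k (a : ZMod (q k)) = 1))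
        ((range (q k)).filter (fun a => χ k (a : ZMod (q k)) = -1))) (2 ^ (j / (F * 2))) γ m *
          W (m + 1)| ≤ 1 / ((N : ℝ) + 1) * M) :
    Tendsto (fun x : ℕ => (∑ m ∈ range x, (nfac v g T (m + 1) *
      ∏ t : Fin L, ∏ k ∈ E t, H k (m + 1 + (t : ℕ))) * W (m + 1)) / (x : ℝ)) atTop (nhds 0) := by
  obtain ⟨ψ, hψ⟩ : ∃ ψ : Fin ℓ → ℕ → ℝ, ψ = fun k => per (q k)
        ((range (q k)).filter (fun a => χ k (a : ZMod (q k)) = 1))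
        ((range (q k)).filter (fun a => χ k (a : ZMod (q k)) = -1)) := ⟨_, rfl⟩
  rw [← hψ] at hgood
  have hψ1 : ∀ k n, |ψ k n| ≤ 1 := by
    intro k n
    rw [hψ]
    exact per_abs _ _ _ _
  obtain ⟨a, ha⟩ : ∃ a : ℕ → ℝ, a = fun m => (nfac v g T (m + 1) *
      ∏ t : Fin L, ∏ k ∈ E t, H k (m + 1 + (t : ℕ))) * W (m + 1) := ⟨_, rfl⟩
  have ha1 : ∀ m, |a m| ≤ 1 := by
    intro m
    rw [ha]
    simp only
    rw [abs_mul, hWb, mul_one]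
    exact nterm_abs hv hg T E H hH m
  suffices hs : Tendsto (fun x : ℕ => (∑ m ∈ range x, a m) / (x : ℝ)) atTop (nhds 0) by
    rw [ha] at hs
    exact hs
  rw [Metric.tendsto_atTop]
  intro δ hδ
  obtain ⟨N, hN⟩ : ∃ N : ℕ, 16 / δ < N := exists_nat_gt _
  obtain ⟨F, hF, hev⟩ := hgood N
  obtain ⟨K, hK⟩ : ∃ K : ℕ, 4 / δ < (2:ℝ) ^ K := by
    obtain ⟨K, hK⟩ := pow_unbounded_of_one_lt (4 / δ) (by norm_num : (1:ℝ) < 2)
    exact ⟨K, hK⟩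
  have l1 : Tendsto (fun j : ℕ => 20 * (L:ℝ) * ∑ k : Fin ℓ,
      err (H k) (χ k) (2 ^ (j / (F * 2))) j) atTop (nhds (20 * (L:ℝ) * ∑ k : Fin ℓ, 0)) := by
    refine Tendsto.const_mul _ ?_
    exact tendsto_finsetSum _ fun k _ => err_lim (χ k) (F * 2) (by omega) (hlim k)
  rw [sum_const_zero, mul_zero] at l1
  obtain ⟨j₁, hj₁⟩ := eventually_atTop.1 ((hev K).and ((l1.eventually
    (gt_mem_nhds (show (0:ℝ) < δ / 4 by linarith))).and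
    ((eventually_ge_atTop K).and (eventually_ge_atTop L))))
  refine ⟨2 ^ j₁, fun x hx => ?_⟩
  have hx0 : x ≠ 0 := by
    have : 0 < 2 ^ j₁ := by positivity
    omega
  obtain ⟨j, hj⟩ : ∃ j, j = Nat.log 2 x := ⟨_, rfl⟩
  have hjx : 2 ^ j ≤ x := by
    rw [hj]
    exact Nat.pow_log_le_self 2 hx0
  have hxj : x < 2 ^ (j + 1) := by
    rw [hj]
    exact Nat.lt_pow_succ_log_self (by norm_num) x
  have hjj : j₁ ≤ j := by
    have h1 : 2 ^ j₁ < 2 ^ (j + 1) := lt_of_le_of_lt hx hxj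
    have h2 := (Nat.pow_lt_pow_iff_right (by norm_num : 1 < 2)).1 h1
    omega
  obtain ⟨⟨w, hw1, hw2, h1⟩, h2, hKj, hLj⟩ := hj₁ j hjj
  obtain ⟨M, hMg, hMx, hxM⟩ := grid_near hKj hjx hxj
  have hM2 := (grid_mem hKj hMg).2
  obtain ⟨Y, hY⟩ : ∃ Y, Y = 2 ^ (j / (F * 2)) := ⟨_, rfl⟩
  rw [← hY] at h1 h2
  have hY1 : 1 ≤ Y := by rw [hY]; exact Nat.one_le_two_pow
  obtain ⟨S, hS⟩ : ∃ S : Fin ℓ → Finset (ℕ × ℕ), S = fun k => SP (H k) Y (j + 3) := ⟨_, rfl⟩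
  have hSmem : S ∈ Gam ℓ F j := by
    unfold Gam
    rw [Fintype.mem_piFinset]
    intro k
    rw [mem_powerset, ← hY, hS]
    exact filter_subset _ _
  have h3 := h1 M hMg S hSmem
  obtain ⟨b, hb⟩ : ∃ b : ℕ → ℝ, b = fun m => (nfac w g T (m + 1) *
      ∏ t : Fin L, ∏ k ∈ E t, H k (m + 1 + (t : ℕ))) * W (m + 1) := ⟨_, rfl⟩
  have h5 : ∀ m ∈ range M, |b m - nwgt w g T E ψ Y S m * W (m + 1)| ≤
      2 * ∑ t : Fin L, ∑ k : Fin ℓ,
      (if H k (m + 1 + (t : ℕ)) ≠ app Y (S k) (ψ k) (m + 1 + (t : ℕ)) then (1:ℝ) else 0) := by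
    intro m _
    have e : b m - nwgt w g T E ψ Y S m * W (m + 1) = (nfac w g T (m + 1) *
      ∏ t : Fin L, ∏ k ∈ E t, H k (m + 1 + (t : ℕ)) - nwgt w g T E ψ Y S m) * W (m + 1) := by
      rw [hb]
      ring
    rw [e, abs_mul, hWb, mul_one]
    exact ndiff hw1 g hg T E ψ hψ1 H hH Y S m
  have h50 : ∑ m ∈ range M, |a m - b m| ≤ 1 / ((N : ℝ) + 1) * ((2 ^ (j + 1) : ℕ) : ℝ) := by
    have h51 : ∀ m ∈ range M, |a m - b m| ≤ |v (m + 1) - w (m + 1)| := by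
      intro m _
      have e : a m - b m = ((nfac v g T (m + 1) - nfac w g T (m + 1)) *
          ∏ t : Fin L, ∏ k ∈ E t, H k (m + 1 + (t : ℕ))) * W (m + 1) := by
        rw [ha, hb]
        ring
      rw [e, abs_mul, hWb, mul_one, abs_mul]
      refine le_trans (mul_le_of_le_one_right (abs_nonneg _)
        (prod_abs_le _ _ fun t _ => prod_abs_le _ _ fun k _ => ?_)) (nfac_diff v w hg T (m + 1))
      rcases (hH k).val (m + 1 + (t : ℕ)) (by omega) with h | h <;> rw [h] <;> simp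
    refine (sum_le_sum h51).trans (le_trans ?_ hw2)
    have h52 := Finset.sum_Ico_add' (fun n : ℕ => |v n - w n|) 0 M 1
    rw [← Finset.range_eq_Ico] at h52
    rw [h52]
    refine sum_le_sum_of_subset_of_nonneg (fun n hn => ?_) fun _ _ _ => abs_nonneg _
    rw [mem_Ico] at hn
    rw [mem_Icc]
    omega
  have h6 : ∑ m ∈ range M, |b m - nwgt w g T E ψ Y S m * W (m + 1)| ≤
      2 * ∑ t : Fin L, ∑ k : Fin ℓ, 10 * 2 ^ j * err (H k) (χ k) Y j := by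
    refine (sum_le_sum h5).trans ?_
    rw [← mul_sum, sum_comm]
    apply mul_le_mul_of_nonneg_left _ (by norm_num)
    refine sum_le_sum fun t _ => ?_
    rw [sum_comm]
    refine sum_le_sum fun k _ => ?_
    rw [← sum_filter, sum_const, nsmul_eq_mul, mul_one]
    have ht : (t : ℕ) ≤ 2 ^ j := by
      have h7 := t.2
      have h8 : j < 2 ^ j := Nat.lt_two_pow_self
      omega
    have h9 := mis_cardN (hH k) (hq k) (χ k) Y j (t : ℕ) M hY1 ht hM2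
    rw [hS, hψ]
    exact h9
  have h10 : 2 * ∑ t : Fin L, ∑ k : Fin ℓ, 10 * 2 ^ j * err (H k) (χ k) Y j =
      (20 * L * ∑ k : Fin ℓ, err (H k) (χ k) Y j) * 2 ^ j := by
    rw [sum_const, card_univ, Fintype.card_fin, nsmul_eq_mul, ← mul_sum]
    ring
  rw [h10] at h6
  have h11 : |∑ m ∈ range M, a m| ≤ 1 / ((N : ℝ) + 1) * M +
      (20 * L * ∑ k : Fin ℓ, err (H k) (χ k) Y j) * 2 ^ j +
        1 / ((N : ℝ) + 1) * ((2 ^ (j + 1) : ℕ) : ℝ) := by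
    have h12 : ∑ m ∈ range M, a m = ∑ m ∈ range M, nwgt w g T E ψ Y S m * W (m + 1) +
        ∑ m ∈ range M, (b m - nwgt w g T E ψ Y S m * W (m + 1)) +
          ∑ m ∈ range M, (a m - b m) := by
      rw [← sum_add_distrib, ← sum_add_distrib]
      refine sum_congr rfl fun m _ => ?_
      ring
    rw [h12]
    refine (abs_add_le _ _).trans (add_le_add ((abs_add_le _ _).trans (add_le_add h3 ?_)) ?_)
    · exact (abs_sum_le_sum_abs _ _).trans h6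
    · exact (abs_sum_le_sum_abs _ _).trans h50
  have h13 : |∑ m ∈ range x, a m| ≤ |∑ m ∈ range M, a m| + 2 ^ (j - K) := by
    have h14 : ∑ m ∈ range x, a m = ∑ m ∈ range M, a m + ∑ m ∈ Ico M x, a m := by
      rw [sum_range_add_sum_Ico _ hMx]
    rw [h14]
    refine (abs_add_le _ _).trans (add_le_add le_rfl ?_)
    refine (abs_sum_le_sum_abs _ _).trans ((sum_le_sum fun m _ => ha1 m).trans ?_)
    rw [sum_const, Nat.card_Ico, nsmul_eq_mul, mul_one]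
    have h15 : x - M ≤ 2 ^ (j - K) := by omega
    exact_mod_cast h15
  have hxr : (0:ℝ) < x := by exact_mod_cast Nat.pos_of_ne_zero hx0
  have hjr : (2:ℝ) ^ j ≤ x := by exact_mod_cast hjx
  have hMr : (M:ℝ) ≤ x := by exact_mod_cast hMx
  have h16 : (2:ℝ) ^ (j - K) ≤ δ / 4 * x := by
    have h17 : (2:ℝ) ^ j = 2 ^ (j - K) * 2 ^ K := by
      rw [← pow_add]
      congr 1
      omega
    have h18 : (0:ℝ) < 2 ^ (j - K) := by positivity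
    have h19 : 4 < (2:ℝ) ^ K * δ := by rwa [div_lt_iff₀ hδ] at hK
    have h20 : (2:ℝ) ^ (j - K) * 4 ≤ 2 ^ (j - K) * (2 ^ K * δ) :=
      mul_le_mul_of_nonneg_left h19.le h18.le
    have h21 : (2:ℝ) ^ (j - K) * (2 ^ K * δ) = 2 ^ j * δ := by rw [h17]; ring
    have h22 : (2:ℝ) ^ j * δ ≤ x * δ := mul_le_mul_of_nonneg_right hjr hδ.le
    linarith
  have h24 : 1 / ((N : ℝ) + 1) ≤ δ / 16 := by
    rw [div_lt_iff₀ hδ] at hN
    rw [div_le_div_iff₀ (by positivity) (by norm_num)]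
    nlinarith
  have h23 : 1 / ((N : ℝ) + 1) * M ≤ δ / 16 * x :=
    mul_le_mul h24 hMr (Nat.cast_nonneg _) (by linarith)
  have h28 : 1 / ((N : ℝ) + 1) * ((2 ^ (j + 1) : ℕ) : ℝ) ≤ δ / 16 * (2 * x) := by
    refine mul_le_mul h24 ?_ (Nat.cast_nonneg _) (by linarith)
    push_cast
    rw [pow_succ]
    linarith
  have h25 : (20 * L * ∑ k : Fin ℓ, err (H k) (χ k) Y j) * 2 ^ j ≤ δ / 4 * x := by
    have h26 : (0:ℝ) < 2 ^ j := by positivity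
    exact mul_le_mul h2.le hjr h26.le (by linarith)
  rw [Real.dist_eq, sub_zero, abs_div, abs_of_pos hxr, div_lt_iff₀ hxr]
  have h27 : 0 < δ * x := mul_pos hδ hxr
  linarith

section prob

/-- the correlations with all near characters, all weights of thin classes, natural averages -/
theorem nnear {Ω : Type} [MeasurableSpace Ω] {P : Measure Ω} [IsProbabilityMeasure P]
    [Countable ι] {e : ι → ℕ → Ω → ℝ}
    (hm : ∀ j p, Measurable (e j p)) (he : ∀ j p ω, e j p ω = 1 ∨ e j p ω = -1)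
    (hind : iIndepFun (fun (p : ℕ) (ω : Ω) (i : ι) => e i p ω) P) (hW : Win P e)
    {g : ι → ℕ → ℝ} (hg : ∀ i, SignMul (g i)) {V : ℕ → Set (ℕ → ℝ)} (hV : ∀ s, RThin (V s)) :
    ∀ᵐ ω ∂P, ∀ (s : ℕ), ∀ v ∈ V s, ∀ (ℓ : ℕ) (A : Fin ℓ → Finset ι) (L : ℕ)
      (E : Fin L → Finset (Fin ℓ)),
      (∃ t, (BB A (E t)).Nonempty) → ∀ H : Fin ℓ → ℕ → ℝ, (∀ k, SignMul (H k)) →
      (∀ k, Near (H k)) →
      Tendsto (fun X : ℕ => (∑ m ∈ range X, v (m + 1) *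
      (∏ t : Fin L, ∏ k ∈ E t, fam (fun i => rf (g i) (fun p => e i p ω)) A H k
        (m + 1 + (t : ℕ)))) / (X : ℝ)) atTop (nhds 0) := by
  classical
  have hF := fun (T : Finset (ι × ℕ)) (hT : T.Nonempty) (N : ℕ) => nfixW hm he hind hW T hT N
  choose F hF1 hF2 using hF
  have hΔ := fun (s N D : ℕ) => (hV s).net (1 / ((N : ℝ) + 1)) (by positivity) D
  choose Δ hΔ1 hΔ2 using hΔ
  have hall : ∀ᵐ ω ∂P, ∀ (s : ℕ) (ℓ : ℕ) (L : ℕ) (T : Finset (ι × ℕ)) (E : Fin L → Finset (Fin ℓ))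
      (q : Fin ℓ → ℕ) (U W : Fin ℓ → Finset ℕ) (N K : ℕ) (hT : T.Nonempty),
      ∀ᶠ j : ℕ in atTop, ∀ M ∈ grid K j, ∀ γ ∈ Gam ℓ (F T hT N) j,
      ∀ w ∈ Δ s N (4 * F T hT N) j,
      |∑ m ∈ range M, nwgt w g T E (fun k => per (q k) (U k) (W k))
        (2 ^ (j / (F T hT N * 2))) γ m * WW e T (m + 1) ω| ≤ 1 / ((N : ℝ) + 1) * M := by
    rw [ae_all_iff]
    intro s
    rw [ae_all_iff]
    intro ℓ
    rw [ae_all_iff]
    intro L
    rw [ae_all_iff]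
    intro T
    rw [ae_all_iff]
    intro E
    rw [ae_all_iff]
    intro q
    rw [ae_all_iff]
    intro U
    rw [ae_all_iff]
    intro W
    rw [ae_all_iff]
    intro N
    rw [ae_all_iff]
    intro K
    by_cases hT : T.Nonempty
    swap
    · exact Eventually.of_forall fun ω h => absurd h hT
    have h1 := hF2 T hT N K ℓ (Δ s N (4 * F T hT N))
      (fun j γ w m => nwgt w g T E (fun k => per (q k) (U k) (W k))
        (2 ^ (j / (F T hT N * 2))) γ m)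
      ((hΔ2 s N (4 * F T hT N)).mono fun j hj => hj.1)
      (fun j γ w hw m => nwgt_abs (hΔ1 s N (4 * F T hT N) j w hw) hg T E _
          (fun k n => per_abs _ _ _ _) _ _ _)
    filter_upwards [h1] with ω hω _
    exact hω
  filter_upwards [hall] with ω hω s v hv ℓ A L E hne H hH hHN
  choose q χ hq hlim using hHN
  obtain ⟨t, i, hi⟩ := hne
  have hT : (TT A E).Nonempty := by
    refine ⟨(i, (t : ℕ)), ?_⟩
    unfold TT
    rw [mem_biUnion]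
    exact ⟨t, mem_univ _, mem_image.2 ⟨i, hi, rfl⟩⟩
  have h1 := detN ((hV s).1 v hv) g hg (TT A E) E H hH (fun n => WW e (TT A E) n ω)
    (fun n => WW_abs he _ _ _) q hq χ (fun k => by
      refine (hlim k).congr fun X => ?_
      congr 1) (fun N => ⟨F (TT A E) hT N, hF1 _ hT N, fun K => by
      have h2 := hω s ℓ L (TT A E) E q
        (fun k => (range (q k)).filter (fun a => χ k (a : ZMod (q k)) = 1))
        (fun k => (range (q k)).filter (fun a => χ k (a : ZMod (q k)) = -1)) N K hT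
      filter_upwards [h2, hΔ2 s N (4 * F (TT A E) hT N)] with j hj1 hj2
      obtain ⟨w, hw, hvw⟩ := hj2.2 v hv
      exact ⟨w, hΔ1 s N (4 * F (TT A E) hT N) j w hw, hvw, fun M hM γ hγ => hj1 M hM γ hγ w hw⟩⟩)
  refine h1.congr fun X => ?_
  congr 1
  refine sum_congr rfl fun m _ => ?_
  rw [corr_eq e he hg A H E ω (by omega : 1 ≤ m + 1)]
  unfold nfac cc
  rw [if_neg (Nat.succ_ne_zero m), if_neg (Nat.succ_ne_zero m)]
  ring

end prob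

end Pool.Agent.U463.RB
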