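import Pool.Agent.U463.RB.UFam

/-!
# Natural averages, all near characters at once
-/

set_option autoImplicit false

namespace Pool.Agent.U463.RB

open Finset MeasureTheory ProbabilityTheory Filter
open Pool.Agent.W257.FS
open Pool.Agent.W136.RF (cm cm_range cm_abs WW WW_abs WW_meas)
open Pool.Agent.TH573.JF
open Pool.Agent.U463.RS (sum_inv_sq)
open scoped ENNReal

/-- the grid of scales in `[2^j, 2^(j+1)]` -/
def grid (K j : ℕ) : Finset ℕ := (range (2 ^ K)).image (fun i => 2 ^ j + i * 2 ^ (j - K))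

theorem grid_mem {K j N : ℕ} (hKj : K ≤ j) (h : N ∈ grid K j) : 2 ^ j ≤ N ∧ N ≤ 2 ^ (j + 1) := by
  unfold grid at h
  rw [mem_image] at h
  obtain ⟨i, hi, rfl⟩ := h
  rw [mem_range] at hi
  refine ⟨Nat.le_add_right _ _, ?_⟩
  have h1 : i * 2 ^ (j - K) ≤ 2 ^ K * 2 ^ (j - K) := Nat.mul_le_mul_right _ hi.le
  have h2 : 2 ^ K * 2 ^ (j - K) = 2 ^ j := by rw [← pow_add]; congr 1; omega
  rw [pow_succ]
  omega

theorem grid_near {K j x : ℕ} (hKj : K ≤ j) (h1 : 2 ^ j ≤ x) (h2 : x < 2 ^ (j + 1)) :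
    ∃ N ∈ grid K j, N ≤ x ∧ x ≤ N + 2 ^ (j - K) := by
  obtain ⟨i, hi⟩ : ∃ i, i = (x - 2 ^ j) / 2 ^ (j - K) := ⟨_, rfl⟩
  have hp : 0 < 2 ^ (j - K) := by positivity
  have h3 : 2 ^ K * 2 ^ (j - K) = 2 ^ j := by rw [← pow_add]; congr 1; omega
  have h4 : i * 2 ^ (j - K) ≤ x - 2 ^ j := by rw [hi]; exact Nat.div_mul_le_self _ _
  have h5 : x - 2 ^ j < (i + 1) * 2 ^ (j - K) := by
    rw [hi]
    have h50 := Nat.lt_div_mul_add hp (a := x - 2 ^ j)
    rw [add_mul, one_mul]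
    exact h50
  have h6 : i < 2 ^ K := by
    rw [hi, Nat.div_lt_iff_lt_mul hp, h3]
    rw [pow_succ] at h2
    omega
  refine ⟨2 ^ j + i * 2 ^ (j - K), ?_, by omega, ?_⟩
  · unfold grid
    exact mem_image.2 ⟨i, mem_range.2 h6, rfl⟩
  · rw [add_mul, one_mul] at h5
    omega

section prob

variable {Ω ι : Type} [MeasurableSpace Ω]

/-- many weights and scales at once -/
theorem ngood {P : Measure Ω} [IsProbabilityMeasure P] {ε : ι → ℕ → Ω → ℝ}
    (hm : ∀ j p, Measurable (ε j p)) (he : ∀ j p ω, ε j p ω = 1 ∨ ε j p ω = -1)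
    (hind : iIndepFun (fun (p : ℕ) (ω : Ω) (i : ι) => ε i p ω) P) (T : Finset (ι × ℕ)) (h0 B : ℕ)
    (ht : (lay T h0).Nonempty) (hB : ∀ t ∈ T, t.2 ≤ B) {κ : Type*} (Γ : ℕ → Finset κ)
    (c : ℕ → κ → ℕ → ℝ) (hc : ∀ j, ∀ γ ∈ Γ j, ∀ m, |c j γ m| ≤ 1)
    (η : ℝ) (hη : 0 < η) (K : ℕ) (y : ℕ → ℕ) (hy : ∀ᶠ j : ℕ in atTop, 1 ≤ y j ∧ B ≤ y j)
    (hS : ∀ᶠ j : ℕ in atTop, 2 + 160 / η ≤
      ∑ q ∈ (Icc 1 (2 ^ (j / 4))).filter (fun q => q.Prime ∧ y j < q),
        (1 - |∫ ω, ∏ i ∈ lay T h0, ε i q ω ∂P|) / q)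
    (hsum : ∀ᶠ j : ℕ in atTop, ((Γ j).card : ℝ) *
      Real.exp (-(η ^ 2 * y j / (128 * (T.card : ℝ) ^ 2))) ≤ Real.exp (-(j : ℝ))) :
    ∀ᵐ ω ∂P, ∀ᶠ j : ℕ in atTop, ∀ N ∈ grid K j, ∀ γ ∈ Γ j,
      |∑ m ∈ range N, c j γ m * WW ε T (m + 1) ω| ≤ η * N := by
  classical
  obtain ⟨j₀, hj₀⟩ := eventually_atTop.1 (hy.and (hS.and (hsum.and (eventually_ge_atTop K))))
  have hBC := ae_eventually_notMem (μ := P) (s := fun j => if j₀ ≤ j then
      ⋃ N ∈ grid K j, ⋃ γ ∈ Γ j,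
        {ω | η * N < |∑ m ∈ range N, c j γ m * WW ε T (m + 1) ω|} else ∅) (by
    have hle : ∀ j : ℕ, P (if j₀ ≤ j then
        ⋃ N ∈ grid K j, ⋃ γ ∈ Γ j,
        {ω | η * N < |∑ m ∈ range N, c j γ m * WW ε T (m + 1) ω|} else ∅) ≤
        ENNReal.ofReal (2 ^ K * (2 * Real.exp (-(j : ℝ)))) := by
      intro j
      split_ifs with h
      · obtain ⟨⟨a1, a2⟩, a3, a4, a5⟩ := hj₀ j h
        refine (measure_biUnion_finset_le _ _).trans ?_
        have hN : ∀ N ∈ grid K j, P (⋃ γ ∈ Γ j,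
            {ω | η * N < |∑ m ∈ range N, c j γ m * WW ε T (m + 1) ω|}) ≤
            ENNReal.ofReal (2 * Real.exp (-(j : ℝ))) := by
          intro N hN
          have hN1 := (grid_mem a5 hN).1
          refine (measure_biUnion_finset_le _ _).trans ?_
          have hz : (2 ^ (j / 4)) ^ 4 ≤ N := by
            rw [← pow_mul]
            exact (Nat.pow_le_pow_right (by norm_num) (Nat.div_mul_le_self j 4)).trans hN1
          refine (sum_le_sum fun γ hγ => gscale hm he hind T h0 B ht hB η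
            ((Icc 1 (2 ^ (j / 4))).filter (fun q => q.Prime ∧ y j < q)) (y j) (2 ^ (j / 4)) N
            hη a1 (fun q hq => ?_) hz a3 (c j γ) (hc j γ hγ)).trans ?_
          · rw [mem_filter, mem_Icc] at hq
            exact ⟨hq.2.1, hq.2.2, by omega, hq.1.2⟩
          · rw [sum_const, nsmul_eq_mul, ← ENNReal.ofReal_natCast,
              ← ENNReal.ofReal_mul (Nat.cast_nonneg _)]
            apply ENNReal.ofReal_le_ofReal
            linarith
        refine (sum_le_sum hN).trans ?_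
        rw [sum_const, nsmul_eq_mul, ENNReal.ofReal_mul (p := (2:ℝ) ^ K) (by positivity)]
        refine mul_le_mul' ?_ le_rfl
        have m4 : (grid K j).card ≤ 2 ^ K := by
          unfold grid
          exact card_image_le.trans (le_of_eq (card_range _))
        have m5 : ENNReal.ofReal ((2:ℝ) ^ K) = ((2 ^ K : ℕ) : ℝ≥0∞) := by
          rw [← ENNReal.ofReal_natCast]; push_cast; rfl
        rw [m5]
        exact_mod_cast m4
      · rw [measure_empty]; exact bot_le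
    have hs : Summable (fun j : ℕ => (2:ℝ) ^ K * (2 * Real.exp (-(j : ℝ)))) :=
      (Real.summable_exp_neg_nat.mul_left _).mul_left _
    refine ne_top_of_le_ne_top ?_ (ENNReal.tsum_le_tsum hle)
    rw [← ENNReal.ofReal_tsum_of_nonneg (fun j => by positivity) hs]
    exact ENNReal.ofReal_ne_top)
  filter_upwards [hBC] with ω hω
  filter_upwards [hω, eventually_ge_atTop j₀] with j hj hjj N hN γ hγ
  rw [if_pos hjj] at hj
  by_contra hc2
  apply hj
  rw [Set.mem_iUnion₂]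
  refine ⟨N, hN, ?_⟩
  rw [Set.mem_iUnion₂]
  exact ⟨γ, hγ, not_le.1 hc2⟩

/-- the entropy condition -/
theorem ent_le (F : ℕ) (hF : 1 ≤ F) (a : ℝ) (ha : 0 < a) :
    ∀ᶠ j : ℕ in atTop, ∀ u : ℝ, 0 ≤ u → u ^ (4 * F) ≤ ((2 ^ (j + 1) : ℕ) : ℝ) →
      u ≤ a * ((2 ^ (j / F) : ℕ) : ℝ) := by
  have t0 : Tendsto (fun j : ℕ => ((2 ^ (j / F) : ℕ) : ℝ)) atTop atTop :=
    tendsto_natCast_atTop_atTop.comp
      ((tendsto_pow_atTop_atTop_of_one_lt (by norm_num : (1:ℕ) < 2)).comp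
        (Nat.tendsto_div_const_atTop (by omega)))
  filter_upwards [t0.eventually_ge_atTop (2 ^ F / a ^ (4 * F))] with j hj u hu hju
  obtain ⟨k, hk⟩ : ∃ k, k = j / F := ⟨_, rfl⟩
  rw [← hk] at hj ⊢
  push_cast at hj hju ⊢
  by_contra hcon
  push Not at hcon
  have hjk : j < F * (k + 1) := by
    rw [hk]
    have := Nat.lt_div_mul_add hF (a := j)
    calc j < j / F * F + F := this
      _ = F * (j / F + 1) := by ring
  have h1 : (a * 2 ^ k) ^ (4 * F) ≤ u ^ (4 * F) := pow_le_pow_left₀ (by positivity) hcon.le _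
  have h2 : (2:ℝ) ^ (j + 1) ≤ 2 ^ (F * (k + 1)) := pow_le_pow_right₀ (by norm_num) (by omega)
  have h3 : (a * 2 ^ k) ^ (4 * F) = a ^ (4 * F) * 2 ^ (3 * F * k) * 2 ^ (F * k) := by
    rw [mul_pow, ← pow_mul, mul_assoc, ← pow_add]
    congr 2
    ring
  have h4 : (2:ℝ) ^ (F * (k + 1)) = 2 ^ F * 2 ^ (F * k) := by
    rw [← pow_add]
    congr 1
    ring
  have h5 : (0:ℝ) < 2 ^ (F * k) := by positivity
  have h6 : a ^ (4 * F) * 2 ^ (3 * F * k) * 2 ^ (F * k) ≤ 2 ^ F * 2 ^ (F * k) := by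
    rw [← h3, ← h4]
    exact h1.trans (hju.trans h2)
  have h7 : a ^ (4 * F) * 2 ^ (3 * F * k) ≤ 2 ^ F := le_of_mul_le_mul_right h6 h5
  have ha4 : 0 < a ^ (4 * F) := by positivity
  -- strict inequality
  have h8 : (2:ℝ) ^ F ≤ a ^ (4 * F) * 2 ^ k := by
    rw [div_le_iff₀ ha4] at hj
    linarith
  have h9 : (2:ℝ) ^ k ≤ 2 ^ (3 * F * k) := by
    refine pow_le_pow_right₀ (by norm_num) ?_
    have : 1 * k ≤ 3 * F * k := Nat.mul_le_mul_right k (by omega)
    omega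
  have h10 : (a * 2 ^ k) ^ (4 * F) < u ^ (4 * F) := pow_lt_pow_left₀ hcon (by positivity) (by omega)
  have h11 : a ^ (4 * F) * 2 ^ (3 * F * k) * 2 ^ (F * k) < 2 ^ F * 2 ^ (F * k) := by
    rw [← h3, ← h4]
    exact lt_of_lt_of_le h10 (hju.trans h2)
  have h12 : a ^ (4 * F) * 2 ^ (3 * F * k) < 2 ^ F := lt_of_mul_lt_mul_right h11 h5.le
  have h13 := mul_le_mul_of_nonneg_left h9 ha4.le
  linarith

/-- the estimate for all sign choices, all scales of the grid and all weights of a class -/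
theorem nfixW {P : Measure Ω} [IsProbabilityMeasure P] {ε : ι → ℕ → Ω → ℝ}
    (hm : ∀ j p, Measurable (ε j p)) (he : ∀ j p ω, ε j p ω = 1 ∨ ε j p ω = -1)
    (hind : iIndepFun (fun (p : ℕ) (ω : Ω) (i : ι) => ε i p ω) P) (hW : Win P ε)
    (T : Finset (ι × ℕ)) (hT : T.Nonempty) (N : ℕ) :
    ∃ F : ℕ, 1 ≤ F ∧ ∀ (K ℓ : ℕ) (Δ : ℕ → Finset (ℕ → ℝ))
      (c : ℕ → (Fin ℓ → Finset (ℕ × ℕ)) → (ℕ → ℝ) → ℕ → ℝ),
      (∀ᶠ j : ℕ in atTop, Real.log (Δ j).card ^ (4 * F) ≤ ((2 ^ (j + 1) : ℕ) : ℝ)) →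
      (∀ j γ, ∀ w ∈ Δ j, ∀ m, |c j γ w m| ≤ 1) → ∀ᵐ ω ∂P, ∀ᶠ j : ℕ in atTop, ∀ M ∈ grid K j,
        ∀ γ ∈ Gam ℓ F j, ∀ w ∈ Δ j,
        |∑ m ∈ range M, c j γ w m * WW ε T (m + 1) ω| ≤ 1 / ((N : ℝ) + 1) * M := by
  obtain ⟨t0, ht0⟩ := hT
  have hl := lay_nonempty ht0
  obtain ⟨η, hη'⟩ : ∃ η : ℝ, η = 1 / ((N : ℝ) + 1) := ⟨_, rfl⟩
  have hη : 0 < η := by rw [hη']; positivity
  obtain ⟨D, hD⟩ := hW _ hl (2 + 160 / η)
  have hw0 : ∀ q, 0 ≤ 1 - |∫ ω, ∏ i ∈ lay T t0.2, ε i q ω ∂P| := by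
    intro q
    have := Pool.Agent.W136.RF.int_pow_le (P := P) (fun ω => prod_or he (lay T t0.2) q ω) 1
    simp only [pow_one] at this
    linarith
  have hT0 : (0:ℝ) < T.card := by
    have : 0 < T.card := card_pos.2 ⟨t0, ht0⟩
    exact_mod_cast this
  have h1 := window_use _ hw0 D (2 + 160 / η) hD
  refine ⟨4 * (D + 1), by omega, fun K ℓ Δ c hΔ hc => ?_⟩
  rw [← hη']
  have key := ngood hm he hind T t0.2 (T.sup Prod.snd) hl
    (fun t ht => le_sup (f := Prod.snd) ht)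
    (fun j => Gam ℓ (4 * (D + 1)) j ×ˢ Δ j) (fun j z m => c j z.1 z.2 m)
    (fun j z hz m => hc j z.1 z.2 (mem_product.1 hz).2 m)
    η hη K (fun j => 2 ^ (j / (4 * (D + 1)))) ?_ h1 ?_
  · filter_upwards [key] with ω hω
    filter_upwards [hω] with j hj M hM γ hγ w hw
    exact hj M hM (γ, w) (mem_product.2 ⟨hγ, hw⟩)
  · have t0' : Tendsto (fun j : ℕ => 2 ^ (j / (4 * (D + 1)))) atTop atTop :=
      (tendsto_pow_atTop_atTop_of_one_lt (by norm_num : (1:ℕ) < 2)).comp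
        (Nat.tendsto_div_const_atTop (by omega))
    filter_upwards [t0'.eventually_ge_atTop (T.sup Prod.snd + 1)] with j hj
    constructor
    · exact Nat.one_le_two_pow
    · show T.sup Prod.snd ≤ 2 ^ (j / (4 * (D + 1)))
      omega
  · obtain ⟨a, ha⟩ : ∃ a : ℝ, a = η ^ 2 / (256 * (T.card : ℝ) ^ 2) := ⟨_, rfl⟩
    have ha0 : 0 < a := by rw [ha]; positivity
    have h2 := summ ℓ (4 * (D + 1)) (by omega) a ha0
    have h3 := ent_le (4 * (D + 1)) (by omega) a ha0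
    filter_upwards [h2, h3, hΔ] with j hj1 hj2 hj3
    obtain ⟨y, hy⟩ : ∃ y : ℝ, y = ((2 ^ (j / (4 * (D + 1))) : ℕ) : ℝ) := ⟨_, rfl⟩
    have h4 := hj2 _ (Real.log_natCast_nonneg _) hj3
    rw [← hy] at hj1 h4 ⊢
    rw [← Gam_card] at hj1
    have h5 : (((Δ j).card : ℕ) : ℝ) * Real.exp (-(a * y)) ≤ 1 := by
      rcases Nat.eq_zero_or_pos (Δ j).card with h0 | h0
      · rw [h0, Nat.cast_zero, zero_mul]
        exact zero_le_one
      · have h6 : (((Δ j).card : ℕ) : ℝ) = Real.exp (Real.log (Δ j).card) := by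
          rw [Real.exp_log]
          exact_mod_cast h0
        rw [h6, ← Real.exp_add]
        rw [← Real.exp_zero]
        apply Real.exp_le_exp.2
        linarith
    rw [card_product]
    push_cast
    have h7 : η ^ 2 * y / (128 * (T.card : ℝ) ^ 2) = a * y + a * y := by
      rw [ha]
      field_simp
      ring
    rw [h7, neg_add, Real.exp_add]
    calc ((Gam ℓ (4 * (D + 1)) j).card : ℝ) * ((Δ j).card : ℝ) *
          (Real.exp (-(a * y)) * Real.exp (-(a * y))) =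
          (((Gam ℓ (4 * (D + 1)) j).card : ℝ) * Real.exp (-(a * y))) *
            (((Δ j).card : ℝ) * Real.exp (-(a * y))) := by ring
      _ ≤ Real.exp (-(j : ℝ)) * 1 := mul_le_mul hj1 h5 (by positivity) (Real.exp_pos _).le
      _ = Real.exp (-(j : ℝ)) := mul_one _

end prob

/-- multiples up to `N` -/
theorem cntN (j s d N : ℕ) (hd : 1 ≤ d) (hs : s ≤ 2 ^ j) (hN : N ≤ 2 ^ (j + 1)) :
    ((((range N).filter (fun m => d ∣ m + 1 + s)).card : ℕ) : ℝ) ≤ 10 * 2 ^ j * (1 / d) := by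
  have hd0 : (0:ℝ) < d := by exact_mod_cast hd
  rcases Nat.lt_or_ge (2 ^ (j + 2)) d with h | h
  · have he : (range N).filter (fun m => d ∣ m + 1 + s) = ∅ := by
      refine filter_eq_empty_iff.2 fun m hm hdm => ?_
      rw [mem_range] at hm
      have h1 := Nat.le_of_dvd (by omega) hdm
      rw [pow_succ, pow_succ] at h
      rw [pow_succ] at hN
      omega
    rw [he, card_empty]
    push_cast
    positivity
  · have h1 := mult_count 0 N (1 + s) d hd
    rw [zero_add, ← range_eq_Ico] at h1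
    have e2 : (range N).filter (fun m => d ∣ m + 1 + s) =
        (range N).filter (fun m => d ∣ m + (1 + s)) :=
      filter_congr fun m _ => by rw [add_assoc]
    rw [e2]
    have h2 : ((((range N).filter (fun m => d ∣ m + (1 + s))).card : ℕ) : ℝ) ≤
        ((N / d + 2 : ℕ) : ℝ) := by
      exact_mod_cast h1
    refine h2.trans ?_
    have h3 : ((N / d : ℕ) : ℝ) ≤ N / d := Nat.cast_div_le
    have h3' : (N:ℝ) / d ≤ 2 * 2 ^ j * (1 / d) := by
      rw [mul_one_div]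
      apply div_le_div_of_nonneg_right _ hd0.le
      have : N ≤ 2 * 2 ^ j := by rw [pow_succ] at hN; omega
      exact_mod_cast this
    have h4 : (d:ℝ) ≤ 2 ^ j * 4 := by
      have : d ≤ 2 ^ j * 4 := by rw [pow_succ, pow_succ] at h; omega
      exact_mod_cast this
    have h5 : (2:ℝ) ≤ 8 * 2 ^ j * (1 / d) := by
      rw [mul_one_div, le_div_iff₀ hd0]
      linarith
    push_cast
    linarith

open Classical in
/-- the number of the integers up to `N` where the approximation fails -/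
theorem mis_cardN {H : ℕ → ℝ} (hH : SignMul H) {q : ℕ} (hq : 1 ≤ q) (χ : DirichletCharacter ℂ q)
    (Y j s N : ℕ) (hY : 1 ≤ Y) (hs : s ≤ 2 ^ j) (hN : N ≤ 2 ^ (j + 1)) :
    ((((range N).filter (fun m => H (m + 1 + s) ≠
      app Y (SP H Y (j + 3)) (per q ((range q).filter (fun a => χ (a : ZMod q) = 1))
      ((range q).filter (fun a => χ (a : ZMod q) = -1))) (m + 1 + s))).card : ℕ) : ℝ) ≤
      10 * 2 ^ j * err H χ Y j := by
  obtain ⟨I, hI⟩ : ∃ I, I = range N := ⟨_, rfl⟩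
  rw [← hI]
  obtain ⟨X1, hX1⟩ : ∃ X1, X1 = (Icc 1 (2 ^ (j + 2))).filter
    (fun p : ℕ => (p.Prime ∧ (H p : ℂ) ≠ χ (p : ZMod q)) ∧ Y < p) := ⟨_, rfl⟩
  obtain ⟨X2, hX2⟩ : ∃ X2, X2 = (Icc 1 (2 ^ (j + 2))).filter
    (fun p : ℕ => p.Prime ∧ Y < p) := ⟨_, rfl⟩
  have hp1 : 1 ≤ 2 ^ j := Nat.one_le_two_pow
  have hsub : I.filter (fun m => H (m + 1 + s) ≠
      app Y (SP H Y (j + 3)) (per q ((range q).filter (fun a => χ (a : ZMod q) = 1))
      ((range q).filter (fun a => χ (a : ZMod q) = -1))) (m + 1 + s)) ⊆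
      (X1.biUnion fun p => I.filter (fun m => p ∣ m + 1 + s)) ∪
      (X2.biUnion fun p => I.filter (fun m => p ^ 2 ∣ m + 1 + s)) := by
    intro m hm
    rw [mem_filter] at hm
    obtain ⟨hmI, hne⟩ := hm
    have hmI' := hmI
    rw [hI, mem_range] at hmI'
    have hnlt : m + 1 + s < 2 ^ (j + 2) := by
      rw [pow_succ, pow_succ]
      rw [pow_succ] at hN
      omega
    have hn0 : m + 1 + s ≠ 0 := by omega
    by_contra hcon
    rw [mem_union, mem_biUnion, mem_biUnion] at hcon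
    push Not at hcon
    apply hne
    refine app_eq hH hq χ Y (j + 3) (m + 1 + s) hn0 ?_ ?_
    · intro p
      by_cases hpp : p.Prime
      · have h1 : 2 ^ (m + 1 + s).factorization p ≤ m + 1 + s := by
          refine (Nat.pow_le_pow_left hpp.two_le _).trans ?_
          exact Nat.le_of_dvd (Nat.pos_of_ne_zero hn0) (Nat.ordProj_dvd _ _)
        have h2 : 2 ^ (m + 1 + s).factorization p < 2 ^ (j + 2) := lt_of_le_of_lt h1 hnlt
        have h3 := (Nat.pow_lt_pow_iff_right (by norm_num : 1 < 2)).1 h2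
        omega
      · rw [Nat.factorization_eq_zero_of_not_prime _ hpp]
        omega
    · intro p hpp hYp hpn
      have hple : p ≤ 2 ^ (j + 2) := (Nat.le_of_dvd (Nat.pos_of_ne_zero hn0) hpn).trans hnlt.le
      constructor
      · by_contra hχ
        have h1 := hcon.1 p (by
          rw [hX1, mem_filter, mem_Icc]
          exact ⟨⟨hpp.pos, hple⟩, ⟨hpp, hχ⟩, hYp⟩)
        exact h1 (mem_filter.2 ⟨hmI, hpn⟩)
      · intro h2
        have h1 := hcon.2 p (by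
          rw [hX2, mem_filter, mem_Icc]
          exact ⟨⟨hpp.pos, hple⟩, hpp, hYp⟩)
        exact h1 (mem_filter.2 ⟨hmI, h2⟩)
  have hc1 : (((X1.biUnion fun p => I.filter (fun m => p ∣ m + 1 + s)).card : ℕ) : ℝ) ≤
      ∑ p ∈ X1, 10 * 2 ^ j * (1 / (p : ℝ)) := by
    have h1 : (((X1.biUnion fun p => I.filter (fun m => p ∣ m + 1 + s)).card : ℕ) : ℝ) ≤
        ∑ p ∈ X1, (((I.filter (fun m => p ∣ m + 1 + s)).card : ℕ) : ℝ) := by
      exact_mod_cast card_biUnion_le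
    refine h1.trans (sum_le_sum fun p hp => ?_)
    rw [hX1, mem_filter] at hp
    rw [hI]
    exact cntN j s p N hp.2.1.1.pos hs hN
  have hc2 : (((X2.biUnion fun p => I.filter (fun m => p ^ 2 ∣ m + 1 + s)).card : ℕ) : ℝ) ≤
      ∑ p ∈ X2, 10 * 2 ^ j * (1 / (p : ℝ) ^ 2) := by
    have h1 : (((X2.biUnion fun p => I.filter (fun m => p ^ 2 ∣ m + 1 + s)).card : ℕ) : ℝ) ≤
        ∑ p ∈ X2, (((I.filter (fun m => p ^ 2 ∣ m + 1 + s)).card : ℕ) : ℝ) := by
      exact_mod_cast card_biUnion_le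
    refine h1.trans (sum_le_sum fun p hp => ?_)
    rw [hX2, mem_filter] at hp
    rw [hI]
    have h2 := cntN j s (p ^ 2) N (Nat.pos_of_ne_zero (pow_ne_zero _ hp.2.1.ne_zero)) hs hN
    push_cast at h2
    exact h2
  have hc3 : ∑ p ∈ X2, (1:ℝ) / (p : ℝ) ^ 2 ≤ 1 / Y := sum_inv_sq X2 Y hY (fun p hp => by
    rw [hX2, mem_filter] at hp
    exact hp.2.2)
  have hc0 := (card_le_card hsub).trans (card_union_le _ _)
  have hc0' : ((I.filter (fun m => H (m + 1 + s) ≠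
      app Y (SP H Y (j + 3)) (per q ((range q).filter (fun a => χ (a : ZMod q) = 1))
      ((range q).filter (fun a => χ (a : ZMod q) = -1))) (m + 1 + s))).card : ℝ) ≤
      (((X1.biUnion fun p => I.filter (fun m => p ∣ m + 1 + s)).card : ℕ) : ℝ) +
      (((X2.biUnion fun p => I.filter (fun m => p ^ 2 ∣ m + 1 + s)).card : ℕ) : ℝ) := by
    exact_mod_cast hc0
  rw [← mul_sum] at hc1 hc2
  have hc4 := mul_le_mul_of_nonneg_left hc3 (by positivity : (0:ℝ) ≤ 10 * 2 ^ j)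
  unfold err
  rw [mul_add, ← hX1]
  linarith

open Classical in
/-- the errors tend to zero -/
theorem err_lim {H : ℕ → ℝ} {q : ℕ} (χ : DirichletCharacter ℂ q) (F : ℕ) (hF : 1 ≤ F)
    (hlim : Tendsto (fun X : ℕ => (∑ p ∈ (Icc 1 X).filter (fun p => p.Prime ∧
      (H p : ℂ) ≠ χ (p : ZMod q)), Real.log p / p) / Real.log X) atTop (nhds 0)) :
    Tendsto (fun j : ℕ => err H χ (2 ^ (j / F)) j) atTop (nhds 0) := by
  obtain ⟨X, hX⟩ : ∃ X : ℕ → ℝ, X = fun x => ∑ p ∈ (Icc 1 x).filter (fun p => p.Prime ∧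
      (H p : ℂ) ≠ χ (p : ZMod q)), Real.log p / p := ⟨_, rfl⟩
  have hlim' : Tendsto (fun x : ℕ => X x / Real.log x) atTop (nhds 0) := by
    rw [hX]; exact hlim
  have hX0 : ∀ x, 0 ≤ X x := by
    intro x
    rw [hX]
    exact sum_nonneg fun p _ => div_nonneg (Real.log_natCast_nonneg p) (Nat.cast_nonneg _)
  have hlog2 : 0 < Real.log 2 := Real.log_pos (by norm_num)
  have l1 : Tendsto (fun j : ℕ => (X (2 ^ (j + 2)) / Real.log ((2 ^ (j + 2) : ℕ) : ℝ)) *
      (6 * F)) atTop (nhds (0 * (6 * F))) := by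
    refine Tendsto.mul_const _ ?_
    exact hlim'.comp ((tendsto_pow_atTop_atTop_of_one_lt (by norm_num : (1:ℕ) < 2)).comp
      (tendsto_add_atTop_nat 2))
  have l2 : Tendsto (fun j : ℕ => (1:ℝ) / ((2 ^ (j / F) : ℕ) : ℝ)) atTop (nhds 0) := by
    have t0 : Tendsto (fun j : ℕ => 2 ^ (j / F)) atTop atTop :=
      (tendsto_pow_atTop_atTop_of_one_lt (by norm_num : (1:ℕ) < 2)).comp
        (Nat.tendsto_div_const_atTop (by omega))
    exact tendsto_one_div_atTop_nhds_zero_nat.comp t0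
  rw [zero_mul] at l1
  have l3 := l1.add l2
  rw [add_zero] at l3
  refine squeeze_zero' (Eventually.of_forall fun j => err_nonneg H χ _ j) ?_ l3
  filter_upwards [eventually_ge_atTop (F + 1)] with j hj
  unfold err
  refine add_le_add ?_ le_rfl
  obtain ⟨k, hk⟩ : ∃ k, k = j / F := ⟨_, rfl⟩
  rw [← hk]
  have hk1 : 1 ≤ k := by
    rw [hk]
    exact (Nat.one_le_div_iff hF).2 (by omega)
  have hjk : j < F * (k + 1) := by
    rw [hk]
    have := Nat.lt_div_mul_add hF (a := j)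
    calc j < j / F * F + F := this
      _ = F * (j / F + 1) := by ring
  have hjk2 : j + 2 ≤ 6 * F * k := by
    have h1 : F ≤ F * k := Nat.le_mul_of_pos_right F hk1
    have h2 : F * (k + 1) = F * k + F := by ring
    have h3 : 6 * F * k = 6 * (F * k) := by ring
    omega
  have hkr : (0:ℝ) < k := by exact_mod_cast hk1
  have h1 : ∑ p ∈ (Icc 1 (2 ^ (j + 2))).filter
      (fun p => (p.Prime ∧ (H p : ℂ) ≠ χ (p : ZMod q)) ∧ 2 ^ k < p), (1 : ℝ) / p ≤
      1 / (k * Real.log 2) * X (2 ^ (j + 2)) := by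
    rw [hX]
    simp only
    rw [mul_sum]
    have h2 : ∀ p ∈ (Icc 1 (2 ^ (j + 2))).filter
        (fun p : ℕ => (p.Prime ∧ (H p : ℂ) ≠ χ (p : ZMod q)) ∧ 2 ^ k < p), (1 : ℝ) / p ≤
        1 / (k * Real.log 2) * (Real.log p / p) := by
      intro p hp
      rw [mem_filter] at hp
      have hp0 : (0:ℝ) < p := by exact_mod_cast hp.2.1.1.pos
      have h3 : (k:ℝ) * Real.log 2 ≤ Real.log p := by
        have h4 : Real.log ((2:ℝ) ^ k) ≤ Real.log p :=
          Real.log_le_log (by positivity) (by exact_mod_cast hp.2.2.le)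
        rwa [Real.log_pow] at h4
      rw [div_mul_div_comm, one_mul, div_le_div_iff₀ hp0 (by positivity)]
      nlinarith
    refine (sum_le_sum h2).trans ?_
    refine sum_le_sum_of_subset_of_nonneg (fun p hp => ?_) fun p _ _ => ?_
    · rw [mem_filter] at hp ⊢
      exact ⟨hp.1, hp.2.1⟩
    · exact mul_nonneg (by positivity) (div_nonneg (Real.log_natCast_nonneg p) (Nat.cast_nonneg _))
  refine h1.trans ?_
  have hlogJ : Real.log ((2 ^ (j + 2) : ℕ) : ℝ) = (j + 2) * Real.log 2 := by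
    push_cast
    rw [Real.log_pow]
    push_cast
    ring
  rw [hlogJ]
  have h5 : 1 / (k * Real.log 2) ≤ 1 / ((j + 2) * Real.log 2) * (6 * F) := by
    rw [div_mul_eq_mul_div, one_mul, div_le_div_iff₀ (by positivity) (by positivity), one_mul]
    have h6 : ((j:ℝ) + 2) ≤ 6 * F * k := by exact_mod_cast hjk2
    have h7 := mul_le_mul_of_nonneg_right h6 hlog2.le
    linarith
  have h8 := mul_le_mul_of_nonneg_right h5 (hX0 (2 ^ (j + 2)))
  refine h8.trans (le_of_eq ?_)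
  ring

end Pool.Agent.U463.RB
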