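import Pool.Agent.U463.RB.Bad
import Pool.Agent.W136.RF.Prob

/-!
# Independent signs with arbitrary bias: one scale
-/

set_option autoImplicit false

namespace Pool.Agent.U463.RB

open Finset MeasureTheory ProbabilityTheory
open Pool.Agent.W136.RF (cm cm_range cm_abs WW WW_abs WW_meas)

variable {Ω ι : Type*} [MeasurableSpace Ω]

/-- the probability of the value `-1` -/
noncomputable def neg (P : Measure Ω) (e : ℕ → Ω → ℝ) (q : ℕ) : ℝ := (P {ω | e q ω = -1}).toReal

section one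

variable {P : Measure Ω} [IsProbabilityMeasure P] {e : ℕ → Ω → ℝ}

theorem neg_nonneg (q : ℕ) : 0 ≤ neg P e q := ENNReal.toReal_nonneg

theorem neg_le_one (q : ℕ) : neg P e q ≤ 1 := by
  unfold neg
  exact measureReal_le_one (μ := P) (s := {ω | e q ω = -1})

theorem meas_set (hm : ∀ p, Measurable (e p)) (q : ℕ) (c : ℝ) : MeasurableSet {ω | e q ω = c} :=
  hm q (measurableSet_singleton c)

theorem prob_neg (q : ℕ) : P {ω | e q ω = -1} = ENNReal.ofReal (neg P e q) := by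
  unfold neg
  rw [ENNReal.ofReal_toReal (measure_ne_top _ _)]

theorem prob_pos (hm : ∀ p, Measurable (e p)) (he : ∀ p ω, e p ω = 1 ∨ e p ω = -1) (q : ℕ) :
    P {ω | e q ω = 1} = ENNReal.ofReal (1 - neg P e q) := by
  have h1 : {ω | e q ω = 1} = {ω | e q ω = -1}ᶜ := by
    ext ω
    simp only [Set.mem_ofPred_eq, Set.mem_compl_iff]
    rcases he q ω with h | h <;> rw [h] <;> norm_num
  rw [h1, prob_compl_eq_one_sub (meas_set hm q (-1)), prob_neg, ENNReal.ofReal_sub 1 (neg_nonneg q),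
    ENNReal.ofReal_one]

theorem integral_eq (hm : ∀ p, Measurable (e p)) (he : ∀ p ω, e p ω = 1 ∨ e p ω = -1) (q : ℕ) :
    ∫ ω, e q ω ∂P = 1 - 2 * neg P e q := by
  have h1 : ∀ ω, e q ω = 1 - 2 * Set.indicator {ω | e q ω = -1} (fun _ => (1:ℝ)) ω := by
    intro ω
    by_cases h : e q ω = -1
    · rw [Set.indicator_of_mem (by exact h), h]; norm_num
    · rw [Set.indicator_of_notMem (by exact h)]
      rcases he q ω with h2 | h2
      · rw [h2]; norm_num
      · exact absurd h2 h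
  rw [integral_congr_ae (Filter.Eventually.of_forall h1), integral_sub (integrable_const _)
    (((integrable_const _).indicator (meas_set hm q (-1))).const_mul _), integral_const,
    integral_const_mul, integral_indicator_const _ (meas_set hm q (-1))]
  simp only [probReal_univ, smul_eq_mul, mul_one]
  rfl

open Classical in
/-- the law of the signs at the primes of `Q` -/
theorem prob_pattern (hm : ∀ p, Measurable (e p)) (he : ∀ p ω, e p ω = 1 ∨ e p ω = -1)
    (hind : iIndepFun e P) (Q S : Finset ℕ) (hS : S ⊆ Q) :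
    P {ω | ∀ q ∈ Q, e q ω = if q ∈ S then -1 else 1} = ENNReal.ofReal (W (neg P e) Q S) := by
  have h1 : {ω | ∀ q ∈ Q, e q ω = if q ∈ S then (-1 : ℝ) else 1} =
      ⋂ q ∈ Q, e q ⁻¹' {if q ∈ S then (-1 : ℝ) else 1} := by
    ext ω
    simp
  rw [h1, hind.measure_inter_preimage_eq_mul Q (fun q _ => measurableSet_singleton _)]
  have h2 : ∀ q ∈ Q, P (e q ⁻¹' {if q ∈ S then (-1 : ℝ) else 1}) =
      ENNReal.ofReal (if q ∈ S then neg P e q else 1 - neg P e q) := by
    intro q _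
    split_ifs
    · exact prob_neg q
    · exact prob_pos hm he q
  rw [prod_congr rfl h2, ← ENNReal.ofReal_prod_of_nonneg]
  · congr 1
    unfold W
    rw [prod_ite]
    congr 1
    · refine prod_congr ?_ fun _ _ => rfl
      ext q
      rw [mem_filter]
      exact ⟨fun h => h.2, fun h => ⟨hS h, h⟩⟩
    · refine prod_congr ?_ fun _ _ => rfl
      ext q
      rw [mem_filter, mem_sdiff]
  · intro q _
    split_ifs
    · exact neg_nonneg q
    · have := neg_le_one (P := P) (e := e) q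
      linarith

open Classical in
/-- all other signs fixed -/
theorem fix_one (hm : ∀ p, Measurable (e p)) (he : ∀ p ω, e p ω = 1 ∨ e p ω = -1)
    (hind : iIndepFun e P) (H : Finset ℕ) (h0 B : ℕ) (hh0 : h0 ∈ H) (hB : ∀ h ∈ H, h ≤ B) (η : ℝ)
    (Q : Finset ℕ) (y z x : ℕ) (hη : 0 < η) (hy : 1 ≤ y)
    (hQ : ∀ q ∈ Q, q.Prime ∧ y < q ∧ B < q ∧ q ≤ z) (hz : z ^ 4 ≤ x)
    (hS : 2 + 160 / η ≤ ∑ q ∈ Q, (1 - |∫ ω, e q ω ∂P|) / q)
    (G : ℕ → ℝ) (hG : ∀ m, |G m| ≤ 1) :
    P {ω | η * x < |∑ m ∈ range x, G m * ∏ q ∈ Q, e q ω ^ (vv H q m)|} ≤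
      ENNReal.ofReal (2 * Real.exp (-(η ^ 2 * y / (128 * (H.card : ℝ) ^ 2)))) := by
  have key := bad_w H h0 B hh0 hB η Q y z x hη hy hQ hz (neg P e) (fun q _ => neg_nonneg q)
    (fun q _ => neg_le_one q) (by
      refine hS.trans (le_of_eq (sum_congr rfl fun q _ => ?_))
      rw [integral_eq hm he]) G hG
  obtain ⟨bad, hbad⟩ : ∃ bad : Finset (Finset ℕ), bad = Q.powerset.filter
    (fun S => η * x < |∑ m ∈ range x, G m * ∏ q ∈ S, (-1 : ℝ) ^ (vv H q m)|) := ⟨_, rfl⟩
  rw [← hbad] at key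
  have hsub : {ω | η * x < |∑ m ∈ range x, G m * ∏ q ∈ Q, e q ω ^ (vv H q m)|} ⊆
      ⋃ S ∈ bad, {ω | ∀ q ∈ Q, e q ω = if q ∈ S then -1 else 1} := by
    intro ω hω
    rw [Set.mem_ofPred_eq] at hω
    rw [Set.mem_iUnion₂]
    refine ⟨Q.filter (fun q => e q ω = -1), ?_, ?_⟩
    · rw [hbad, mem_filter, mem_powerset]
      refine ⟨filter_subset _ _, ?_⟩
      refine hω.trans_le (le_of_eq ?_)
      congr 1
      refine sum_congr rfl fun m _ => ?_
      congr 1
      rw [prod_filter]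
      refine prod_congr rfl fun q _ => ?_
      split_ifs with h
      · rw [h]
      · rw [(he q ω).resolve_right h, one_pow]
    · rw [Set.mem_ofPred_eq]
      intro q hq
      by_cases h : e q ω = -1
      · rw [if_pos (mem_filter.2 ⟨hq, h⟩), h]
      · rw [if_neg (show q ∉ Q.filter (fun q => e q ω = -1) from fun h2 => h (mem_filter.1 h2).2)]
        exact (he q ω).resolve_right h
  refine (measure_mono hsub).trans ((measure_biUnion_finset_le _ _).trans ?_)
  have h2 : ∀ S ∈ bad, P {ω | ∀ q ∈ Q, e q ω = if q ∈ S then -1 else 1} =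
      ENNReal.ofReal (W (neg P e) Q S) := by
    intro S hSb
    rw [hbad, mem_filter, mem_powerset] at hSb
    exact prob_pattern hm he hind Q S hSb.1
  rw [sum_congr rfl h2, ← ENNReal.ofReal_sum_of_nonneg]
  · exact ENNReal.ofReal_le_ofReal key
  · intro S hSb
    rw [hbad, mem_filter, mem_powerset] at hSb
    exact W_nonneg (fun q _ => neg_nonneg q) (fun q _ => neg_le_one q) hSb.1

end one

/-- the exponents -/
def ex1 [DecidableEq ι] (T : Finset (ι × ℕ)) (n : ℕ) (i : ι × ℕ) : ℕ :=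
  ∑ t ∈ T.filter (fun t => t.1 = i.1), (n + t.2).factorization i.2

theorem WW_prod1 [DecidableEq ι] (ε : ι → ℕ → Ω → ℝ) (T : Finset (ι × ℕ)) (n B : ℕ)
    (hB : ∀ t ∈ T, n + t.2 ≤ B) (ω : Ω) :
    WW ε T n ω = ∏ i ∈ T.image Prod.fst ×ˢ range (B + 1), ε i.1 i.2 ω ^ (ex1 T n i) := by
  rw [prod_product]
  unfold WW
  rw [← prod_fiberwise_of_maps_to (s := T) (t := T.image Prod.fst) (g := Prod.fst)
    (fun t ht => mem_image_of_mem _ ht)]
  apply prod_congr rfl
  intro j _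
  have h1 : ∀ t ∈ T.filter (fun t => t.1 = j), cm (fun p => ε t.1 p ω) (n + t.2) =
      ∏ p ∈ range (B + 1), ε j p ω ^ ((n + t.2).factorization p) := by
    intro t ht
    rw [mem_filter] at ht
    rw [cm_range _ (hB t ht.1), ht.2]
  rw [prod_congr rfl h1, prod_comm]
  apply prod_congr rfl
  intro p _
  rw [prod_pow_eq_pow_sum]
  rfl

open Classical in
/-- **one scale**: the signs at the primes of `Q` are independent of all the others -/
theorem scale_w {P : Measure Ω} [IsProbabilityMeasure P] {ε : ι → ℕ → Ω → ℝ}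
    (hm : ∀ j p, Measurable (ε j p)) (he : ∀ j p ω, ε j p ω = 1 ∨ ε j p ω = -1)
    (hind : iIndepFun (fun i : ι × ℕ => ε i.1 i.2) P) (T : Finset (ι × ℕ)) (j0 : ι) (h0 B : ℕ)
    (ht : (j0, h0) ∈ T) (hB : ∀ t ∈ T, t.2 ≤ B) (η : ℝ)
    (Q : Finset ℕ) (y z x : ℕ) (hη : 0 < η) (hy : 1 ≤ y)
    (hQ : ∀ q ∈ Q, q.Prime ∧ y < q ∧ B < q ∧ q ≤ z) (hz : z ^ 4 ≤ x)
    (hS : 2 + 160 / η ≤ ∑ q ∈ Q, (1 - |∫ ω, ε j0 q ω ∂P|) / q)
    (G : ℕ → ℝ) (hG : ∀ m, |G m| ≤ 1) :
    P {ω | η * x < |∑ m ∈ range x, G m * WW ε T (m + 1) ω|} ≤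
      ENNReal.ofReal (2 * Real.exp (-(η ^ 2 * y / (128 * (T.card : ℝ) ^ 2)))) := by
  obtain ⟨H, hH⟩ : ∃ H : Finset ℕ, H = (T.filter (fun t => t.1 = j0)).image Prod.snd := ⟨_, rfl⟩
  have hh0 : h0 ∈ H := by
    rw [hH, mem_image]
    exact ⟨(j0, h0), mem_filter.2 ⟨ht, rfl⟩, rfl⟩
  have hHB : ∀ h ∈ H, h ≤ B := by
    intro h hh
    rw [hH, mem_image] at hh
    obtain ⟨t, ht1, rfl⟩ := hh
    exact hB t (mem_filter.1 ht1).1
  have hHc : H.card ≤ T.card := by
    rw [hH]
    exact card_image_le.trans (card_filter_le _ _)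
  have hHc1 : 1 ≤ H.card := card_pos.2 ⟨h0, hh0⟩
  obtain ⟨D, hD⟩ : ∃ D : ℕ, D = x + B + z := ⟨_, rfl⟩
  obtain ⟨I, hI⟩ : ∃ I : Finset (ι × ℕ), I = T.image Prod.fst ×ˢ range (D + 1) := ⟨_, rfl⟩
  obtain ⟨J, hJ⟩ : ∃ J : Finset (ι × ℕ), J = Q.image (fun q => (j0, q)) := ⟨_, rfl⟩
  have hJI : J ⊆ I := by
    intro i hi
    rw [hJ, mem_image] at hi
    obtain ⟨q, hq, rfl⟩ := hi
    rw [hI, mem_product, mem_range]
    have := (hQ q hq).2.2.2
    exact ⟨mem_image.2 ⟨_, ht, rfl⟩, by simp only; omega⟩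
  have hexJ : ∀ m q, ex1 T (m + 1) (j0, q) = vv H q m := by
    intro m q
    unfold ex1 vv
    rw [hH, sum_image]
    intro a ha b hb hab
    rw [mem_coe, mem_filter] at ha hb
    exact Prod.ext (ha.2.trans hb.2.symm) hab
  have hWW : ∀ m ∈ range x, ∀ ω, WW ε T (m + 1) ω =
      (∏ i : (I \ J : Finset (ι × ℕ)), ε i.1.1 i.1.2 ω ^ (ex1 T (m + 1) i)) *
        ∏ i : J, ε i.1.1 i.1.2 ω ^ (ex1 T (m + 1) i) := by
    intro m hm1 ω
    rw [mem_range] at hm1
    rw [WW_prod1 ε T (m + 1) D (fun t ht => by have := hB t ht; omega) ω, ← hI,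
      ← prod_sdiff hJI]
    congr 1
    · exact (prod_coe_sort (I \ J) (fun i => ε i.1 i.2 ω ^ (ex1 T (m + 1) i))).symm
    · exact (prod_coe_sort J (fun i => ε i.1 i.2 ω ^ (ex1 T (m + 1) i))).symm
  -- the two groups of signs
  obtain ⟨V, hV⟩ : ∃ V : Ω → ((I \ J : Finset (ι × ℕ)) → ℝ), V = fun ω i => ε i.1.1 i.1.2 ω := ⟨_, rfl⟩
  obtain ⟨U, hU⟩ : ∃ U : Ω → (J → ℝ), U = fun ω i => ε i.1.1 i.1.2 ω := ⟨_, rfl⟩
  have hVm : Measurable V := by
    rw [hV]; exact measurable_pi_lambda _ fun i => hm _ _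
  have hUm : Measurable U := by
    rw [hU]; exact measurable_pi_lambda _ fun i => hm _ _
  have hVU : IndepFun V U P := by
    rw [hV, hU]
    exact hind.indepFun_finset (I \ J) J sdiff_disjoint (fun i => hm i.1 i.2)
  obtain ⟨Φ, hΦ⟩ : ∃ Φ : ((I \ J : Finset (ι × ℕ)) → ℝ) × (J → ℝ) → ℝ, Φ = fun p =>
    ∑ m ∈ range x, (G m * ∏ i : (I \ J : Finset (ι × ℕ)), p.1 i ^ (ex1 T (m + 1) i)) *
      ∏ i : J, p.2 i ^ (ex1 T (m + 1) i) := ⟨_, rfl⟩
  have hΦm : Measurable Φ := by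
    rw [hΦ]
    refine Finset.measurable_fun_sum _ fun m _ => ?_
    refine Measurable.mul (Measurable.const_mul (Finset.measurable_fun_prod _ fun i _ => ?_) _)
      (Finset.measurable_fun_prod _ fun i _ => ?_)
    · exact ((measurable_pi_apply i).comp measurable_fst).pow_const _
    · exact ((measurable_pi_apply i).comp measurable_snd).pow_const _
  have hA : MeasurableSet {p | η * x < |Φ p|} := measurableSet_lt measurable_const hΦm.abs
  have hev : {ω | η * x < |∑ m ∈ range x, G m * WW ε T (m + 1) ω|} =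
      (fun ω => (V ω, U ω)) ⁻¹' {p | η * x < |Φ p|} := by
    ext ω
    simp only [Set.mem_ofPred_eq, Set.mem_preimage]
    have : ∑ m ∈ range x, G m * WW ε T (m + 1) ω = Φ (V ω, U ω) := by
      rw [hΦ, hV, hU]
      refine sum_congr rfl fun m hm1 => ?_
      rw [hWW m hm1 ω]
      ring
    rw [this]
  rw [hev, ← Measure.map_apply (hVm.prodMk hUm) hA,
    (indepFun_iff_map_prod_eq_prod_map_map hVm.aemeasurable hUm.aemeasurable).1 hVU,
    Measure.prod_apply hA]
  have hprobV : IsProbabilityMeasure (P.map V) := Measure.isProbabilityMeasure_map hVm.aemeasurable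
  have hae : ∀ᵐ v ∂(P.map V), ∀ i, |v i| ≤ 1 := by
    rw [ae_map_iff hVm.aemeasurable]
    · refine Filter.Eventually.of_forall fun ω i => ?_
      rw [hV]
      rcases he i.1.1 i.1.2 ω with h | h
      · simp only [h]; norm_num
      · simp only [h]; norm_num
    · have : {v : ((I \ J : Finset (ι × ℕ)) → ℝ) | ∀ i, |v i| ≤ 1} = ⋂ i, {v | |v i| ≤ 1} := by
        ext v; simp
      rw [this]
      exact MeasurableSet.iInter fun i => measurableSet_le (measurable_pi_apply i).abs measurable_const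
  have hbound : ∀ᵐ v ∂(P.map V), (P.map U) (Prod.mk v ⁻¹' {p | η * x < |Φ p|}) ≤
      ENNReal.ofReal (2 * Real.exp (-(η ^ 2 * y / (128 * (T.card : ℝ) ^ 2)))) := by
    filter_upwards [hae] with v hv
    rw [Measure.map_apply hUm (measurable_prodMk_left hA)]
    have hq := fix_one (P := P) (e := ε j0) (hm j0) (he j0)
      (hind.precomp (g := fun q : ℕ => (j0, q)) (fun a b h => (Prod.mk.inj h).2)) H h0 B hh0 hHB η Q
      y z x hη hy hQ hz hS (fun m => G m * ∏ i : (I \ J : Finset (ι × ℕ)), v i ^ (ex1 T (m + 1) i)) (fun m => by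
        show |G m * ∏ i : (I \ J : Finset (ι × ℕ)), v i ^ (ex1 T (m + 1) i)| ≤ 1
        rw [abs_mul, abs_prod]
        refine mul_le_one₀ (hG m) (prod_nonneg fun i _ => abs_nonneg _)
          (prod_le_one (fun i _ => abs_nonneg _) fun i _ => ?_)
        rw [abs_pow]
        exact pow_le_one₀ (abs_nonneg _) (hv i))
    refine le_trans (le_of_eq ?_) (hq.trans (ENNReal.ofReal_le_ofReal ?_))
    · congr 1
      ext ω
      simp only [Set.mem_preimage, Set.mem_ofPred_eq]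
      have : Φ (v, U ω) = ∑ m ∈ range x, (G m * ∏ i : (I \ J : Finset (ι × ℕ)), v i ^ (ex1 T (m + 1) i)) *
          ∏ q ∈ Q, ε j0 q ω ^ (vv H q m) := by
        rw [hΦ, hU]
        refine sum_congr rfl fun m _ => ?_
        congr 1
        rw [prod_coe_sort J (fun i => ε i.1 i.2 ω ^ (ex1 T (m + 1) i)), hJ,
          prod_image (fun a _ b _ h => (Prod.mk.inj h).2)]
        exact prod_congr rfl fun q _ => by rw [hexJ]
      rw [this]
    · apply mul_le_mul_of_nonneg_left _ (by norm_num)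
      apply Real.exp_le_exp.2
      apply neg_le_neg
      have c1 : (1:ℝ) ≤ H.card := by exact_mod_cast hHc1
      have c2 : (H.card : ℝ) ≤ T.card := by exact_mod_cast hHc
      apply div_le_div_of_nonneg_left (by positivity) (by positivity)
      nlinarith
  refine (lintegral_mono_ae hbound).trans ?_
  rw [lintegral_const, measure_univ, mul_one]

end Pool.Agent.U463.RB
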