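import Pool.Agent.U463.RS.Bad
import Pool.Agent.U463.RB.BMD

/-!
# The weighted second moment
-/

set_option autoImplicit false

namespace Pool.Agent.U463.RB

open Finset Polynomial Pool.Agent.H220M
open Pool.Agent.U463.RS (Ev rho Ev_mod rho_nonneg rho_le rho_ge per_count crt2)

/-- abstract second moment inequality with weights -/
theorem tk_w (Q : Finset ℕ) (x : ℕ) (E : ℕ → ℕ → Prop) [∀ q, DecidablePred (E q)]
    (w δ ρ : ℕ → ℝ) (hw0 : ∀ q ∈ Q, 0 ≤ w q) (hw1 : ∀ q ∈ Q, w q ≤ 1)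
    (hδ : ∀ q ∈ Q, 0 ≤ δ q) (hρ : ∀ q ∈ Q, 0 ≤ ρ q)
    (h1 : ∀ q ∈ Q, |(((range x).filter (E q)).card : ℝ) - x * δ q| ≤ ρ q)
    (h2 : ∀ q ∈ Q, ∀ q' ∈ Q, q ≠ q' →
      (((range x).filter (fun m => E q m ∧ E q' m)).card : ℝ) ≤ x * (δ q * δ q') + ρ q * ρ q') :
    ∑ m ∈ range x, ((∑ q ∈ Q, if E q m then w q else 0) - ∑ q ∈ Q, w q * δ q) ^ 2 ≤
      (∑ q ∈ Q, w q * ρ q) ^ 2 + x * (∑ q ∈ Q, w q * δ q) + (∑ q ∈ Q, w q * ρ q) +
        2 * (∑ q ∈ Q, w q * δ q) * (∑ q ∈ Q, w q * ρ q) := by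
  classical
  obtain ⟨M, hM⟩ : ∃ M, M = ∑ q ∈ Q, w q * δ q := ⟨_, rfl⟩
  obtain ⟨R, hR⟩ : ∃ R, R = ∑ q ∈ Q, w q * ρ q := ⟨_, rfl⟩
  have hM0 : 0 ≤ M := hM ▸ sum_nonneg fun q hq => mul_nonneg (hw0 q hq) (hδ q hq)
  have hR0 : 0 ≤ R := hR ▸ sum_nonneg fun q hq => mul_nonneg (hw0 q hq) (hρ q hq)
  rw [← hM, ← hR]
  obtain ⟨N, hN⟩ : ∃ N : ℕ → ℝ, N = fun m => ∑ q ∈ Q, if E q m then w q else 0 := ⟨_, rfl⟩
  have hNm : ∀ m, (∑ q ∈ Q, if E q m then w q else 0) = N m := fun m => by rw [hN]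
  simp only [hNm]
  have hcard : ∀ P : ℕ → Prop, ∀ [DecidablePred P], (((range x).filter P).card : ℝ) =
      ∑ m ∈ range x, if P m then (1:ℝ) else 0 := by
    intro P _
    rw [card_filter]
    push_cast
    rfl
  have e1 : ∑ m ∈ range x, N m = ∑ q ∈ Q, w q * (((range x).filter (E q)).card : ℝ) := by
    rw [hN, sum_comm]
    refine sum_congr rfl fun q _ => ?_
    rw [hcard (E q), mul_sum]
    exact sum_congr rfl fun m _ => by split_ifs <;> simp
  have e2 : ∑ m ∈ range x, N m ^ 2 = ∑ q ∈ Q, ∑ q' ∈ Q,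
      w q * w q' * (((range x).filter (fun m => E q m ∧ E q' m)).card : ℝ) := by
    have : ∀ m, N m ^ 2 = ∑ q ∈ Q, ∑ q' ∈ Q, w q * w q' * (if E q m ∧ E q' m then (1:ℝ) else 0) := by
      intro m
      rw [hN, sq, sum_mul_sum]
      refine sum_congr rfl fun q _ => sum_congr rfl fun q' _ => ?_
      by_cases a : E q m <;> by_cases b : E q' m <;> simp [a, b]
    rw [sum_congr rfl fun m _ => this m, sum_comm]
    refine sum_congr rfl fun q _ => ?_
    rw [sum_comm]
    refine sum_congr rfl fun q' _ => ?_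
    rw [hcard (fun m => E q m ∧ E q' m), mul_sum]
  have b1 : x * M - R ≤ ∑ m ∈ range x, N m := by
    rw [e1, hM, hR, mul_sum, ← sum_sub_distrib]
    refine sum_le_sum fun q hq => ?_
    have h3 := (abs_le.1 (h1 q hq)).1
    have h4 := mul_le_mul_of_nonneg_left h3 (hw0 q hq)
    linarith
  have b2 : ∑ m ∈ range x, N m ^ 2 ≤ x * M ^ 2 + R ^ 2 + x * M + R := by
    rw [e2]
    have h3 : ∀ q ∈ Q, ∀ q' ∈ Q, w q * w q' * (((range x).filter (fun m => E q m ∧ E q' m)).card : ℝ) ≤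
        (x * (w q * δ q * (w q' * δ q')) + w q * ρ q * (w q' * ρ q')) +
          if q = q' then (x * (w q * δ q) + w q * ρ q) else 0 := by
      intro q hq q' hq'
      have a1 := hw0 q hq
      have a2 := hw0 q' hq'
      by_cases h : q = q'
      · subst h
        rw [if_pos rfl]
        have h4 := (abs_le.1 (h1 q hq)).2
        have h5 : (((range x).filter (fun m => E q m ∧ E q m)).card : ℝ) =
            (((range x).filter (E q)).card : ℝ) := by
          simp only [and_self]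
        rw [h5]
        have h6 : 0 ≤ (x:ℝ) * (w q * δ q * (w q * δ q)) := by
          have := hδ q hq
          positivity
        have h7 : 0 ≤ w q * ρ q * (w q * ρ q) := by
          have := hρ q hq
          positivity
        have h8 : w q * w q ≤ w q := by nlinarith [hw1 q hq]
        have h9 : (0:ℝ) ≤ (((range x).filter (E q)).card : ℝ) := Nat.cast_nonneg _
        have h10 := mul_le_mul_of_nonneg_right h8 h9
        have h11 : w q * (((range x).filter (E q)).card : ℝ) ≤ w q * (x * δ q + ρ q) :=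
          mul_le_mul_of_nonneg_left (by linarith) a1
        nlinarith
      · rw [if_neg h, add_zero]
        have h4 := mul_le_mul_of_nonneg_left (h2 q hq q' hq' h) (mul_nonneg a1 a2)
        refine h4.trans (le_of_eq ?_)
        ring
    refine (sum_le_sum fun q hq => sum_le_sum fun q' hq' => h3 q hq q' hq').trans (le_of_eq ?_)
    have e3 : ∀ q ∈ Q, ∑ q' ∈ Q, ((x * (w q * δ q * (w q' * δ q')) + w q * ρ q * (w q' * ρ q')) +
        if q = q' then (x * (w q * δ q) + w q * ρ q) else 0) =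
        x * (w q * δ q * M) + w q * ρ q * R + (x * (w q * δ q) + w q * ρ q) := by
      intro q hq
      rw [sum_add_distrib, sum_add_distrib, sum_ite_eq, if_pos hq, ← mul_sum, ← mul_sum, ← mul_sum,
        ← hM, ← hR]
    rw [sum_congr rfl e3, sum_add_distrib, sum_add_distrib, sum_add_distrib, ← mul_sum, ← sum_mul,
      ← sum_mul, ← mul_sum, ← hM, ← hR]
    ring
  have e4 : ∑ m ∈ range x, (N m - M) ^ 2 = ∑ m ∈ range x, N m ^ 2 - 2 * M * ∑ m ∈ range x, N m +
      x * M ^ 2 := by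
    have : ∀ m, (N m - M) ^ 2 = N m ^ 2 - 2 * M * N m + M ^ 2 := fun m => by ring
    rw [sum_congr rfl fun m _ => this m, sum_add_distrib, sum_sub_distrib, ← mul_sum, sum_const,
      card_range, nsmul_eq_mul]
  rw [e4]
  have h8 := mul_le_mul_of_nonneg_left b1 (by linarith : 0 ≤ 2 * M)
  nlinarith

/-- the linear form `X + h` -/
noncomputable def lf (h : ℕ) : ℤ[X] := X + C (h : ℤ)

theorem lf_eval (h m : ℕ) : (lf h).eval ((m : ℤ) + 1) = ((m + 1 + h : ℕ) : ℤ) := by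
  unfold lf
  simp

theorem lf_deg (h : ℕ) : (lf h).natDegree = 1 := by
  unfold lf
  exact natDegree_X_add_C _

theorem lf_simple (h q : ℕ) (hq : q.Prime) : SimpleRoot (lf h) q := by
  refine ⟨-(h : ℤ), ?_, ?_⟩
  · unfold lf
    simp
  · unfold lf
    simp only [derivative_add, derivative_X, derivative_C, add_zero, eval_one]
    intro h1
    have h2 : q ∣ 1 := by exact_mod_cast h1
    exact hq.one_lt.ne' (Nat.dvd_one.1 h2)

open Classical in
/-- the mean of the products over the primes which divide exactly once -/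
theorem few_w (h : ℕ) (Q : Finset ℕ) (z x : ℕ) (w : ℕ → ℝ) (hw0 : ∀ q ∈ Q, 0 ≤ w q)
    (hw1 : ∀ q ∈ Q, w q ≤ 1)
    (hQ : ∀ q ∈ Q, q.Prime ∧ q ≤ z) (hz : z ^ 4 ≤ x)
    (hM : 2 ≤ ∑ q ∈ Q, w q / q) :
    ∑ m ∈ range x, ∏ q ∈ Q, (if Ev (lf h) q m then 1 - w q else 1) ≤
      x * (80 / ∑ q ∈ Q, w q / q) := by
  obtain ⟨S, hS⟩ : ∃ S, S = ∑ q ∈ Q, w q / q := ⟨_, rfl⟩
  rw [← hS] at hM ⊢
  have hne : Q.Nonempty := by
    rw [nonempty_iff_ne_empty]
    rintro rfl
    rw [sum_empty] at hS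
    linarith
  obtain ⟨q₀, hq₀⟩ := hne
  have hz1 : 1 ≤ z := (hQ q₀ hq₀).1.one_lt.le.trans (hQ q₀ hq₀).2
  obtain ⟨F, hF⟩ : ∃ F, F = lf h := ⟨_, rfl⟩
  have hFs : ∀ q ∈ Q, SimpleRoot F q := fun q hq => hF ▸ lf_simple h q (hQ q hq).1
  have hFd : (F.natDegree : ℝ) = 1 := by rw [hF, lf_deg]; norm_num
  rw [← hF]
  have hq0 : ∀ q ∈ Q, (0:ℝ) < q := fun q hq => by exact_mod_cast (hQ q hq).1.pos
  obtain ⟨M, hMd⟩ : ∃ M, M = ∑ q ∈ Q, w q * (rho F q / (q:ℝ) ^ 2) := ⟨_, rfl⟩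
  obtain ⟨R, hR⟩ : ∃ R, R = ∑ q ∈ Q, w q * rho F q := ⟨_, rfl⟩
  have hR0 : 0 ≤ R := hR ▸ sum_nonneg fun q hq => mul_nonneg (hw0 q hq) (rho_nonneg F q)
  have key := tk_w Q x (Ev F) w (fun q => rho F q / (q:ℝ) ^ 2) (rho F) hw0 hw1
    (fun q _ => div_nonneg (rho_nonneg F q) (by positivity)) (fun q _ => rho_nonneg F q)
    (fun q hq => by
      have h := per_count (q ^ 2) (pow_pos (hQ q hq).1.pos 2) (Ev F q) (Ev_mod F q) x
      unfold rho
      push_cast at h
      rw [mul_div_assoc] at h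
      exact h)
    (fun q hq q' hq' hne => by
      have hc : (q ^ 2).Coprime (q' ^ 2) :=
        Nat.Coprime.pow 2 2 ((Nat.coprime_primes (hQ q hq).1 (hQ q' hq').1).2 hne)
      have p1 := pow_pos (hQ q hq).1.pos 2
      have p2 := pow_pos (hQ q' hq').1.pos 2
      have h1 := crt2 (q ^ 2) (q' ^ 2) hc p1 p2 (Ev F q) (Ev F q') (Ev_mod F q) (Ev_mod F q')
      have h2 := per_count (q ^ 2 * q' ^ 2) (Nat.mul_pos p1 p2)
        (fun m => Ev F q m ∧ Ev F q' m) (fun r => by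
          have a1 : Ev F q (r % (q ^ 2 * q' ^ 2)) ↔ Ev F q r := by
            rw [← Ev_mod F q (r % (q ^ 2 * q' ^ 2)), Nat.mod_mul_right_mod, Ev_mod]
          have a2 : Ev F q' (r % (q ^ 2 * q' ^ 2)) ↔ Ev F q' r := by
            rw [← Ev_mod F q' (r % (q ^ 2 * q' ^ 2)), Nat.mod_mul_left_mod, Ev_mod]
          rw [a1, a2]) x
      rw [h1] at h2
      have h3 := (abs_le.1 h2).2
      have e1 : (((((range (q ^ 2)).filter (Ev F q)).card *
          ((range (q' ^ 2)).filter (Ev F q')).card : ℕ)) : ℝ) = rho F q * rho F q' := by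
        unfold rho
        push_cast
        rfl
      rw [e1] at h3
      have e2 : (x:ℝ) * (rho F q * rho F q') / ((q ^ 2 * q' ^ 2 : ℕ) : ℝ) =
          x * (rho F q / (q:ℝ) ^ 2 * (rho F q' / (q':ℝ) ^ 2)) := by
        push_cast
        have := (hq0 q hq).ne'
        have := (hq0 q' hq').ne'
        field_simp
      rw [e2] at h3
      linarith)
  rw [← hMd, ← hR] at key
  have hMS : S / 2 ≤ M := by
    rw [hMd, hS, sum_div]
    refine sum_le_sum fun q hq => ?_
    have h1 := rho_ge F q (hQ q hq).1 (hFs q hq)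
    have h2 : (2:ℝ) ≤ q := by exact_mod_cast (hQ q hq).1.two_le
    have h3 : (q:ℝ) / 2 ≤ rho F q := by linarith
    have h4 : 1 / (2 * (q:ℝ)) ≤ rho F q / (q:ℝ) ^ 2 := by
      rw [div_le_div_iff₀ (by linarith [hq0 q hq]) (by have := hq0 q hq; positivity)]
      nlinarith [hq0 q hq]
    have h5 := mul_le_mul_of_nonneg_left h4 (hw0 q hq)
    refine le_trans (le_of_eq ?_) h5
    have := (hq0 q hq).ne'
    field_simp
  have hRd : R ≤ (z:ℝ) ^ 2 := by
    rw [hR]
    have h1 : ∀ q ∈ Q, w q * rho F q ≤ z := fun q hq => by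
      have h2 := rho_le F q (hQ q hq).1 (hFs q hq)
      rw [hFd, mul_one] at h2
      have : (q:ℝ) ≤ z := by exact_mod_cast (hQ q hq).2
      have h3 := rho_nonneg F q
      calc w q * rho F q ≤ 1 * rho F q := mul_le_mul_of_nonneg_right (hw1 q hq) h3
        _ ≤ z := by linarith
    refine (sum_le_sum h1).trans ?_
    rw [sum_const, nsmul_eq_mul]
    have h2 : (Q.card : ℝ) ≤ z := by
      have : Q ⊆ Icc 1 z := fun q hq => mem_Icc.2 ⟨(hQ q hq).1.pos, (hQ q hq).2⟩
      have h3 := card_le_card this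
      rw [Nat.card_Icc, Nat.add_sub_cancel] at h3
      exact_mod_cast h3
    have h3 : (0:ℝ) ≤ z := by positivity
    nlinarith [mul_le_mul_of_nonneg_right h2 h3]
  have hM1 : 1 ≤ M := by linarith
  have hzx : (z:ℝ) ^ 4 ≤ x := by exact_mod_cast hz
  have hz1' : (1:ℝ) ≤ z := by exact_mod_cast hz1
  have hz2 : (1:ℝ) ≤ (z:ℝ) ^ 2 := one_le_pow₀ hz1'
  have hz2x : (z:ℝ) ^ 2 ≤ x := by nlinarith
  have hx0 : (0:ℝ) ≤ x := Nat.cast_nonneg _
  have hR2 : R ^ 2 ≤ x := by
    have := pow_le_pow_left₀ hR0 hRd 2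
    have e : ((z:ℝ) ^ 2) ^ 2 = (z:ℝ) ^ 4 := by ring
    rw [e] at this
    exact this.trans hzx
  have hR1 : R ≤ x := hRd.trans hz2x
  obtain ⟨N, hN⟩ : ∃ N : ℕ → ℝ, N = fun m => ∑ q ∈ Q, if Ev F q m then w q else 0 := ⟨_, rfl⟩
  have hNm : ∀ m, (∑ q ∈ Q, if Ev F q m then w q else 0) = N m := fun m => by rw [hN]
  simp only [hNm] at key
  -- pointwise
  have hpt : ∀ m ∈ range x, ∏ q ∈ Q, (if Ev F q m then 1 - w q else 1) ≤
      2 / M + (N m - M) ^ 2 * (4 / M ^ 2) := by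
    intro m _
    have h1 : ∏ q ∈ Q, (if Ev F q m then 1 - w q else 1) ≤ Real.exp (- N m) := by
      rw [hN]
      simp only
      rw [← sum_neg_distrib, Real.exp_sum]
      refine prod_le_prod (fun q hq => ?_) fun q hq => ?_
      · split_ifs
        · have := hw1 q hq; linarith
        · norm_num
      · split_ifs
        · have := Real.add_one_le_exp (-(w q)); linarith
        · simp
    refine h1.trans ?_
    rcases le_or_gt (M / 2) (N m) with h2 | h2
    · have h3 : Real.exp (- N m) ≤ 2 / M := by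
        have h4 : Real.exp (- N m) ≤ Real.exp (-(M / 2)) := Real.exp_le_exp.2 (by linarith)
        have h5 := Real.add_one_le_exp (M / 2)
        have h6 : Real.exp (-(M / 2)) ≤ 2 / M := by
          rw [Real.exp_neg, inv_le_comm₀ (Real.exp_pos _) (by positivity), inv_div]
          linarith
        linarith
      have h7 : 0 ≤ (N m - M) ^ 2 * (4 / M ^ 2) := by positivity
      linarith
    · have h3 : Real.exp (- N m) ≤ 1 := by
        rw [Real.exp_le_one_iff, neg_nonpos, hN]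
        exact sum_nonneg fun q hq => by
          split_ifs
          · exact hw0 q hq
          · exact le_rfl
      have h4 : 1 ≤ (N m - M) ^ 2 * (4 / M ^ 2) := by
        rw [mul_div_assoc', le_div_iff₀ (by positivity)]
        nlinarith
      have h5 : 0 ≤ 2 / M := by positivity
      linarith
  refine (sum_le_sum hpt).trans ?_
  rw [sum_add_distrib, sum_const, card_range, nsmul_eq_mul, ← sum_mul]
  have h4 : ∑ m ∈ range x, (N m - M) ^ 2 ≤ 5 * (x * M) := by
    refine key.trans ?_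
    have a1 : (x:ℝ) ≤ x * M := le_mul_of_one_le_right hx0 hM1
    have a3 : 2 * M * R ≤ 2 * M * x := mul_le_mul_of_nonneg_left hR1 (by linarith)
    nlinarith
  have h5 : (∑ m ∈ range x, (N m - M) ^ 2) * (4 / M ^ 2) ≤ 20 * x / M := by
    have h6 := mul_le_mul_of_nonneg_right h4 (by positivity : 0 ≤ 4 / M ^ 2)
    refine h6.trans (le_of_eq ?_)
    field_simp
    ring
  have h6 : (x:ℝ) * (2 / M) + 20 * x / M = 22 * x / M := by ring
  have h7 : 22 * (x:ℝ) / M ≤ x * (80 / S) := by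
    rw [mul_div_assoc', div_le_div_iff₀ (by linarith) (by linarith)]
    nlinarith
  linarith

end Pool.Agent.U463.RB
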