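import Pool.Agent.U463.RB.Uni
import Pool.Agent.U463.RB.App
import Pool.Agent.U463.RB.GFam

/-!
# Correlations with all near characters at once
-/

set_option autoImplicit false

namespace Pool.Agent.U463.RB

open Finset Filter MeasureTheory ProbabilityTheory
open Pool.Agent.W257.FS
open Pool.Agent.W136.RF (cm cm_mul cm_abs WW WW_abs)
open Pool.Agent.TH573.JF
open Pool.Agent.U463.RS (bs bs_le)

/-- the sum over the primes `p ≤ x < p ^ D` of `(1 - |E ∏_{i ∈ B} e i p|) / p` tends to infinity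
with `D`, uniformly in `x` -/
def Win {Ω ι : Type} [MeasurableSpace Ω] (P : Measure Ω) (e : ι → ℕ → Ω → ℝ) : Prop :=
  ∀ B : Finset ι, B.Nonempty → ∀ K : ℝ, ∃ D : ℕ, ∀ᶠ x : ℕ in atTop,
    K ≤ ∑ p ∈ (Icc 1 x).filter (fun p => p.Prime ∧ x < p ^ D),
      (1 - |∫ ω, ∏ i ∈ B, e i p ω ∂P|) / p

/-- the sign choices -/
def Gam (ℓ F j : ℕ) : Finset (Fin ℓ → Finset (ℕ × ℕ)) :=
  Fintype.piFinset (fun _ : Fin ℓ => (range (2 ^ (j / (F * 2)) + 1) ×ˢ range (j + 3)).powerset)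

theorem Gam_card (ℓ F j : ℕ) :
    (Gam ℓ F j).card = (2 ^ ((2 ^ (j / (F * 2)) + 1) * (j + 3))) ^ ℓ := by
  unfold Gam
  rw [Fintype.card_piFinset, prod_const, card_univ, Fintype.card_fin, card_powerset,
    card_product, card_range, card_range]

section prob

variable {Ω ι : Type} [MeasurableSpace Ω]

/-- the block estimate for all sign choices -/
theorem ufix {P : Measure Ω} [IsProbabilityMeasure P] {ε : ι → ℕ → Ω → ℝ}
    (hm : ∀ j p, Measurable (ε j p)) (he : ∀ j p ω, ε j p ω = 1 ∨ ε j p ω = -1)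
    (hind : iIndepFun (fun (p : ℕ) (ω : Ω) (i : ι) => ε i p ω) P) (hW : Win P ε)
    (T : Finset (ι × ℕ)) (hT : T.Nonempty) (N : ℕ) :
    ∃ F : ℕ, 1 ≤ F ∧ ∀ (ℓ : ℕ) (c : ℕ → (Fin ℓ → Finset (ℕ × ℕ)) → ℕ → ℝ),
      (∀ j γ m, |c j γ m| ≤ 1) → ∀ᵐ ω ∂P, ∀ᶠ j : ℕ in atTop, ∀ γ ∈ Gam ℓ F j,
        |bs (fun m => c j γ m * WW ε T (m + 1) ω) j| ≤ 2 * (1 / ((N : ℝ) + 1)) := by
  obtain ⟨t0, ht0⟩ := hT
  have hl := lay_nonempty ht0
  obtain ⟨η, hη'⟩ : ∃ η : ℝ, η = 1 / ((N : ℝ) + 1) := ⟨_, rfl⟩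
  have hη : 0 < η := by rw [hη']; positivity
  obtain ⟨D, hD⟩ := hW _ hl (2 + 160 / η)
  have hw0 : ∀ q, 0 ≤ 1 - |∫ ω, ∏ i ∈ lay T t0.2, ε i q ω ∂P| := by
    intro q
    have := Pool.Agent.W136.RF.int_pow_le (P := P) (fun ω => prod_or he (lay T t0.2) q ω) 1
    simp only [pow_one] at this
    linarith
  have hT0 : (0:ℝ) < T.card := by
    have : 0 < T.card := card_pos.2 ⟨t0, ht0⟩
    exact_mod_cast this
  have h1 := window_use _ hw0 D (2 + 160 / η) hD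
  refine ⟨4 * (D + 1), by omega, fun ℓ c hc => ?_⟩
  rw [← hη']
  refine ugood hm he hind T t0.2 (T.sup Prod.snd) hl (fun t ht => le_sup (f := Prod.snd) ht)
    (Gam ℓ (4 * (D + 1))) c hc η hη (fun j => 2 ^ (j / (4 * (D + 1)))) ?_ h1 ?_
  · have t0' : Tendsto (fun j : ℕ => 2 ^ (j / (4 * (D + 1)))) atTop atTop :=
      (tendsto_pow_atTop_atTop_of_one_lt (by norm_num : (1:ℕ) < 2)).comp
        (Nat.tendsto_div_const_atTop (by omega))
    filter_upwards [t0'.eventually_ge_atTop (T.sup Prod.snd + 1)] with j hj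
    constructor
    · exact Nat.one_le_two_pow
    · show T.sup Prod.snd ≤ 2 ^ (j / (4 * (D + 1)))
      omega
  · have h2 := summ ℓ (4 * (D + 1)) (by omega) (η ^ 2 / (128 * (T.card : ℝ) ^ 2))
      (by positivity)
    filter_upwards [h2] with j hj
    rw [Gam_card]
    refine le_trans (le_of_eq ?_) hj
    congr 2
    ring

end prob

variable {ι : Type} {ℓ L : ℕ}

/-- the deterministic factor -/
noncomputable def dfac (g : ι → ℕ → ℝ) (T : Finset (ι × ℕ)) (Q r n : ℕ) : ℝ :=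
  if n = 0 then 0 else if n % Q = r then ∏ z ∈ T, g z.1 (n + z.2) else 0

theorem dfac_abs {g : ι → ℕ → ℝ} (hg : ∀ i, SignMul (g i)) (T : Finset (ι × ℕ)) (Q r n : ℕ) :
    |dfac g T Q r n| ≤ 1 := by
  unfold dfac
  split_ifs with h1 h2
  · simp
  · rw [Finset.abs_prod]
    refine (prod_eq_one fun z _ => ?_).le
    rcases (hg z.1).val (n + z.2) (by omega) with h | h <;> rw [h] <;> simp
  · simp

/-- the approximating weights -/
noncomputable def wgt (g : ι → ℕ → ℝ) (T : Finset (ι × ℕ)) (Q r : ℕ)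
    (E : Fin L → Finset (Fin ℓ)) (ψ : Fin ℓ → ℕ → ℝ) (Y : ℕ) (S : Fin ℓ → Finset (ℕ × ℕ))
    (m : ℕ) : ℝ :=
  dfac g T Q r (m + 1) * ∏ t : Fin L, ∏ k ∈ E t, app Y (S k) (ψ k) (m + 1 + (t : ℕ))

theorem prod_abs_le {α : Type*} (s : Finset α) (f : α → ℝ) (h : ∀ a ∈ s, |f a| ≤ 1) :
    |∏ a ∈ s, f a| ≤ 1 := by
  rw [Finset.abs_prod]
  exact prod_le_one (fun _ _ => abs_nonneg _) h

theorem wgt_abs {g : ι → ℕ → ℝ} (hg : ∀ i, SignMul (g i)) (T : Finset (ι × ℕ)) (Q r : ℕ)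
    (E : Fin L → Finset (Fin ℓ)) (ψ : Fin ℓ → ℕ → ℝ) (hψ : ∀ k n, |ψ k n| ≤ 1) (Y : ℕ)
    (S : Fin ℓ → Finset (ℕ × ℕ)) (m : ℕ) : |wgt g T Q r E ψ Y S m| ≤ 1 := by
  unfold wgt
  rw [abs_mul]
  exact mul_le_one₀ (dfac_abs hg T Q r _) (abs_nonneg _)
    (prod_abs_le _ _ fun t _ => prod_abs_le _ _ fun k _ => app_abs _ _ _ (hψ k) _)

open Classical in
/-- the difference of the exact and the approximating weights -/
theorem diff_le (g : ι → ℕ → ℝ) (hg : ∀ i, SignMul (g i)) (T : Finset (ι × ℕ)) (Q r : ℕ)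
    (E : Fin L → Finset (Fin ℓ)) (ψ : Fin ℓ → ℕ → ℝ) (hψ : ∀ k n, |ψ k n| ≤ 1)
    (H : Fin ℓ → ℕ → ℝ) (hH : ∀ k, SignMul (H k)) (Y : ℕ) (S : Fin ℓ → Finset (ℕ × ℕ)) (m : ℕ) :
    |dfac g T Q r (m + 1) * ∏ t : Fin L, ∏ k ∈ E t, H k (m + 1 + (t : ℕ)) -
      wgt g T Q r E ψ Y S m| ≤ 2 * ∑ t : Fin L, ∑ k : Fin ℓ,
        (if H k (m + 1 + (t : ℕ)) ≠ app Y (S k) (ψ k) (m + 1 + (t : ℕ)) then (1:ℝ) else 0) := by
  have hnn : 0 ≤ ∑ t : Fin L, ∑ k : Fin ℓ,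
        (if H k (m + 1 + (t : ℕ)) ≠ app Y (S k) (ψ k) (m + 1 + (t : ℕ)) then (1:ℝ) else 0) :=
    sum_nonneg fun t _ => sum_nonneg fun k _ => by split_ifs <;> norm_num
  by_cases h : ∀ (t : Fin L) (k : Fin ℓ), H k (m + 1 + (t : ℕ)) =
      app Y (S k) (ψ k) (m + 1 + (t : ℕ))
  · have e : ∏ t : Fin L, ∏ k ∈ E t, H k (m + 1 + (t : ℕ)) =
        ∏ t : Fin L, ∏ k ∈ E t, app Y (S k) (ψ k) (m + 1 + (t : ℕ)) :=
      prod_congr rfl fun t _ => prod_congr rfl fun k _ => h t k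
    unfold wgt
    rw [e, sub_self, abs_zero]
    exact mul_nonneg (by norm_num) hnn
  · push Not at h
    obtain ⟨t, k, htk⟩ := h
    have h1 : (1:ℝ) ≤ ∑ t : Fin L, ∑ k : Fin ℓ,
        (if H k (m + 1 + (t : ℕ)) ≠ app Y (S k) (ψ k) (m + 1 + (t : ℕ)) then (1:ℝ) else 0) := by
      have h2 : (1:ℝ) ≤ ∑ k : Fin ℓ,
          (if H k (m + 1 + (t : ℕ)) ≠ app Y (S k) (ψ k) (m + 1 + (t : ℕ)) then (1:ℝ) else 0) := by
        have h3 := single_le_sum (f := fun k : Fin ℓ => if H k (m + 1 + (t : ℕ)) ≠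
          app Y (S k) (ψ k) (m + 1 + (t : ℕ)) then (1:ℝ) else 0)
          (fun k _ => by beta_reduce; split_ifs <;> norm_num) (mem_univ k)
        beta_reduce at h3
        rw [if_pos htk] at h3
        exact h3
      refine h2.trans (single_le_sum (f := fun t : Fin L => ∑ k : Fin ℓ,
        (if H k (m + 1 + (t : ℕ)) ≠ app Y (S k) (ψ k) (m + 1 + (t : ℕ)) then (1:ℝ) else 0))
        (fun t _ => sum_nonneg fun k _ => by split_ifs <;> norm_num) (mem_univ t))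
    have h4 : |dfac g T Q r (m + 1) * ∏ t : Fin L, ∏ k ∈ E t, H k (m + 1 + (t : ℕ))| ≤ 1 := by
      rw [abs_mul]
      refine mul_le_one₀ (dfac_abs hg T Q r _) (abs_nonneg _)
        (prod_abs_le _ _ fun t _ => prod_abs_le _ _ fun k _ => ?_)
      rcases (hH k).val (m + 1 + (t : ℕ)) (by omega) with h | h <;> rw [h] <;> simp
    have h5 := wgt_abs hg T Q r E ψ hψ Y S m
    have h6 := abs_sub (dfac g T Q r (m + 1) * ∏ t : Fin L, ∏ k ∈ E t, H k (m + 1 + (t : ℕ)))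
      (wgt g T Q r E ψ Y S m)
    linarith

theorem bs_diff (a b : ℕ → ℝ) (j : ℕ) :
    |bs a j - bs b j| ≤ (∑ m ∈ Ico (2 ^ j - 1) (2 ^ (j + 1) - 1), |a m - b m|) / 2 ^ j := by
  unfold bs
  rw [← sum_sub_distrib, sum_div]
  refine (abs_sum_le_sum_abs _ _).trans (sum_le_sum fun m hm => ?_)
  rw [mem_Ico] at hm
  have h0 : (0:ℝ) < (m:ℝ) + 1 := by positivity
  rw [← sub_div, abs_div, abs_of_pos h0]
  have h2 : 2 ^ j ≤ m + 1 := by omega
  have h3 : (2:ℝ) ^ j ≤ (m:ℝ) + 1 := by exact_mod_cast h2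
  exact div_le_div_of_nonneg_left (abs_nonneg _) (by positivity) h3

open Classical in
/-- **the deterministic step** -/
theorem det_step (g : ι → ℕ → ℝ) (hg : ∀ i, SignMul (g i)) (T : Finset (ι × ℕ)) (Q r : ℕ)
    (E : Fin L → Finset (Fin ℓ)) (H : Fin ℓ → ℕ → ℝ) (hH : ∀ k, SignMul (H k))
    (W : ℕ → ℝ) (hWb : ∀ n, |W n| = 1)
    (q : Fin ℓ → ℕ) (hq : ∀ k, 1 ≤ q k) (χ : ∀ k, DirichletCharacter ℂ (q k))
    (hlim : ∀ k, Tendsto (fun X : ℕ => (∑ p ∈ (Icc 1 X).filter (fun p => p.Prime ∧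
      (H k p : ℂ) ≠ χ k (p : ZMod (q k))), Real.log p / p) / Real.log X) atTop (nhds 0))
    (hgood : ∀ N : ℕ, ∃ F : ℕ, 1 ≤ F ∧ ∀ᶠ j : ℕ in atTop, ∀ γ ∈ Gam ℓ F j,
      |bs (fun m => wgt g T Q r E (fun k => per (q k)
        ((range (q k)).filter (fun a => χ k (a : ZMod (q k)) = 1))
        ((range (q k)).filter (fun a => χ k (a : ZMod (q k)) = -1))) (2 ^ (j / (F * 2))) γ m *
          W (m + 1)) j| ≤ 2 * (1 / ((N : ℝ) + 1))) :
    Tendsto (fun x : ℕ => (∑ m ∈ range x, ((dfac g T Q r (m + 1) *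
      ∏ t : Fin L, ∏ k ∈ E t, H k (m + 1 + (t : ℕ))) * W (m + 1)) / ((m : ℝ) + 1)) /
        Real.log x) atTop (nhds 0) := by
  obtain ⟨ψ, hψ⟩ : ∃ ψ : Fin ℓ → ℕ → ℝ, ψ = fun k => per (q k)
        ((range (q k)).filter (fun a => χ k (a : ZMod (q k)) = 1))
        ((range (q k)).filter (fun a => χ k (a : ZMod (q k)) = -1)) := ⟨_, rfl⟩
  rw [← hψ] at hgood
  have hψ1 : ∀ k n, |ψ k n| ≤ 1 := by
    intro k n
    rw [hψ]
    exact per_abs _ _ _ _
  obtain ⟨a, ha⟩ : ∃ a : ℕ → ℝ, a = fun m => (dfac g T Q r (m + 1) *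
      ∏ t : Fin L, ∏ k ∈ E t, H k (m + 1 + (t : ℕ))) * W (m + 1) := ⟨_, rfl⟩
  have ha1 : ∀ m, |a m| ≤ 1 := by
    intro m
    rw [ha]
    simp only
    rw [abs_mul, hWb, mul_one, abs_mul]
    refine mul_le_one₀ (dfac_abs hg T Q r _) (abs_nonneg _)
      (prod_abs_le _ _ fun t _ => prod_abs_le _ _ fun k _ => ?_)
    rcases (hH k).val (m + 1 + (t : ℕ)) (by omega) with h | h <;> rw [h] <;> simp
  have key := avg_lim a ha1 ?_
  · rw [ha] at key
    exact key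
  rw [Metric.tendsto_atTop]
  intro δ hδ
  obtain ⟨N, hN⟩ : ∃ N : ℕ, 4 / δ < N := exists_nat_gt _
  obtain ⟨F, hF, hev⟩ := hgood N
  obtain ⟨j₁, hj₁⟩ := eventually_atTop.1 (hev.and (eventually_ge_atTop L))
  -- the bound for one block
  have hblock : ∀ j, j₁ ≤ j → |bs a j| ≤ 2 * (1 / ((N : ℝ) + 1)) +
      18 * L * ∑ k : Fin ℓ, err (H k) (χ k) (2 ^ (j / (F * 2))) j := by
    intro j hj
    obtain ⟨h1, h2⟩ := hj₁ j hj
    obtain ⟨Y, hY⟩ : ∃ Y, Y = 2 ^ (j / (F * 2)) := ⟨_, rfl⟩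
    rw [← hY] at h1 ⊢
    have hY1 : 1 ≤ Y := by rw [hY]; exact Nat.one_le_two_pow
    obtain ⟨S, hS⟩ : ∃ S : Fin ℓ → Finset (ℕ × ℕ), S = fun k => SP (H k) Y (j + 3) := ⟨_, rfl⟩
    have hSmem : S ∈ Gam ℓ F j := by
      unfold Gam
      rw [Fintype.mem_piFinset]
      intro k
      rw [mem_powerset, ← hY, hS]
      exact filter_subset _ _
    have h3 := h1 S hSmem
    have h4 := bs_diff a (fun m => wgt g T Q r E ψ Y S m * W (m + 1)) j
    have h5 : ∀ m ∈ Ico (2 ^ j - 1) (2 ^ (j + 1) - 1), |a m - wgt g T Q r E ψ Y S m * W (m + 1)| ≤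
        2 * ∑ t : Fin L, ∑ k : Fin ℓ,
        (if H k (m + 1 + (t : ℕ)) ≠ app Y (S k) (ψ k) (m + 1 + (t : ℕ)) then (1:ℝ) else 0) := by
      intro m _
      have e : a m - wgt g T Q r E ψ Y S m * W (m + 1) = (dfac g T Q r (m + 1) *
        ∏ t : Fin L, ∏ k ∈ E t, H k (m + 1 + (t : ℕ)) - wgt g T Q r E ψ Y S m) * W (m + 1) := by
        rw [ha]
        ring
      rw [e, abs_mul, hWb, mul_one]
      exact diff_le g hg T Q r E ψ hψ1 H hH Y S m
    have h6 : ∑ m ∈ Ico (2 ^ j - 1) (2 ^ (j + 1) - 1), |a m - wgt g T Q r E ψ Y S m * W (m + 1)| ≤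
        2 * ∑ t : Fin L, ∑ k : Fin ℓ, 9 * 2 ^ j * err (H k) (χ k) Y j := by
      refine (sum_le_sum h5).trans ?_
      rw [← mul_sum, sum_comm]
      apply mul_le_mul_of_nonneg_left _ (by norm_num)
      refine sum_le_sum fun t _ => ?_
      rw [sum_comm]
      refine sum_le_sum fun k _ => ?_
      rw [← sum_filter, sum_const, nsmul_eq_mul, mul_one]
      have ht : (t : ℕ) ≤ 2 ^ j := by
        have h7 := t.2
        have h8 : j < 2 ^ j := Nat.lt_two_pow_self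
        omega
      have h9 := mis_card (hH k) (hq k) (χ k) Y j (t : ℕ) hY1 ht
      rw [hS, hψ]
      exact h9
    have h10 : 2 * ∑ t : Fin L, ∑ k : Fin ℓ, 9 * 2 ^ j * err (H k) (χ k) Y j =
        (18 * L * ∑ k : Fin ℓ, err (H k) (χ k) Y j) * 2 ^ j := by
      rw [sum_const, card_univ, Fintype.card_fin, nsmul_eq_mul, ← mul_sum]
      ring
    have h11 : (∑ m ∈ Ico (2 ^ j - 1) (2 ^ (j + 1) - 1),
        |a m - wgt g T Q r E ψ Y S m * W (m + 1)|) / 2 ^ j ≤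
        18 * L * ∑ k : Fin ℓ, err (H k) (χ k) Y j := by
      rw [div_le_iff₀ (by positivity), ← h10]
      exact h6
    have h12 : |bs a j| ≤ |bs a j - bs (fun m => wgt g T Q r E ψ Y S m * W (m + 1)) j| +
        |bs (fun m => wgt g T Q r E ψ Y S m * W (m + 1)) j| := by
      have := abs_add_le (bs a j - bs (fun m => wgt g T Q r E ψ Y S m * W (m + 1)) j)
        (bs (fun m => wgt g T Q r E ψ Y S m * W (m + 1)) j)
      rwa [sub_add_cancel] at this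
    linarith
  -- the errors on average
  have l1 : Tendsto (fun J : ℕ => (j₁ : ℝ) / J + 18 * L * ∑ k : Fin ℓ,
      (∑ j ∈ range J, err (H k) (χ k) (2 ^ (j / (F * 2))) j) / (J : ℝ)) atTop
      (nhds (0 + 18 * L * ∑ k : Fin ℓ, 0)) := by
    refine Tendsto.add (tendsto_const_div_atTop_nhds_zero_nat _) (Tendsto.const_mul _ ?_)
    exact tendsto_finsetSum _ fun k _ => err_avg (χ k) (F * 2) (by omega) (hlim k)
  rw [sum_const_zero, mul_zero, add_zero] at l1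
  obtain ⟨J₁, hJ₁⟩ := eventually_atTop.1 ((l1.eventually (gt_mem_nhds (half_pos hδ))).and
    (eventually_ge_atTop 1))
  refine ⟨J₁, fun J hJ => ?_⟩
  obtain ⟨h20, hJ1⟩ := hJ₁ J hJ
  have hJ0 : (0:ℝ) < J := by exact_mod_cast hJ1
  rw [Real.dist_eq, sub_zero, abs_div, abs_of_pos hJ0,
    abs_of_nonneg (sum_nonneg fun _ _ => abs_nonneg _)]
  have h21 : ∑ j ∈ range J, |bs a j| ≤ j₁ + ∑ j ∈ range J, (2 * (1 / ((N : ℝ) + 1)) +
      18 * L * ∑ k : Fin ℓ, err (H k) (χ k) (2 ^ (j / (F * 2))) j) := by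
    have h22 : ∀ j ∈ range J, |bs a j| ≤ (if j < j₁ then (1:ℝ) else 0) +
        (2 * (1 / ((N : ℝ) + 1)) +
      18 * L * ∑ k : Fin ℓ, err (H k) (χ k) (2 ^ (j / (F * 2))) j) := by
      intro j _
      have h23 : 0 ≤ 18 * (L:ℝ) * ∑ k : Fin ℓ, err (H k) (χ k) (2 ^ (j / (F * 2))) j :=
        mul_nonneg (by positivity) (sum_nonneg fun k _ => err_nonneg _ _ _ _)
      have h24 : (0:ℝ) ≤ 2 * (1 / ((N : ℝ) + 1)) := by positivity
      by_cases hc : j < j₁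
      · rw [if_pos hc]
        have := bs_le a ha1 j
        linarith
      · rw [if_neg hc, zero_add]
        exact hblock j (not_lt.1 hc)
    refine (sum_le_sum h22).trans ?_
    rw [sum_add_distrib]
    have h25 : ∑ j ∈ range J, (if j < j₁ then (1:ℝ) else 0) ≤ j₁ := by
      rw [← sum_filter, sum_const, nsmul_eq_mul, mul_one]
      have h26 : (range J).filter (fun j => j < j₁) ⊆ range j₁ := by
        intro j hj
        rw [mem_filter] at hj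
        exact mem_range.2 hj.2
      have h27 := card_le_card h26
      rw [card_range] at h27
      exact_mod_cast h27
    linarith
  have h30 : (∑ j ∈ range J, |bs a j|) / J ≤ 2 * (1 / ((N : ℝ) + 1)) +
      ((j₁ : ℝ) / J + 18 * L * ∑ k : Fin ℓ,
      (∑ j ∈ range J, err (H k) (χ k) (2 ^ (j / (F * 2))) j) / (J : ℝ)) := by
    rw [div_le_iff₀ hJ0]
    refine h21.trans (le_of_eq ?_)
    rw [sum_add_distrib, sum_const, card_range, nsmul_eq_mul, ← mul_sum, sum_comm,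
      ← sum_div]
    field_simp
    ring
  have h31 : 2 * (1 / ((N : ℝ) + 1)) < δ / 2 := by
    rw [div_lt_iff₀ hδ] at hN
    rw [mul_one_div, div_lt_div_iff₀ (by positivity) (by norm_num)]
    nlinarith
  linarith

end Pool.Agent.U463.RB
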