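import Pool.Agent.U463.RB.GLim

/-!
# Estimates which hold for many weights at once
-/

set_option autoImplicit false

namespace Pool.Agent.U463.RB

open Finset MeasureTheory ProbabilityTheory Filter
open Pool.Agent.W136.RF (cm cm_range cm_abs WW WW_abs WW_meas)
open Pool.Agent.U463.RS (bw bw_le bs bs_eq bs_le log_sum)
open scoped ENNReal

variable {Ω ι : Type*} [MeasurableSpace Ω]

open Classical in
/-- one block, signs at the primes beyond `y` -/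
theorem ubscale {P : Measure Ω} [IsProbabilityMeasure P] {ε : ι → ℕ → Ω → ℝ}
    (hm : ∀ j p, Measurable (ε j p)) (he : ∀ j p ω, ε j p ω = 1 ∨ ε j p ω = -1)
    (hind : iIndepFun (fun (p : ℕ) (ω : Ω) (i : ι) => ε i p ω) P) (T : Finset (ι × ℕ)) (h0 B : ℕ)
    (ht : (lay T h0).Nonempty) (hB : ∀ t ∈ T, t.2 ≤ B) (v : ℕ → ℝ) (hv : ∀ m, |v m| ≤ 1)
    (η : ℝ) (hη : 0 < η) (y j : ℕ) (hy : 1 ≤ y) (hyB : B ≤ y)
    (hS : 2 + 160 / η ≤
      ∑ q ∈ (Icc 1 (2 ^ (j / 4))).filter (fun q => q.Prime ∧ y < q),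
        (1 - |∫ ω, ∏ i ∈ lay T h0, ε i q ω ∂P|) / q) :
    P {ω | 2 * η < |bs (fun m => v m * WW ε T (m + 1) ω) j|}
      ≤ ENNReal.ofReal (2 * Real.exp (-(η ^ 2 * y / (128 * (T.card : ℝ) ^ 2)))) := by
  obtain ⟨Q₀, hQ₀⟩ : ∃ Q₀ : Finset ℕ, Q₀ = (Icc 1 (2 ^ (j / 4))).filter
    (fun q => q.Prime ∧ y < q) := ⟨_, rfl⟩
  rw [← hQ₀] at hS
  have hmem : ∀ q ∈ Q₀, q.Prime ∧ y < q ∧ B < q ∧ q ≤ 2 ^ (j / 4) := by
    intro q hq
    rw [hQ₀, Finset.mem_filter, Finset.mem_Icc] at hq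
    exact ⟨hq.2.1, hq.2.2, by omega, hq.1.2⟩
  have hz : (2 ^ (j / 4)) ^ 4 ≤ 2 ^ j * 2 := by
    rw [← pow_mul]
    calc 2 ^ (j / 4 * 4) ≤ 2 ^ j := Nat.pow_le_pow_right (by norm_num) (Nat.div_mul_le_self j 4)
      _ ≤ 2 ^ j * 2 := Nat.le_mul_of_pos_right _ (by norm_num)
  have hset : {ω | 2 * η < |bs (fun m => v m * WW ε T (m + 1) ω) j|} =
      {ω | η * ((2 ^ j * 2 : ℕ) : ℝ) < |∑ m ∈ range (2 ^ j * 2), bw v j m *
        WW ε T (m + 1) ω|} := by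
    ext ω
    simp only [Set.mem_ofPred_eq]
    rw [bs_eq v (fun m => WW ε T (m + 1) ω) j,
      abs_mul, abs_of_pos (by positivity : (0:ℝ) < 2 ^ j)]
    push_cast
    have hp : (0:ℝ) < 2 ^ j := by positivity
    constructor
    · intro h
      nlinarith [mul_lt_mul_of_pos_left h hp]
    · intro h
      have e : η * (2 ^ j * 2) = 2 ^ j * (2 * η) := by ring
      rw [e] at h
      exact lt_of_mul_lt_mul_left h hp.le
  rw [hset]
  exact gscale hm he hind T h0 B ht hB η Q₀ y (2 ^ (j / 4)) (2 ^ j * 2) hη hy hmem hz hS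
    (bw v j) (bw_le v hv j)

/-- **many weights at once** -/
theorem ugood {P : Measure Ω} [IsProbabilityMeasure P] {ε : ι → ℕ → Ω → ℝ}
    (hm : ∀ j p, Measurable (ε j p)) (he : ∀ j p ω, ε j p ω = 1 ∨ ε j p ω = -1)
    (hind : iIndepFun (fun (p : ℕ) (ω : Ω) (i : ι) => ε i p ω) P) (T : Finset (ι × ℕ)) (h0 B : ℕ)
    (ht : (lay T h0).Nonempty) (hB : ∀ t ∈ T, t.2 ≤ B) {κ : Type*} (Γ : ℕ → Finset κ)
    (c : ℕ → κ → ℕ → ℝ) (hc : ∀ j γ m, |c j γ m| ≤ 1)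
    (η : ℝ) (hη : 0 < η) (y : ℕ → ℕ) (hy : ∀ᶠ j : ℕ in atTop, 1 ≤ y j ∧ B ≤ y j)
    (hS : ∀ᶠ j : ℕ in atTop, 2 + 160 / η ≤
      ∑ q ∈ (Icc 1 (2 ^ (j / 4))).filter (fun q => q.Prime ∧ y j < q),
        (1 - |∫ ω, ∏ i ∈ lay T h0, ε i q ω ∂P|) / q)
    (hsum : ∀ᶠ j : ℕ in atTop, ((Γ j).card : ℝ) *
      Real.exp (-(η ^ 2 * y j / (128 * (T.card : ℝ) ^ 2))) ≤ Real.exp (-(j : ℝ))) :
    ∀ᵐ ω ∂P, ∀ᶠ j : ℕ in atTop, ∀ γ ∈ Γ j,
      |bs (fun m => c j γ m * WW ε T (m + 1) ω) j| ≤ 2 * η := by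
  classical
  obtain ⟨j₀, hj₀⟩ := eventually_atTop.1 (hy.and (hS.and hsum))
  have hBC := ae_eventually_notMem (μ := P) (s := fun j => if j₀ ≤ j then
      ⋃ γ ∈ Γ j, {ω | 2 * η < |bs (fun m => c j γ m * WW ε T (m + 1) ω) j|} else ∅) (by
    have hle : ∀ j : ℕ, P (if j₀ ≤ j then
        ⋃ γ ∈ Γ j, {ω | 2 * η < |bs (fun m => c j γ m * WW ε T (m + 1) ω) j|} else ∅) ≤
        ENNReal.ofReal (2 * Real.exp (-(j : ℝ))) := by
      intro j
      split_ifs with h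
      · obtain ⟨⟨a1, a2⟩, a3, a4⟩ := hj₀ j h
        refine (measure_biUnion_finset_le _ _).trans ?_
        refine (sum_le_sum fun γ _ => ubscale hm he hind T h0 B ht hB (c j γ) (hc j γ) η hη (y j) j
          a1 a2 a3).trans ?_
        rw [sum_const, nsmul_eq_mul, ← ENNReal.ofReal_natCast,
          ← ENNReal.ofReal_mul (Nat.cast_nonneg _)]
        apply ENNReal.ofReal_le_ofReal
        linarith
      · rw [measure_empty]; exact bot_le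
    have hs : Summable (fun j : ℕ => (2:ℝ) * Real.exp (-(j : ℝ))) :=
      Real.summable_exp_neg_nat.mul_left _
    refine ne_top_of_le_ne_top ?_ (ENNReal.tsum_le_tsum hle)
    rw [← ENNReal.ofReal_tsum_of_nonneg (fun j => by positivity) hs]
    exact ENNReal.ofReal_ne_top)
  filter_upwards [hBC] with ω hω
  filter_upwards [hω, eventually_ge_atTop j₀] with j hj hjj γ hγ
  rw [if_pos hjj] at hj
  by_contra hc2
  apply hj
  rw [Set.mem_iUnion₂]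
  exact ⟨γ, hγ, not_le.1 hc2⟩

/-- the window condition at the dyadic scales -/
theorem window_use (w : ℕ → ℝ) (hw0 : ∀ q, 0 ≤ w q) (D : ℕ) (K : ℝ)
    (h : ∀ᶠ x : ℕ in atTop, K ≤ ∑ q ∈ (Icc 1 x).filter (fun q => q.Prime ∧ x < q ^ D), w q / q) :
    ∀ᶠ j : ℕ in atTop, K ≤ ∑ q ∈ (Icc 1 (2 ^ (j / 4))).filter
      (fun q => q.Prime ∧ 2 ^ (j / (4 * (D + 1))) < q), w q / q := by
  have t1 : Tendsto (fun j : ℕ => 2 ^ (j / 4)) atTop atTop :=
    (tendsto_pow_atTop_atTop_of_one_lt (by norm_num : (1:ℕ) < 2)).comp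
      (Nat.tendsto_div_const_atTop (by norm_num))
  filter_upwards [t1.eventually h] with j hj
  refine hj.trans (sum_le_sum_of_subset_of_nonneg (fun q hq => ?_) fun q _ _ =>
    div_nonneg (hw0 q) (Nat.cast_nonneg _))
  rw [mem_filter] at hq ⊢
  refine ⟨hq.1, hq.2.1, ?_⟩
  by_contra hcon
  push Not at hcon
  have h1 := hq.2.2
  have h2 : q ^ D ≤ q ^ (D + 1) := Nat.pow_le_pow_right hq.2.1.pos (Nat.le_succ D)
  have h3 : q ^ (D + 1) ≤ (2 ^ (j / (4 * (D + 1)))) ^ (D + 1) := Nat.pow_le_pow_left hcon _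
  have h4 : (2 ^ (j / (4 * (D + 1)))) ^ (D + 1) ≤ 2 ^ (j / 4) := by
    rw [← pow_mul, ← Nat.div_div_eq_div_mul]
    exact Nat.pow_le_pow_right (by norm_num) (Nat.div_mul_le_self _ _)
  omega

/-- the union bound is affordable -/
theorem summ (ℓ F : ℕ) (hF : 1 ≤ F) (c : ℝ) (hc : 0 < c) :
    ∀ᶠ j : ℕ in atTop, (((2 ^ ((2 ^ (j / (F * 2)) + 1) * (j + 3))) ^ ℓ : ℕ) : ℝ) *
      Real.exp (-(c * ((2 ^ (j / F) : ℕ) : ℝ))) ≤ Real.exp (-(j : ℝ)) := by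
  -- the exponential beats the linear function
  have t1 : Tendsto (fun k : ℕ => ((k : ℝ) ^ 1) / 2 ^ k) atTop (nhds 0) :=
    tendsto_pow_const_div_const_pow_of_one_lt 1 (by norm_num)
  have t2 : Tendsto (fun j : ℕ => j / (F * 2)) atTop atTop :=
    Nat.tendsto_div_const_atTop (by positivity)
  obtain ⟨δ, hδ⟩ : ∃ δ : ℝ, δ = c / ((2 * ℓ + 1) * (F * 2 * 2 + 3)) := ⟨_, rfl⟩
  have hδ0 : 0 < δ := by rw [hδ]; positivity
  have t3 := (t1.comp t2).eventually (gt_mem_nhds hδ0)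
  filter_upwards [t3, t2.eventually_ge_atTop 1] with j hj hk1
  obtain ⟨k, hk⟩ : ∃ k, k = j / (F * 2) := ⟨_, rfl⟩
  rw [← hk] at hk1 ⊢
  have hj' : (k : ℝ) ^ 1 / 2 ^ k < δ := by rw [hk]; exact hj
  have hF2 : 0 < F * 2 := by positivity
  have hjk : j < (F * 2) * (k + 1) := by
    rw [hk]
    have := Nat.lt_div_mul_add hF2 (a := j)
    calc j < j / (F * 2) * (F * 2) + F * 2 := this
      _ = F * 2 * (j / (F * 2) + 1) := by ring
  have hpow : 2 ^ k * 2 ^ k ≤ 2 ^ (j / F) := by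
    rw [← pow_add]
    apply Nat.pow_le_pow_right (by norm_num)
    rw [hk, ← Nat.div_div_eq_div_mul]
    omega
  -- real form
  have hY0 : (0:ℝ) < 2 ^ k := by positivity
  have hY1 : (1:ℝ) ≤ 2 ^ k := one_le_pow₀ (by norm_num)
  have hkr : (k:ℝ) < δ * 2 ^ k := by
    rw [pow_one, div_lt_iff₀ hY0] at hj'
    exact hj'
  have hk1r : (1:ℝ) ≤ k := by exact_mod_cast hk1
  have hjr : (j:ℝ) + 3 ≤ (F * 2 * 2 + 3) * k := by
    have h1 : (j:ℝ) < (F * 2) * (k + 1) := by exact_mod_cast hjk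
    have hF0 : (0:ℝ) ≤ F := Nat.cast_nonneg _
    nlinarith [mul_nonneg hF0 (by linarith : (0:ℝ) ≤ (k:ℝ) - 1)]
  have hmain : (2 * (ℓ:ℝ) + 1) * ((j:ℝ) + 3) ≤ c * 2 ^ k := by
    have h1 : (2 * (ℓ:ℝ) + 1) * ((j:ℝ) + 3) ≤ (2 * (ℓ:ℝ) + 1) * ((F * 2 * 2 + 3) * k) :=
      mul_le_mul_of_nonneg_left hjr (by positivity)
    have h2 : (2 * (ℓ:ℝ) + 1) * ((F * 2 * 2 + 3) * k) ≤
        (2 * (ℓ:ℝ) + 1) * ((F * 2 * 2 + 3) * (δ * 2 ^ k)) := by
      apply mul_le_mul_of_nonneg_left _ (by positivity)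
      exact mul_le_mul_of_nonneg_left hkr.le (by positivity)
    have h3 : (2 * (ℓ:ℝ) + 1) * ((F * 2 * 2 + 3) * (δ * 2 ^ k)) = c * 2 ^ k := by
      rw [hδ]
      field_simp
    linarith
  have hcard : (((2 ^ ((2 ^ k + 1) * (j + 3))) ^ ℓ : ℕ) : ℝ) ≤
      Real.exp (ℓ * ((2 ^ k + 1) * (j + 3))) := by
    push_cast
    rw [← pow_mul]
    have h1 : (2:ℝ) ≤ Real.exp 1 := by
      have := Real.exp_one_gt_d9
      linarith
    have h2 : Real.exp (ℓ * ((2 ^ k + 1) * (j + 3))) =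
        Real.exp 1 ^ ((2 ^ k + 1) * (j + 3) * ℓ) := by
      rw [← Real.exp_nat_mul]
      congr 1
      push_cast
      ring
    rw [h2]
    exact pow_le_pow_left₀ (by norm_num) h1 _
  have hE : Real.exp (-(c * ((2 ^ (j / F) : ℕ) : ℝ))) ≤ Real.exp (-(c * (2 ^ k * 2 ^ k))) := by
    apply Real.exp_le_exp.2
    apply neg_le_neg
    apply mul_le_mul_of_nonneg_left _ hc.le
    exact_mod_cast hpow
  refine (mul_le_mul hcard hE (Real.exp_pos _).le (Real.exp_pos _).le).trans ?_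
  rw [← Real.exp_add]
  apply Real.exp_le_exp.2
  have h5 : c * (2 ^ k * 2 ^ k) = (c * 2 ^ k) * 2 ^ k := by ring
  have h6 : (2 * (ℓ:ℝ) + 1) * ((j:ℝ) + 3) * 2 ^ k ≤ (c * 2 ^ k) * 2 ^ k :=
    mul_le_mul_of_nonneg_right hmain hY0.le
  have h7 : (ℓ:ℝ) * ((2 ^ k + 1) * (j + 3)) ≤ (ℓ:ℝ) * ((2 * 2 ^ k) * (j + 3)) := by
    apply mul_le_mul_of_nonneg_left _ (Nat.cast_nonneg _)
    apply mul_le_mul_of_nonneg_right _ (by positivity)
    linarith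
  have h8 : (j:ℝ) ≤ ((j:ℝ) + 3) * 2 ^ k := by
    have : (0:ℝ) ≤ j := Nat.cast_nonneg _
    nlinarith
  rw [h5]
  nlinarith

/-- from the mean of the blocks to the logarithmic average -/
theorem avg_lim (a : ℕ → ℝ) (ha : ∀ m, |a m| ≤ 1)
    (H : Tendsto (fun J : ℕ => (∑ j ∈ range J, |bs a j|) / (J : ℝ)) atTop (nhds 0)) :
    Tendsto (fun x : ℕ => (∑ m ∈ range x, a m / ((m : ℝ) + 1)) / Real.log x) atTop (nhds 0) := by
  rw [Metric.tendsto_atTop] at H ⊢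
  intro δ hδ
  obtain ⟨J₀, hJ₀⟩ := H (δ / 4) (by positivity)
  obtain ⟨M, hM⟩ : ∃ M : ℕ, 4 / δ < M := exists_nat_gt _
  refine ⟨2 ^ (J₀ + M + 1), fun x hx => ?_⟩
  obtain ⟨J, hJ⟩ : ∃ J, J = Nat.log 2 x := ⟨_, rfl⟩
  have hJ1 : J₀ + M + 1 ≤ J := by
    rw [hJ]; exact Nat.le_log_of_pow_le (by norm_num) hx
  have hx0 : x ≠ 0 := by
    have : 0 < 2 ^ (J₀ + M + 1) := by positivity
    omega
  have hJx : 2 ^ J ≤ x := by rw [hJ]; exact Nat.pow_log_le_self 2 hx0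
  have hxJ : x < 2 ^ (J + 1) := by rw [hJ]; exact Nat.lt_pow_succ_log_self (by norm_num) x
  have hJpos : (0:ℝ) < J := by
    have : 0 < J := by omega
    exact_mod_cast this
  have h1 : |∑ j ∈ range J, bs a j| ≤ δ / 4 * J := by
    refine (abs_sum_le_sum_abs _ _).trans ?_
    have h2 := hJ₀ J (by omega)
    rw [Real.dist_eq, sub_zero, abs_div, abs_of_pos hJpos, div_lt_iff₀ hJpos,
      abs_of_nonneg (sum_nonneg fun _ _ => abs_nonneg _)] at h2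
    exact h2.le
  have h6 : |∑ m ∈ Ico (2 ^ J - 1) x, a m / ((m : ℝ) + 1)| ≤ 1 := by
    refine (abs_sum_le_sum_abs _ _).trans ?_
    have h7 : ∀ m ∈ Ico (2 ^ J - 1) x, |a m / ((m : ℝ) + 1)| ≤ 1 / 2 ^ J := by
      intro m hm
      rw [mem_Ico] at hm
      have h0 : (0:ℝ) < (m:ℝ) + 1 := by positivity
      rw [abs_div, abs_of_pos h0]
      have h2 : 2 ^ J ≤ m + 1 := by omega
      have h3 : (2:ℝ) ^ J ≤ (m:ℝ) + 1 := by exact_mod_cast h2
      exact div_le_div₀ zero_le_one (ha m) (by positivity) h3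
    refine (sum_le_sum h7).trans ?_
    rw [sum_const, Nat.card_Ico, nsmul_eq_mul]
    have h8 : x - (2 ^ J - 1) ≤ 2 ^ J := by rw [pow_succ] at hxJ; omega
    have h9 : ((x - (2 ^ J - 1) : ℕ) : ℝ) ≤ 2 ^ J := by exact_mod_cast h8
    rw [mul_one_div, div_le_one (by positivity)]
    exact h9
  have h10 : ∑ m ∈ range x, a m / ((m : ℝ) + 1) = ∑ j ∈ range J, bs a j +
      ∑ m ∈ Ico (2 ^ J - 1) x, a m / ((m : ℝ) + 1) := by
    rw [← log_sum, range_eq_Ico, range_eq_Ico, sum_Ico_consecutive _ (Nat.zero_le _) (by omega)]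
  have hlog : (J : ℝ) / 2 ≤ Real.log x := by
    have h11 : Real.log ((2:ℝ) ^ J) ≤ Real.log x :=
      Real.log_le_log (by positivity) (by exact_mod_cast hJx)
    rw [Real.log_pow] at h11
    have h12 := Real.log_two_gt_d9
    nlinarith
  have hlogpos : 0 < Real.log x := by linarith
  rw [Real.dist_eq, sub_zero, abs_div, abs_of_pos hlogpos, div_lt_iff₀ hlogpos, h10]
  refine lt_of_le_of_lt ((abs_add_le _ _).trans (add_le_add h1 h6)) ?_
  have n4 : 1 < δ / 4 * J := by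
    have h22 : (M:ℝ) ≤ J := by
      have : M ≤ J := by omega
      exact_mod_cast this
    rw [div_lt_iff₀ hδ] at hM
    nlinarith
  have n6 : δ * (J / 2) ≤ δ * Real.log x := mul_le_mul_of_nonneg_left hlog hδ.le
  nlinarith

end Pool.Agent.U463.RB
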