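import Pool.Agent.U463.RS.LNec
import Pool.Agent.U463.RB.Prob

/-!
# Weighted sums over the integers, and moments
-/

set_option autoImplicit false

namespace Pool.Agent.U463.RB

open Finset MeasureTheory ProbabilityTheory Filter
open Pool.Agent.U463.RS (fs fs_empty one_sub_ge sum_blocks)
open Pool.Agent.W136.RF (cm cm_range cm_abs)

open Classical in
/-- the product of the `1 - w q` over the members `q` of `P` which divide `n` -/
noncomputable def pr (w : ℕ → ℝ) (P : Finset ℕ) (n : ℕ) : ℝ :=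
  ∏ q ∈ P.filter (fun q => q ∣ n), (1 - w q)

theorem pr_nonneg {w : ℕ → ℝ} (h1 : ∀ q, w q ≤ 1) (P : Finset ℕ) (n : ℕ) : 0 ≤ pr w P n :=
  prod_nonneg fun q _ => by have := h1 q; linarith

/-- the weighted sum of `1 / n` -/
noncomputable def fsw (w : ℕ → ℝ) (P : Finset ℕ) (X : ℕ) : ℝ := ∑ n ∈ Ico 1 X, pr w P n / n

theorem fsw_nonneg {w : ℕ → ℝ} (h1 : ∀ q, w q ≤ 1) (P : Finset ℕ) (X : ℕ) : 0 ≤ fsw w P X :=
  sum_nonneg fun _ _ => div_nonneg (pr_nonneg h1 _ _) (Nat.cast_nonneg _)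

theorem fsw_step (w : ℕ → ℝ) (h0 : ∀ q, 0 ≤ w q) (h1 : ∀ q, w q ≤ 1) (P : Finset ℕ) (q X : ℕ)
    (hq : q.Prime) (hqP : q ∉ P) (hP : ∀ p ∈ P, p.Prime) :
    (1 - w q / (q : ℝ)) * fsw w P X ≤ fsw w (insert q P) X := by
  classical
  have hq0 : (0:ℝ) < q := by exact_mod_cast hq.pos
  obtain ⟨T, hT⟩ : ∃ T, T = (Ico 1 X).filter (fun n => q ∣ n) := ⟨_, rfl⟩
  have e0 : ∀ n, pr w (insert q P) n = pr w P n - w q * (if q ∣ n then pr w P n else 0) := by
    intro n
    unfold pr
    rw [filter_insert]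
    split_ifs with h
    · rw [prod_insert (fun h2 => hqP (mem_filter.1 h2).1)]
      ring
    · ring
  have h3 : fsw w (insert q P) X = fsw w P X - w q * ∑ n ∈ T, pr w P n / n := by
    unfold fsw
    rw [hT, sum_filter, mul_sum, ← sum_sub_distrib]
    refine sum_congr rfl fun n _ => ?_
    rw [e0]
    split_ifs <;> ring
  have h2 : ∑ n ∈ T, pr w P n / n ≤ 1 / q * fsw w P X := by
    have e1 : ∀ n ∈ T, pr w P n / n = 1 / q * (pr w P (n / q) / ((n / q : ℕ) : ℝ)) := by
      intro n hn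
      rw [hT, mem_filter] at hn
      have e2 : pr w P n = pr w P (n / q) := by
        unfold pr
        congr 1
        refine filter_congr fun p hp => ?_
        obtain ⟨c, rfl⟩ := hn.2
        rw [Nat.mul_div_cancel_left _ hq.pos]
        constructor
        · intro h
          exact ((hP p hp).dvd_mul.1 h).resolve_left (fun h' => hqP (by
            rw [← (Nat.prime_dvd_prime_iff_eq (hP p hp) hq).1 h']
            exact hp))
        · exact fun h => h.mul_left q
      rw [Nat.cast_div hn.2 hq0.ne', ← e2]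
      field_simp
    rw [sum_congr rfl e1, ← mul_sum]
    apply mul_le_mul_of_nonneg_left _ (by positivity)
    have hinj : Set.InjOn (fun n => n / q) (T : Set ℕ) := by
      intro a ha b hb hab
      rw [mem_coe, hT, mem_filter] at ha hb
      obtain ⟨c, rfl⟩ := ha.2
      obtain ⟨d, rfl⟩ := hb.2
      simp only [Nat.mul_div_cancel_left _ hq.pos] at hab
      rw [hab]
    have e2 : ∑ n ∈ T, pr w P (n / q) / ((n / q : ℕ) : ℝ) =
        ∑ m ∈ T.image (fun n => n / q), pr w P m / m :=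
      (sum_image (f := fun m : ℕ => pr w P m / (m : ℝ)) hinj).symm
    rw [e2]
    unfold fsw
    refine sum_le_sum_of_subset_of_nonneg (fun m hm => ?_) fun m _ _ =>
      div_nonneg (pr_nonneg h1 _ _) (Nat.cast_nonneg _)
    rw [mem_image] at hm
    obtain ⟨n, hn, rfl⟩ := hm
    rw [hT, mem_filter, mem_Ico] at hn
    obtain ⟨⟨hn1, hnX⟩, c, rfl⟩ := hn
    simp only [Nat.mul_div_cancel_left _ hq.pos]
    rw [mem_Ico]
    have hc : c ≠ 0 := by
      rintro rfl
      simp at hn1
    exact ⟨Nat.one_le_iff_ne_zero.2 hc, lt_of_le_of_lt (Nat.le_mul_of_pos_left c hq.pos) hnX⟩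
  rw [h3]
  have h4 := mul_le_mul_of_nonneg_left h2 (h0 q)
  have e : (1 - w q / (q:ℝ)) * fsw w P X = fsw w P X - w q * (1 / q * fsw w P X) := by ring
  rw [e]
  linarith

theorem fsw_ge (w : ℕ → ℝ) (h0 : ∀ q, 0 ≤ w q) (h1 : ∀ q, w q ≤ 1) (X : ℕ) (P : Finset ℕ) :
    (∀ q ∈ P, q.Prime) →
    Real.exp (-(2 * ∑ q ∈ P, w q / q)) * fs ∅ X ≤ fsw w P X := by
  classical
  induction P using Finset.induction_on with
  | empty =>
    intro _
    have e : fsw w ∅ X = fs ∅ X := by
      unfold fsw fs pr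
      simp
    rw [e]
    simp
  | insert q P hq ih =>
    intro hP
    have hPp : ∀ p ∈ P, p.Prime := fun p hp => hP p (mem_insert_of_mem hp)
    have g1 := ih hPp
    have hqp := hP q (mem_insert_self _ _)
    have hq2 : (2:ℝ) ≤ q := by exact_mod_cast hqp.two_le
    have h2 := fsw_step w h0 h1 P q X hqp hq hPp
    have hwq : w q / q ≤ 1 / 2 := by
      rw [div_le_div_iff₀ (by linarith) (by norm_num)]
      have := h1 q
      linarith
    have h3 := one_sub_ge (w q / q) (div_nonneg (h0 q) (Nat.cast_nonneg _)) hwq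
    have h4 : 0 ≤ fs ∅ X := sum_nonneg fun _ _ => by positivity
    rw [sum_insert hq]
    have e : Real.exp (-(2 * (w q / (q:ℝ) + ∑ q ∈ P, w q / q))) =
        Real.exp (-(2 * (w q / (q:ℝ)))) * Real.exp (-(2 * ∑ q ∈ P, w q / q)) := by
      rw [← Real.exp_add]; congr 1; ring
    rw [e, mul_assoc]
    refine le_trans ?_ h2
    exact mul_le_mul h3 g1 (mul_nonneg (Real.exp_pos _).le h4) (by linarith)

theorem block_le (j : ℕ) : ∑ n ∈ Ico ((2:ℕ) ^ j) (2 ^ (j + 1)), (1 : ℝ) / (n : ℝ) ≤ 1 := by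
  have h1 : ∀ n ∈ Ico ((2:ℕ) ^ j) (2 ^ (j + 1)), (1 : ℝ) / (n : ℝ) ≤ 1 / 2 ^ j := by
    intro n hn
    rw [mem_Ico] at hn
    apply one_div_le_one_div_of_le (by positivity)
    exact_mod_cast hn.1
  refine (sum_le_sum h1).trans ?_
  rw [sum_const, Nat.card_Ico, nsmul_eq_mul]
  have h2 : 2 ^ (j + 1) - 2 ^ j = 2 ^ j := by
    rw [pow_succ]; omega
  rw [h2]
  push_cast
  rw [mul_one_div, div_self (by positivity)]

theorem long_le (a b : ℕ) (hab : a ≤ b) :
    ∑ n ∈ Ico ((2:ℕ) ^ a) (2 ^ b), (1 : ℝ) / (n : ℝ) ≤ b - a := by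
  rw [← sum_blocks _ a b hab]
  refine (sum_le_sum fun j _ => block_le j).trans ?_
  rw [sum_const, Nat.card_Ico, nsmul_eq_mul, mul_one, Nat.cast_sub hab]

/-- the weighted sum of `1 / n` over a long interval -/
theorem wsuper (w : ℕ → ℝ) (h0 : ∀ q, 0 ≤ w q) (h1 : ∀ q, w q ≤ 1) (P : Finset ℕ)
    (hP : ∀ q ∈ P, q.Prime) (C κ : ℝ)
    (hC : ∑ q ∈ P, w q / q ≤ C) (hκ : κ = Real.exp (-(2 * C)) / 8) (a b : ℕ)
    (hab : a ≤ b) (h2 : (a : ℝ) ≤ 2 * κ * b) :
    2 * κ * b ≤ ∑ n ∈ Ico (2 ^ a) (2 ^ b), pr w P n / n := by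
  have h3 := fsw_ge w h0 h1 (2 ^ b) P hP
  have h4 := fs_empty b
  have h5 : Real.exp (-(2 * C)) ≤ Real.exp (-(2 * ∑ q ∈ P, w q / q)) :=
    Real.exp_le_exp.2 (by linarith)
  have h6 : Real.exp (-(2 * C)) * (b / 2) ≤ Real.exp (-(2 * ∑ q ∈ P, w q / q)) * fs ∅ (2 ^ b) :=
    mul_le_mul h5 h4 (by positivity) (Real.exp_pos _).le
  have h7 : fsw w P (2 ^ b) = fsw w P (2 ^ a) + ∑ n ∈ Ico (2 ^ a) (2 ^ b), pr w P n / n := by
    unfold fsw
    exact (sum_Ico_consecutive _ (Nat.one_le_two_pow (n := a))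
      (Nat.pow_le_pow_right (by norm_num) hab)).symm
  have h8 : fsw w P (2 ^ a) ≤ a := by
    have h9 := long_le 0 a (Nat.zero_le _)
    rw [pow_zero] at h9
    unfold fsw
    refine le_trans (sum_le_sum fun n _ => ?_) (h9.trans (by simp))
    apply div_le_div_of_nonneg_right _ (Nat.cast_nonneg _)
    unfold pr
    exact prod_le_one (fun q _ => by have := h1 q; linarith) (fun q _ => by
      have := h0 q; linarith)
  have h10 : 4 * κ * b = Real.exp (-(2 * C)) * (b / 2) := by rw [hκ]; ring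
  linarith

variable {Ω : Type*} [MeasurableSpace Ω]

/-- the more likely sign -/
noncomputable def maj (P : Measure Ω) (e : ℕ → Ω → ℝ) (p : ℕ) : ℝ :=
  if 0 ≤ ∫ ω, e p ω ∂P then 1 else -1

theorem maj_or (P : Measure Ω) (e : ℕ → Ω → ℝ) (p : ℕ) : maj P e p = 1 ∨ maj P e p = -1 := by
  unfold maj
  split_ifs <;> simp

theorem maj_mul (P : Measure Ω) (e : ℕ → Ω → ℝ) (p : ℕ) :
    maj P e p * ∫ ω, e p ω ∂P = |∫ ω, e p ω ∂P| := by
  unfold maj
  split_ifs with h
  · rw [one_mul, abs_of_nonneg h]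
  · rw [abs_of_neg (not_le.1 h)]; ring

/-- the sign relative to the more likely one, at the primes beyond `L` -/
noncomputable def tau (P : Measure Ω) (e : ℕ → Ω → ℝ) (L : ℕ) (ω : Ω) (p : ℕ) : ℝ :=
  if L < p then maj P e p * e p ω else 1

theorem tau_or {P : Measure Ω} {e : ℕ → Ω → ℝ} (he : ∀ p ω, e p ω = 1 ∨ e p ω = -1) (L : ℕ)
    (ω : Ω) (p : ℕ) : tau P e L ω p = 1 ∨ tau P e L ω p = -1 := by
  unfold tau
  split_ifs
  · rcases maj_or P e p with h | h <;> rcases he p ω with h' | h' <;> rw [h, h'] <;> norm_num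
  · exact Or.inl rfl

open Classical in
/-- **the first moment** -/
theorem exp_cm {P : Measure Ω} [IsProbabilityMeasure P] {e : ℕ → Ω → ℝ}
    (hm : ∀ p, Measurable (e p)) (he : ∀ p ω, e p ω = 1 ∨ e p ω = -1)
    (hind : iIndepFun e P) (L D n : ℕ) (hnD : n ≤ D) :
    pr (fun q => 1 - |∫ ω, e q ω ∂P|) ((Icc 1 D).filter (fun q => q.Prime ∧ L < q)) n ≤
      ∫ ω, cm (tau P e L ω) n ∂P := by
  have hcm : ∀ ω, cm (tau P e L ω) n = ∏ p : range (D + 1),
      (if L < (p : ℕ) then maj P e p * e p ω else 1) ^ (n.factorization p) := by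
    intro ω
    rw [cm_range _ hnD]
    exact (prod_coe_sort (range (D + 1)) (fun p => (tau P e L ω p) ^ (n.factorization p))).symm
  have h1 := (hind.precomp (g := fun i : range (D + 1) => (i : ℕ)) Subtype.val_injective)
  have h2 := h1.integral_fun_prod_comp (f := fun (i : range (D + 1)) (x : ℝ) =>
      (if L < (i : ℕ) then maj P e i * x else 1) ^ (n.factorization i))
    (fun i => (hm i.1).aemeasurable)
    (fun i => by
      refine Measurable.aestronglyMeasurable ?_
      split_ifs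
      · exact (measurable_id.const_mul _).pow_const _
      · exact measurable_const.pow_const _)
  have h3 : ∫ ω, cm (tau P e L ω) n ∂P = ∏ p ∈ range (D + 1),
      ∫ ω, (tau P e L ω p) ^ (n.factorization p) ∂P := by
    simp only [hcm]
    rw [← prod_coe_sort (range (D + 1)) (fun p => ∫ ω, (tau P e L ω p) ^ (n.factorization p) ∂P)]
    exact h2
  rw [h3]
  have h4 : pr (fun q => 1 - |∫ ω, e q ω ∂P|) ((Icc 1 D).filter (fun q => q.Prime ∧ L < q)) n =
      ∏ p ∈ range (D + 1), (if (p.Prime ∧ L < p) ∧ p ∣ n then |∫ ω, e p ω ∂P| else 1) := by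
    unfold pr
    rw [← prod_filter]
    refine prod_congr ?_ fun p _ => by ring
    ext p
    simp only [mem_filter, mem_Icc, mem_range]
    constructor
    · rintro ⟨⟨⟨a1, a2⟩, a3⟩, a4⟩
      exact ⟨by omega, a3, a4⟩
    · rintro ⟨a1, a3, a4⟩
      exact ⟨⟨⟨a3.1.pos, by omega⟩, a3⟩, a4⟩
  rw [h4]
  refine prod_le_prod (fun p _ => by split_ifs <;> positivity) fun p _ => ?_
  have hk : ∀ ω, (tau P e L ω p) ^ (n.factorization p) =
      if Even (n.factorization p) then 1 else tau P e L ω p := by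
    intro ω
    split_ifs with h
    · rcases tau_or (P := P) he L ω p with h' | h'
      · rw [h', one_pow]
      · rw [h', h.neg_one_pow]
    · have h2 := Nat.not_even_iff_odd.1 h
      rcases tau_or (P := P) he L ω p with h' | h'
      · rw [h', one_pow]
      · rw [h', h2.neg_one_pow]
  simp only [hk]
  have habs : |∫ ω, e p ω ∂P| ≤ 1 := by
    have := Pool.Agent.W136.RF.int_pow_le (P := P) (fun ω => he p ω) 1
    simpa only [pow_one] using this
  by_cases hev : Even (n.factorization p)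
  · simp only [if_pos hev, integral_const, probReal_univ, smul_eq_mul, mul_one]
    split_ifs
    · exact habs
    · exact le_rfl
  · simp only [if_neg hev]
    by_cases hL : L < p
    · have e1 : ∫ ω, tau P e L ω p ∂P = |∫ ω, e p ω ∂P| := by
        unfold tau
        simp only [if_pos hL]
        rw [integral_const_mul, maj_mul]
      rw [e1]
      have hf : n.factorization p ≠ 0 := fun h0 => hev (by rw [h0]; exact Even.zero)
      have hpp : p.Prime := by
        by_contra hcon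
        exact hf (Nat.factorization_eq_zero_of_not_prime n hcon)
      have hdv : p ∣ n := Nat.dvd_of_factorization_pos hf
      rw [if_pos ⟨⟨hpp, hL⟩, hdv⟩]
    · have e1 : ∫ ω, tau P e L ω p ∂P = 1 := by
        unfold tau
        simp [if_neg hL]
      rw [e1, if_neg (fun h => hL h.1.2)]

theorem cm_meas {P : Measure Ω} {e : ℕ → Ω → ℝ} (hm : ∀ p, Measurable (e p)) (L n : ℕ) :
    Measurable (fun ω => cm (tau P e L ω) n) := by
  have : (fun ω => cm (tau P e L ω) n) = fun ω => ∏ p ∈ range (n + 1),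
      (tau P e L ω p) ^ (n.factorization p) := by
    funext ω
    exact cm_range _ le_rfl
  rw [this]
  refine Finset.measurable_fun_prod _ fun p _ => Measurable.pow_const ?_ _
  unfold tau
  split_ifs
  · exact (hm p).const_mul _
  · exact measurable_const

open Classical in
/-- **one block**: with positive probability its sum is large -/
theorem block_prob {P : Measure Ω} [IsProbabilityMeasure P] {e : ℕ → Ω → ℝ}
    (hm : ∀ p, Measurable (e p)) (he : ∀ p ω, e p ω = 1 ∨ e p ω = -1)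
    (hind : iIndepFun e P) (L D : ℕ) (C κ : ℝ)
    (hC : ∑ q ∈ (Icc 1 D).filter (fun q => q.Prime ∧ L < q), (1 - |∫ ω, e q ω ∂P|) / q ≤ C)
    (hκ : κ = Real.exp (-(2 * C)) / 8) (a b : ℕ) (hab : a < b) (h2 : (a : ℝ) ≤ 2 * κ * b)
    (hbD : 2 ^ b ≤ D) :
    ENNReal.ofReal κ ≤ P {ω | κ * b ≤ ∑ n ∈ Ico (2 ^ a) (2 ^ b), cm (tau P e L ω) n / n} := by
  have hκ0 : 0 < κ := by rw [hκ]; positivity
  have hb0 : (0:ℝ) < b := by
    have : 0 < b := by omega
    exact_mod_cast this
  have hw0 : ∀ q, 0 ≤ 1 - |∫ ω, e q ω ∂P| := by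
    intro q
    have := Pool.Agent.W136.RF.int_pow_le (P := P) (fun ω => he q ω) 1
    simp only [pow_one] at this
    linarith
  have hw1 : ∀ q, 1 - |∫ ω, e q ω ∂P| ≤ 1 := by
    intro q
    have := abs_nonneg (∫ ω, e q ω ∂P)
    linarith
  have hs := wsuper (fun q => 1 - |∫ ω, e q ω ∂P|) hw0 hw1
    ((Icc 1 D).filter (fun q => q.Prime ∧ L < q)) (fun q hq => (mem_filter.1 hq).2.1) C κ hC hκ
    a b hab.le h2
  have habs : ∀ n ω, |cm (tau P e L ω) n| = 1 := fun n ω => cm_abs (tau_or he L ω) n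
  obtain ⟨S, hS⟩ : ∃ S : Ω → ℝ, S = fun ω => ∑ n ∈ Ico (2 ^ a) (2 ^ b),
    cm (tau P e L ω) n / n := ⟨_, rfl⟩
  have hSm : Measurable S := by
    rw [hS]
    exact Finset.measurable_fun_sum _ fun n _ => (cm_meas hm L n).div_const _
  have hSle : ∀ ω, S ω ≤ b := by
    intro ω
    rw [hS]
    refine (sum_le_sum fun n _ => ?_).trans ((long_le a b hab.le).trans (by
      have : (0:ℝ) ≤ a := Nat.cast_nonneg _
      linarith))
    apply div_le_div_of_nonneg_right _ (Nat.cast_nonneg _)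
    exact (le_abs_self _).trans (habs n ω).le
  have hint : ∀ n, Integrable (fun ω => cm (tau P e L ω) n / n) P := by
    intro n
    refine Integrable.of_bound ((cm_meas hm L n).div_const _).aestronglyMeasurable
      (1 / n) (Eventually.of_forall fun ω => ?_)
    rw [Real.norm_eq_abs, abs_div, habs, Nat.abs_cast]
  have hSi : ∫ ω, S ω ∂P = ∑ n ∈ Ico (2 ^ a) (2 ^ b), (∫ ω, cm (tau P e L ω) n ∂P) / n := by
    rw [hS]
    rw [integral_finsetSum _ fun n _ => hint n]
    exact sum_congr rfl fun n _ => integral_div _ _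
  have hlow : 2 * κ * b ≤ ∫ ω, S ω ∂P := by
    rw [hSi]
    refine hs.trans (sum_le_sum fun n hn => ?_)
    rw [mem_Ico] at hn
    apply div_le_div_of_nonneg_right _ (Nat.cast_nonneg _)
    exact exp_cm hm he hind L D n (by omega)
  obtain ⟨A, hA⟩ : ∃ A : Set Ω, A = {ω | κ * b ≤ S ω} := ⟨_, rfl⟩
  have hAm : MeasurableSet A := by
    rw [hA]
    exact measurableSet_le measurable_const hSm
  have hpt : ∀ ω, S ω ≤ κ * b + A.indicator (fun _ => (b : ℝ)) ω := by
    intro ω
    by_cases h : κ * b ≤ S ω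
    · rw [Set.indicator_of_mem (by rw [hA]; exact h)]
      have := hSle ω
      have : 0 < κ * b := by positivity
      linarith [hSle ω]
    · rw [Set.indicator_of_notMem (by rw [hA]; exact h)]
      linarith
  have hSint : Integrable S P := by
    rw [hS]
    exact integrable_finsetSum _ fun n _ => hint n
  have hup : ∫ ω, S ω ∂P ≤ κ * b + b * (P A).toReal := by
    have hi1 : Integrable (fun _ : Ω => κ * b) P := integrable_const _
    have hi2 : Integrable (A.indicator (fun _ => (b : ℝ))) P := (integrable_const _).indicator hAm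
    refine (integral_mono hSint (hi1.add hi2) hpt).trans (le_of_eq ?_)
    rw [integral_add' hi1 hi2, integral_const, integral_indicator_const _ hAm]
    simp only [probReal_univ, smul_eq_mul, one_mul]
    rw [mul_comm (b:ℝ)]
    rfl
  have hfin : κ ≤ (P A).toReal := by
    have h3 : κ * b ≤ (P A).toReal * b := by linarith
    exact le_of_mul_le_mul_right h3 hb0
  have hA' : P {ω | κ * b ≤ ∑ n ∈ Ico (2 ^ a) (2 ^ b), cm (tau P e L ω) n / n} = P A := by
    rw [hA, hS]
  rw [hA']
  exact ENNReal.ofReal_le_of_le_toReal hfin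

end Pool.Agent.U463.RB
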